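import Pool.Agent.Lib.MP_95b053_co.MAS.Spec

set_option autoImplicit false

namespace Pool.Agent.MAS

open Finset

private theorem Ape_neg {d : ℕ} {p : (Fin d → ℤ) → ℝ} (h : Nrm d p) (x : Fin d → ℤ) : p (-x) = p x := by
  have h1 := h.2.1 (-1) x
  simpa using h1

private theorem Ape_sub {d : ℕ} {p : (Fin d → ℤ) → ℝ} (h : Nrm d p) (x y : Fin d → ℤ) :
    p (x - y) ≤ p x + p y := by
  have h1 := h.1 x (-y)
  rwa [Ape_neg h, ← sub_eq_add_neg] at h1

/-- The largest `k` with `k ^ d < n`. -/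
private theorem Ape_k (d n : ℕ) (hd : 1 ≤ d) (hn : 1 < n) :
    ∃ k : ℕ, 1 ≤ k ∧ k ^ d < n ∧ n ≤ (k + 1) ^ d := by
  classical
  have hex : ∃ K : ℕ, n ≤ K ^ d := ⟨n, Nat.le_self_pow (by omega) n⟩
  have h1 := Nat.find_spec hex
  have h2 : 2 ≤ Nat.find hex := by
    by_contra hlt
    have h3 : Nat.find hex = 0 ∨ Nat.find hex = 1 := by omega
    rcases h3 with h | h
    · rw [h, zero_pow (by omega)] at h1
      omega
    · rw [h, one_pow] at h1
      omega
  refine ⟨Nat.find hex - 1, by omega, ?_, ?_⟩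
  · have h3 := Nat.find_min hex (m := Nat.find hex - 1) (by omega)
    exact not_le.mp h3
  · rw [Nat.sub_add_cancel (by omega)]
    exact h1

/-- Two different elements of a large set are congruent modulo `k`. -/
private theorem Ape_w {d : ℕ} (k : ℕ) (hk : 1 ≤ k) (B : Finset (Fin d → ℤ)) (h : k ^ d < B.card) :
    ∃ z ∈ B, ∃ z' ∈ B, ∃ w : Fin d → ℤ, w ≠ 0 ∧ z - z' = (k : ℤ) • w := by
  classical
  have hk0 : NeZero k := ⟨by omega⟩
  have hc : (Finset.univ : Finset (Fin d → ZMod k)).card < B.card := by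
    rw [Finset.card_univ, Fintype.card_fun, ZMod.card, Fintype.card_fin]
    exact h
  obtain ⟨z, hz, z', hz', hne, heq⟩ := Finset.exists_ne_map_eq_of_card_lt_of_maps_to hc
    (f := fun z i => ((z i : ℤ) : ZMod k)) (fun z _ => Finset.mem_univ _)
  have hdvd : ∀ i, (k : ℤ) ∣ z i - z' i := by
    intro i
    have h1 := congrFun heq i
    have h2 : ((z i - z' i : ℤ) : ZMod k) = 0 := by
      push_cast
      exact sub_eq_zero.mpr h1
    exact (ZMod.intCast_zmod_eq_zero_iff_dvd _ _).mp h2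
  choose w hw using hdvd
  refine ⟨z, hz, z', hz', w, ?_, ?_⟩
  · intro h0
    apply hne
    funext i
    have h1 := hw i
    rw [h0, Pi.zero_apply, mul_zero] at h1
    omega
  · funext i
    rw [Pi.sub_apply, Pi.smul_apply, smul_eq_mul]
    exact hw i

/-- A translate of the ball which contains a large part of `A`. -/
private theorem Ape_E {G : Type} [AddCommGroup G] [DecidableEq G] {d N : ℕ} (A X : Finset G)
    (B : Finset (Fin d → ℤ)) (φ : (Fin d → ℤ) →+ G) (hA : A.Nonempty) (hX : X.card ≤ N)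
    (h : ∀ a ∈ A, ∃ x ∈ X, ∃ z ∈ B, a = x + φ z) :
    ∃ x0 : G, A.card ≤ N * (B.filter (fun z => x0 + φ z ∈ A)).card := by
  have hXn : X.Nonempty := by
    obtain ⟨a, ha⟩ := hA
    obtain ⟨x, hx, -⟩ := h a ha
    exact ⟨x, hx⟩
  obtain ⟨x0, hx0, hmax⟩ := Finset.exists_max_image X
    (fun x => (B.filter (fun z => x + φ z ∈ A)).card) hXn
  refine ⟨x0, ?_⟩
  have hsub : A ⊆ X.biUnion (fun x => (B.filter (fun z => x + φ z ∈ A)).image (fun z => x + φ z)) := by
    intro a ha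
    obtain ⟨x, hx, z, hz, hax⟩ := h a ha
    rw [Finset.mem_biUnion]
    refine ⟨x, hx, ?_⟩
    rw [Finset.mem_image]
    exact ⟨z, Finset.mem_filter.mpr ⟨hz, hax ▸ ha⟩, hax.symm⟩
  calc A.card ≤ _ := Finset.card_le_card hsub
    _ ≤ X.card * (B.filter (fun z => x0 + φ z ∈ A)).card :=
        Finset.card_biUnion_le_card_mul _ _ _ (fun x hx => Finset.card_image_le.trans (hmax x hx))
    _ ≤ N * _ := Nat.mul_le_mul_right _ hX

/-- The arithmetic at the end. -/
private theorem Ape_num {a N d k f n1 n2 e j : ℕ} (ha : 1 ≤ a) (hd : 1 ≤ d) (hN : 1 ≤ N) (hk : 1 ≤ k)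
    (h1 : a ≤ N * n1) (h2 : n1 ≤ (k + 1) ^ d) (h3 : a ≤ N * e) (h4 : k ≤ 2 * j) (h5 : e * j ≤ f * n2)
    (h6 : n2 ≤ 4 ^ d * (N * a)) : 1 ≤ f ∧ a ≤ (4 ^ (d + 1) * N ^ 3 * f) ^ d := by
  have hk2 : k ≤ 2 * (4 ^ d * N ^ 2 * f) := by
    have h7 : a * k ≤ a * (2 * (4 ^ d * N ^ 2 * f)) := by
      calc a * k ≤ (N * e) * (2 * j) := Nat.mul_le_mul h3 h4
        _ = 2 * N * (e * j) := by ring
        _ ≤ 2 * N * (f * n2) := Nat.mul_le_mul_left _ h5
        _ ≤ 2 * N * (f * (4 ^ d * (N * a))) :=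
            Nat.mul_le_mul_left _ (Nat.mul_le_mul_left _ h6)
        _ = a * (2 * (4 ^ d * N ^ 2 * f)) := by ring
    exact Nat.le_of_mul_le_mul_left h7 (by omega)
  have hf : 1 ≤ f := by
    rcases Nat.eq_zero_or_pos f with h0 | h0
    · rw [h0, mul_zero, mul_zero] at hk2
      omega
    · exact h0
  refine ⟨hf, ?_⟩
  have hM : k + 1 ≤ 4 ^ (d + 1) * N ^ 2 * f := by
    calc k + 1 ≤ 2 * k := by omega
      _ ≤ 2 * (2 * (4 ^ d * N ^ 2 * f)) := Nat.mul_le_mul_left _ hk2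
      _ = 4 ^ (d + 1) * N ^ 2 * f := by ring
  calc a ≤ N * n1 := h1
    _ ≤ N * (k + 1) ^ d := Nat.mul_le_mul_left _ h2
    _ ≤ N ^ d * (4 ^ (d + 1) * N ^ 2 * f) ^ d :=
        Nat.mul_le_mul (Nat.le_self_pow (by omega) N) (Nat.pow_le_pow_left hM d)
    _ = (4 ^ (d + 1) * N ^ 3 * f) ^ d := by
        rw [← mul_pow]
        ring

theorem rApe (h1 : S_Gro) : S_Ape := by
  classical
  intro G _ A d N p φ X hA hd hN hDat hinj
  obtain ⟨hNrm, hX, hcov, hφB⟩ := hDat
  by_cases hAN : A.card ≤ N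
  · obtain ⟨a0, ha0⟩ := hA
    refine ⟨a0, 0, {a0}, by simpa using ha0, Finset.singleton_nonempty a0, ?_, ?_⟩
    · intro q hq
      exact ⟨0, by simpa using hq⟩
    · have hnat : A.card ≤ (4 ^ (d + 1) * N ^ 3 * ({a0} : Finset G).card) ^ d := by
        rw [Finset.card_singleton, mul_one]
        calc A.card ≤ N := hAN
          _ ≤ N ^ 3 := Nat.le_self_pow (by norm_num) N
          _ ≤ 4 ^ (d + 1) * N ^ 3 := Nat.le_mul_of_pos_left _ (by positivity)
          _ ≤ _ := Nat.le_self_pow (by omega) _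
      exact_mod_cast hnat
  · have hXN : X.card ≤ N := by exact_mod_cast hX
    have hinj2 : Set.InjOn φ {z | p z ≤ 2} := fun z hz z' hz' h => hinj z z' hz hz' h
    have hinj1 : Set.InjOn φ {z | p z ≤ 1} := hinj2.mono (fun z hz => by
      have h2 : p z ≤ 1 := hz
      show p z ≤ 2
      linarith)
    obtain ⟨B1, hB1⟩ : ∃ B1 : Finset (Fin d → ℤ), ∀ z, z ∈ B1 ↔ p z ≤ 1 :=
      ⟨(hNrm.2.2 1).toFinset, fun z => by simp⟩
    obtain ⟨B2, hB2⟩ : ∃ B2 : Finset (Fin d → ℤ), ∀ z, z ∈ B2 ↔ p z ≤ 2 :=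
      ⟨(hNrm.2.2 2).toFinset, fun z => by simp⟩
    have hc1 : (φ '' {z | p z ≤ 1}).ncard = B1.card := by
      rw [Set.ncard_image_of_injOn hinj1, ← Set.ncard_coe_finset B1]
      congr 1
      ext z
      simp [hB1]
    have hc2 : (φ '' {z | p z ≤ 2}).ncard = B2.card := by
      rw [Set.ncard_image_of_injOn hinj2, ← Set.ncard_coe_finset B2]
      congr 1
      ext z
      simp [hB2]
    have hG := h1 G d 1 p φ 1 hNrm zero_le_one
    rw [pow_one, mul_one, mul_one, hc2, hc1] at hG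
    rw [hc1] at hφB
    have hn2 : B2.card ≤ 4 ^ d * (N * A.card) := by
      have h2 : (B2.card : ℝ) ≤ 4 ^ d * (N * A.card) :=
        hG.trans (mul_le_mul_of_nonneg_left hφB (by positivity))
      exact_mod_cast h2
    have hcovB : ∀ a ∈ A, ∃ x ∈ X, ∃ z ∈ B1, a = x + φ z := by
      intro a ha
      obtain ⟨x, hx, z, hz, h2⟩ := hcov a ha
      exact ⟨x, hx, z, (hB1 z).mpr hz, h2⟩
    obtain ⟨x0, hx0⟩ := Ape_E A X B1 φ hA hXN hcovB
    have hA1 : 1 ≤ A.card := hA.card_pos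
    have hAB : A.card ≤ N * B1.card :=
      hx0.trans (Nat.mul_le_mul_left _ (Finset.card_filter_le _ _))
    have hn1 : 1 < B1.card := by
      by_contra hle
      have h2 : N * B1.card ≤ N * 1 := Nat.mul_le_mul_left _ (by omega)
      omega
    obtain ⟨k, hk1, hk2, hk3⟩ := Ape_k d B1.card hd hn1
    obtain ⟨z1, hz1, z2, hz2, w, hw0, hw⟩ := Ape_w k hk1 B1 hk2
    have hpw : (k : ℝ) * p w ≤ 2 := by
      have h2 := hNrm.2.1 (k : ℤ) w
      have h3 := Ape_sub hNrm z1 z2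
      rw [hw, h2] at h3
      have h4 : |((k : ℤ) : ℝ)| = (k : ℝ) := by simp
      rw [h4] at h3
      have h5 := (hB1 z1).mp hz1
      have h6 := (hB1 z2).mp hz2
      linarith
    have hpw0 : 0 ≤ p w := by
      have h2 := Ape_sub hNrm w w
      have h3 := hNrm.2.1 0 w
      rw [zero_smul] at h3
      rw [sub_self, h3] at h2
      simp at h2
      linarith
    have hmap : ∀ t ∈ (B1.filter (fun z => x0 + φ z ∈ A)) ×ˢ Finset.range (k / 2 + 1),
        t.1 + (t.2 : ℤ) • w ∈ B2 := by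
      rintro ⟨z, j⟩ ht
      rw [Finset.mem_product, Finset.mem_filter, Finset.mem_range] at ht
      obtain ⟨⟨hz, -⟩, hj⟩ := ht
      rw [hB2]
      have h2 := hNrm.1 z ((j : ℤ) • w)
      have h3 := hNrm.2.1 (j : ℤ) w
      have h4 : |((j : ℤ) : ℝ)| = (j : ℝ) := by simp
      rw [h4] at h3
      have h5 := (hB1 z).mp hz
      have h6 : 2 * j ≤ k := by
        have h7 : j ≤ k / 2 := by omega
        omega
      have h7 : (2 : ℝ) * j ≤ k := by exact_mod_cast h6
      have h8 : (2 : ℝ) * j * p w ≤ k * p w := mul_le_mul_of_nonneg_right h7 hpw0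
      show p (z + (j : ℤ) • w) ≤ 2
      linarith
    have h0B2 : B2.Nonempty := ⟨z1, (hB2 z1).mpr (by linarith [(hB1 z1).mp hz1])⟩
    obtain ⟨s, hs, hmax⟩ := Finset.exists_max_image B2
      (fun s => (((B1.filter (fun z => x0 + φ z ∈ A)) ×ˢ Finset.range (k / 2 + 1)).filter
        (fun t => t.1 + (t.2 : ℤ) • w = s)).card) h0B2
    have hcard := Finset.card_le_mul_card_image_of_maps_to hmap _ hmax
    rw [Finset.card_product, Finset.card_range] at hcard
    obtain ⟨hf1, hfin⟩ := Ape_num hA1 hd hN hk1 hAB hk3 hx0 (by omega) hcard hn2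
    have hinjT : Set.InjOn (fun t : (Fin d → ℤ) × ℕ => x0 + φ t.1)
        (((B1.filter (fun z => x0 + φ z ∈ A)) ×ˢ Finset.range (k / 2 + 1)).filter
          (fun t => t.1 + (t.2 : ℤ) • w = s)) := by
      rintro ⟨z, j⟩ ht ⟨z', j'⟩ ht' h
      simp only [Finset.coe_filter, Finset.mem_product, Finset.mem_filter, Finset.mem_range,
        Set.mem_setOf_eq] at ht ht'
      obtain ⟨⟨⟨hz, -⟩, -⟩, hzs⟩ := ht
      obtain ⟨⟨⟨hz', -⟩, -⟩, hzs'⟩ := ht'
      have h2 : φ z = φ z' := by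
        have h3 : x0 + φ z = x0 + φ z' := h
        exact add_left_cancel h3
      have h3 : z = z' := hinj1 ((hB1 z).mp hz) ((hB1 z').mp hz') h2
      have h4 : ((j : ℤ) - (j' : ℤ)) • w = 0 := by
        have h5 : (j : ℤ) • w = (j' : ℤ) • w := by
          rw [← hzs', h3] at hzs
          exact add_left_cancel hzs
        rw [sub_smul, h5, sub_self]
      rcases smul_eq_zero.mp h4 with h5 | h5
      · have h6 : j = j' := by omega
        rw [h3, h6]
      · exact absurd h5 hw0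
    refine ⟨x0 + φ s, φ w, (((B1.filter (fun z => x0 + φ z ∈ A)) ×ˢ Finset.range (k / 2 + 1)).filter
        (fun t => t.1 + (t.2 : ℤ) • w = s)).image (fun t => x0 + φ t.1), ?_, ?_, ?_, ?_⟩
    · intro q hq
      rw [Finset.mem_image] at hq
      obtain ⟨⟨z, j⟩, ht, rfl⟩ := hq
      simp only [Finset.mem_product, Finset.mem_filter] at ht
      exact ht.1.1.2
    · rw [Finset.image_nonempty, ← Finset.card_pos]
      exact hf1
    · intro q hq
      rw [Finset.mem_image] at hq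
      obtain ⟨⟨z, j⟩, ht, rfl⟩ := hq
      simp only [Finset.mem_product, Finset.mem_filter] at ht
      refine ⟨-(j : ℤ), ?_⟩
      rw [← ht.2, map_add, map_zsmul, neg_smul]
      abel
    · rw [Finset.card_image_of_injOn hinjT]
      exact_mod_cast hfin

end Pool.Agent.MAS
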