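import Pool.Agent.Lib.MP_95b053_co.MAS.Spec

/-!
# MAS/Basis: a reduced basis, and the number of points in balls
-/

set_option autoImplicit false

namespace Pool.Agent.MAS

open Finset

private lemma Basis_zero {d : ℕ} {p : (Fin d → ℤ) → ℝ} (h : Nrm d p) : p 0 = 0 := by
  have h0 := h.2.1 0 0
  simpa using h0

private lemma Basis_neg {d : ℕ} {p : (Fin d → ℤ) → ℝ} (h : Nrm d p) (x : Fin d → ℤ) :
    p (-x) = p x := by
  have h0 := h.2.1 (-1) x
  simpa using h0

private lemma Basis_nonneg {d : ℕ} {p : (Fin d → ℤ) → ℝ} (h : Nrm d p) (x : Fin d → ℤ) :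
    0 ≤ p x := by
  have h1 := h.1 x (-x)
  rw [add_neg_cancel, Basis_zero h, Basis_neg h] at h1
  linarith

private lemma Basis_pos {d : ℕ} {p : (Fin d → ℤ) → ℝ} (h : Nrm d p) {x : Fin d → ℤ}
    (hx : x ≠ 0) : 0 < p x := by
  by_contra hcon
  have h0 : p x = 0 := le_antisymm (not_lt.1 hcon) (Basis_nonneg h x)
  have hinj : Function.Injective (fun k : ℤ => k • x) := by
    intro k l hkl
    have h1 : (k - l) • x = 0 := by
      have h2 : k • x = l • x := hkl
      rw [sub_smul, h2, sub_self]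
    rcases smul_eq_zero.1 h1 with h3 | h3
    · omega
    · exact absurd h3 hx
  have hsub : Set.range (fun k : ℤ => k • x) ⊆ {y | p y ≤ 0} := by
    rintro _ ⟨k, rfl⟩
    have h1 : p (k • x) = 0 := by rw [h.2.1, h0, mul_zero]
    exact h1.le
  exact Set.infinite_range_of_injective hinj ((h.2.2 0).subset hsub)

private lemma Basis_min {d : ℕ} {p : (Fin (d + 1) → ℤ) → ℝ} (h : Nrm (d + 1) p) :
    ∃ v, v ≠ 0 ∧ ∀ w, w ≠ 0 → p v ≤ p w := by
  have h1 : (1 : Fin (d + 1) → ℤ) ≠ 0 := one_ne_zero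
  have hfin : {x : Fin (d + 1) → ℤ | p x ≤ p 1 ∧ x ≠ 0}.Finite :=
    (h.2.2 (p 1)).subset (fun x hx => hx.1)
  obtain ⟨v, hv, hmin⟩ := Set.exists_min_image _ p hfin ⟨1, le_rfl, h1⟩
  refine ⟨v, hv.2, fun w hw => ?_⟩
  by_cases hle : p w ≤ p 1
  · exact hmin w ⟨hle, hw⟩
  · exact hv.1.trans (le_of_not_ge hle)

private lemma Basis_pri (hP : S_Prim) {d : ℕ} {p : (Fin (d + 1) → ℤ) → ℝ} (h : Nrm (d + 1) p)
    {v : Fin (d + 1) → ℤ} (hv : v ≠ 0) (hmin : ∀ w, w ≠ 0 → p v ≤ p w) : Pri (d + 1) v := by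
  obtain ⟨g, w, hg, hgw, hw⟩ := hP (d + 1) v hv
  have hwpos := Basis_pos h hw.1
  have hp := hmin w hw.1
  have hpv : p v = |(g : ℝ)| * p w := by rw [hgw, h.2.1]
  have hg1 : g = 1 := by
    by_contra hne
    have h2 : (2 : ℤ) ≤ g := by omega
    have h3 : (2 : ℝ) ≤ (g : ℝ) := by exact_mod_cast h2
    have h4 : (2 : ℝ) ≤ |(g : ℝ)| := h3.trans (le_abs_self _)
    nlinarith
  rw [hg1, one_smul] at hgw
  rw [hgw]
  exact hw

private lemma Basis_fib {d : ℕ} {p : (Fin (d + 1) → ℤ) → ℝ} (h : Nrm (d + 1) p)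
    {v : Fin (d + 1) → ℤ} (hv : v ≠ 0) (π : (Fin (d + 1) → ℤ) →+ (Fin d → ℤ))
    (hker : ∀ x, π x = 0 ↔ ∃ j : ℤ, x = j • v) (R : ℝ)
    (F : Finset (Fin (d + 1) → ℤ)) (y : Fin d → ℤ) (hF : ∀ x ∈ F, p x ≤ R ∧ π x = y) :
    F.card ≤ ⌊2 * R / p v⌋₊ + 1 := by
  rcases F.eq_empty_or_nonempty with rfl | ⟨x0, hx0⟩
  · simp
  have hpv := Basis_pos h hv
  have hj : ∀ x ∈ F, ∃ j : ℤ, x - x0 = j • v := fun x hx => by
    rw [← hker, map_sub, (hF x hx).2, (hF x0 hx0).2, sub_self]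
  choose! j hj using hj
  obtain ⟨x1, hx1, hmin⟩ := F.exists_min_image j ⟨x0, hx0⟩
  have hsub : ∀ x ∈ F, j x ∈ Finset.Icc (j x1) (j x1 + (⌊2 * R / p v⌋₊ : ℤ)) := by
    intro x hx
    rw [Finset.mem_Icc]
    refine ⟨hmin x hx, ?_⟩
    have e : (j x - j x1) • v = x - x1 := by
      rw [sub_smul, ← hj x hx, ← hj x1 hx1]
      abel
    have h2 : p (x - x1) ≤ 2 * R := by
      have h3 := h.1 x (-x1)
      rw [Basis_neg h] at h3
      rw [sub_eq_add_neg]
      linarith [(hF x hx).1, (hF x1 hx1).1]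
    rw [← e, h.2.1] at h2
    have h3 : ((j x - j x1 : ℤ) : ℝ) ≤ 2 * R / p v := by
      rw [le_div_iff₀ hpv]
      exact (mul_le_mul_of_nonneg_right (le_abs_self _) hpv.le).trans h2
    have h5 : 0 ≤ j x - j x1 := sub_nonneg.2 (hmin x hx)
    have h4 : (j x - j x1).toNat ≤ ⌊2 * R / p v⌋₊ := by
      apply Nat.le_floor
      have h6 : (((j x - j x1).toNat : ℤ) : ℝ) = ((j x - j x1 : ℤ) : ℝ) := by
        rw [Int.toNat_of_nonneg h5]
      calc (((j x - j x1).toNat : ℕ) : ℝ) = (((j x - j x1).toNat : ℤ) : ℝ) := by push_cast; rfl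
        _ = ((j x - j x1 : ℤ) : ℝ) := h6
        _ ≤ 2 * R / p v := h3
    omega
  calc F.card ≤ (Finset.Icc (j x1) (j x1 + (⌊2 * R / p v⌋₊ : ℤ))).card :=
        Finset.card_le_card_of_injOn j (fun x hx => hsub x hx) (by
          intro x hx x' hx' hxx
          have h1 := hj x hx
          have h2 := hj x' hx'
          rw [hxx, ← h2] at h1
          exact sub_left_injective h1)
    _ = ⌊2 * R / p v⌋₊ + 1 := by
        rw [Int.card_Icc]
        omega

private lemma Basis_count {d : ℕ} {p : (Fin (d + 1) → ℤ) → ℝ} (h : Nrm (d + 1) p)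
    {v : Fin (d + 1) → ℤ} (hv : v ≠ 0) (π : (Fin (d + 1) → ℤ) →+ (Fin d → ℤ))
    (hker : ∀ x, π x = 0 ↔ ∃ j : ℤ, x = j • v) (p' : (Fin d → ℤ) → ℝ) (h' : Nrm d p')
    (hle : ∀ x, p' (π x) ≤ p x) (R : ℝ) (hR : 0 ≤ R) :
    ({x | p x ≤ R}.ncard : ℝ) ≤ (2 * (1 + R / p v)) * ({y | p' y ≤ R}.ncard : ℝ) := by
  classical
  have hpv := Basis_pos h hv
  rw [Set.ncard_eq_toFinset_card _ (h.2.2 R), Set.ncard_eq_toFinset_card _ (h'.2.2 R)]
  have h1 : (h.2.2 R).toFinset.card ≤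
      (⌊2 * R / p v⌋₊ + 1) * (h'.2.2 R).toFinset.card := by
    apply Finset.card_le_mul_card_image_of_maps_to (f := fun x => π x)
    · intro x hx
      rw [Set.Finite.mem_toFinset] at hx ⊢
      exact (hle x).trans hx
    · intro y _
      apply Basis_fib h hv π hker R _ y
      intro x hx
      rw [Finset.mem_filter, Set.Finite.mem_toFinset] at hx
      exact ⟨hx.1, hx.2⟩
  have h2 : ((⌊2 * R / p v⌋₊ : ℕ) : ℝ) ≤ 2 * R / p v := Nat.floor_le (by positivity)
  have h3 : (((⌊2 * R / p v⌋₊ + 1 : ℕ)) : ℝ) ≤ 2 * (1 + R / p v) := by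
    push_cast
    have h4 : 2 * R / p v = 2 * (R / p v) := by ring
    rw [h4] at h2 ⊢
    linarith
  calc ((h.2.2 R).toFinset.card : ℝ)
      ≤ (((⌊2 * R / p v⌋₊ + 1) * (h'.2.2 R).toFinset.card : ℕ) : ℝ) := by exact_mod_cast h1
    _ = ((⌊2 * R / p v⌋₊ + 1 : ℕ) : ℝ) * ((h'.2.2 R).toFinset.card : ℝ) := by push_cast; ring
    _ ≤ _ := mul_le_mul_of_nonneg_right h3 (Nat.cast_nonneg _)

private lemma Basis_indep {d : ℕ} {v : Fin (d + 1) → ℤ} (hv : v ≠ 0)
    (π : (Fin (d + 1) → ℤ) →+ (Fin d → ℤ)) (hpv : π v = 0) (b' : Fin d → (Fin d → ℤ))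
    (hb' : LinearIndependent ℤ b') (b : Fin d → (Fin (d + 1) → ℤ)) (hb : ∀ i, π (b i) = b' i) :
    LinearIndependent ℤ (Fin.cons v b : Fin (d + 1) → (Fin (d + 1) → ℤ)) := by
  rw [Fintype.linearIndependent_iff] at hb' ⊢
  intro g hg
  rw [Fin.sum_univ_succ] at hg
  simp only [Fin.cons_zero, Fin.cons_succ] at hg
  have h1 : ∑ i, g (Fin.succ i) • b' i = 0 := by
    have h2 := congrArg π hg
    rw [map_add, map_zsmul, hpv, smul_zero, zero_add, map_sum, map_zero] at h2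
    rw [← h2]
    exact Finset.sum_congr rfl (fun i _ => by rw [map_zsmul, hb])
  have h3 := hb' (fun i => g (Fin.succ i)) h1
  have h4 : ∑ i, g (Fin.succ i) • b i = 0 :=
    Finset.sum_eq_zero (fun i _ => by
      have h5 : g (Fin.succ i) = 0 := h3 i
      rw [h5, zero_smul])
  rw [h4, add_zero] at hg
  have h6 : g 0 = 0 := by
    rcases smul_eq_zero.1 hg with h7 | h7
    · exact h7
    · exact absurd h7 hv
  intro i
  refine Fin.cases h6 (fun i => h3 i) i

theorem rBasis (h1 : S_Prim) (h2 : S_Quo) (h3 : S_QNorm) : S_Basis := by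
  intro d
  induction d with
  | zero =>
    intro p _
    refine ⟨fun i => i.elim0, linearIndependent_empty_type, fun R _ => ?_⟩
    have hs : ({x | p x ≤ R} : Set (Fin 0 → ℤ)).Subsingleton :=
      fun x _ y _ => Subsingleton.elim x y
    have hc : ({x | p x ≤ R} : Set (Fin 0 → ℤ)).ncard ≤ 1 := by
      rcases hs.eq_empty_or_singleton with h | ⟨a, h⟩
      · rw [h]; simp
      · rw [h]; simp
    have hc' : (({x | p x ≤ R} : Set (Fin 0 → ℤ)).ncard : ℝ) ≤ 1 := by exact_mod_cast hc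
    simpa using hc'
  | succ d ih =>
    intro p h
    obtain ⟨v, hv, hmin⟩ := Basis_min h
    have hpri := Basis_pri h1 h hv hmin
    have hpv := Basis_pos h hv
    obtain ⟨π, hsurj, hker⟩ := h2 d v hpri
    obtain ⟨p', h', hle, hlift⟩ := h3 d p v π h hsurj hker
    obtain ⟨b', hb', hcount⟩ := ih p' h'
    choose L hL using hlift
    have hπv : π v = 0 := (hker v).2 ⟨1, (one_smul ℤ v).symm⟩
    have hb0 : ∀ i, b' i ≠ 0 := fun i => hb'.ne_zero i
    have hLb : ∀ i, π (L (b' i)) = b' i := fun i => (hL (b' i)).1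
    have hL0 : ∀ i, L (b' i) ≠ 0 := by
      intro i h0
      apply hb0 i
      rw [← hLb i, h0, map_zero]
    have hLpos : ∀ i, 0 < p (L (b' i)) := fun i => Basis_pos h (hL0 i)
    have hL2 : ∀ i, p (L (b' i)) ≤ 2 * p' (b' i) := by
      intro i
      have h4 := hmin _ (hL0 i)
      have h5 := (hL (b' i)).2
      linarith
    refine ⟨Fin.cons v (fun i => L (b' i)), Basis_indep hv π hπv b' hb' _ hLb, fun R hR => ?_⟩
    have hA := Basis_count h hv π hker p' h' hle R hR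
    have hB := hcount R hR
    have hC : ∏ i, (1 + R / p' (b' i)) ≤ 2 ^ d * ∏ i, (1 + R / p (L (b' i))) := by
      have h6 : ∏ i, (1 + R / p' (b' i)) ≤ ∏ i, (2 * (1 + R / p (L (b' i)))) := by
        apply Finset.prod_le_prod
        · intro i _
          have := Basis_nonneg h' (b' i)
          positivity
        · intro i _
          have h7 : R / p' (b' i) ≤ 2 * (R / p (L (b' i))) := by
            have h8 : 0 < p' (b' i) := by linarith [hL2 i, hLpos i]
            have h9 : 2 * (R / p (L (b' i))) = (2 * R) / p (L (b' i)) := by ring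
            rw [h9, div_le_div_iff₀ h8 (hLpos i)]
            nlinarith [hL2 i, mul_le_mul_of_nonneg_left (hL2 i) hR]
          linarith
      refine h6.trans (le_of_eq ?_)
      rw [Finset.prod_mul_distrib, Finset.prod_const, Finset.card_univ, Fintype.card_fin]
    rw [Fin.prod_univ_succ]
    simp only [Fin.cons_zero, Fin.cons_succ]
    set P : ℝ := ∏ i, (1 + R / p (L (b' i))) with hPdef
    have hP0 : 0 ≤ P := by
      apply Finset.prod_nonneg
      intro i _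
      have := hLpos i
      positivity
    have hR1 : 0 ≤ 1 + R / p v := by positivity
    have hD : ({y | p' y ≤ R}.ncard : ℝ) ≤ 2 ^ (d ^ 2) * (2 ^ d * P) :=
      hB.trans (mul_le_mul_of_nonneg_left hC (by positivity))
    have hE : ((2 : ℝ) ^ (d ^ 2) * 2 ^ d) * 2 ≤ 2 ^ ((d + 1) ^ 2) := by
      rw [← pow_add, ← pow_succ]
      apply pow_le_pow_right₀ (by norm_num)
      nlinarith
    calc ({x | p x ≤ R}.ncard : ℝ)
        ≤ (2 * (1 + R / p v)) * ({y | p' y ≤ R}.ncard : ℝ) := hA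
      _ ≤ (2 * (1 + R / p v)) * (2 ^ (d ^ 2) * (2 ^ d * P)) :=
          mul_le_mul_of_nonneg_left hD (by positivity)
      _ = (((2 : ℝ) ^ (d ^ 2) * 2 ^ d) * 2) * ((1 + R / p v) * P) := by ring
      _ ≤ 2 ^ ((d + 1) ^ 2) * ((1 + R / p v) * P) :=
          mul_le_mul_of_nonneg_right hE (mul_nonneg hR1 hP0)

end Pool.Agent.MAS
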