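import Pool.Agent.Lib.MP_95b053_co.MAS.Spec

/-!
# MP_95b053_co, project MAS: the box norm and its lattice points (`S_Box`)
-/

set_option autoImplicit false

namespace Pool.Agent.MAS

open Finset

/-- The vector whose sup norm is the norm. -/
private noncomputable def Box_F (N D : ℕ) (r : Fin D → ℕ) (z : Fin (D + 1) → ℤ) : Fin (D + 1) → ℝ :=
  Fin.cons ((z 0 : ℝ) / N) (fun i => 4 * ((r i : ℝ) * z 0 / N - z i.succ))

private theorem Box_zero (N D : ℕ) (r : Fin D → ℕ) (z : Fin (D + 1) → ℤ) :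
    Box_F N D r z 0 = (z 0 : ℝ) / N := rfl

private theorem Box_succ (N D : ℕ) (r : Fin D → ℕ) (z : Fin (D + 1) → ℤ) (i : Fin D) :
    Box_F N D r z i.succ = 4 * ((r i : ℝ) * z 0 / N - z i.succ) := by
  rw [Box_F, Fin.cons_succ]

private theorem Box_add (N D : ℕ) (r : Fin D → ℕ) (x y : Fin (D + 1) → ℤ) :
    Box_F N D r (x + y) = Box_F N D r x + Box_F N D r y := by
  funext i
  refine Fin.cases ?_ (fun i => ?_) i
  · rw [Pi.add_apply, Box_zero, Box_zero, Box_zero, Pi.add_apply]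
    push_cast
    ring
  · rw [Pi.add_apply, Box_succ, Box_succ, Box_succ, Pi.add_apply, Pi.add_apply]
    push_cast
    ring

private theorem Box_smul (N D : ℕ) (r : Fin D → ℕ) (k : ℤ) (x : Fin (D + 1) → ℤ) :
    Box_F N D r (k • x) = (k : ℝ) • Box_F N D r x := by
  funext i
  refine Fin.cases ?_ (fun i => ?_) i
  · rw [Pi.smul_apply, Box_zero, Box_zero, Pi.smul_apply, smul_eq_mul, smul_eq_mul]
    push_cast
    ring
  · rw [Pi.smul_apply, Box_succ, Box_succ, Pi.smul_apply, Pi.smul_apply, smul_eq_mul, smul_eq_mul,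
      smul_eq_mul]
    push_cast
    ring

private theorem Box_b0 (N D : ℕ) (r : Fin D → ℕ) (hN : 0 < N) (z : Fin (D + 1) → ℤ) (R : ℝ)
    (h : ‖Box_F N D r z‖ ≤ R) : |(z 0 : ℝ)| ≤ R * N := by
  have h1 := (norm_le_pi_norm (Box_F N D r z) 0).trans h
  have hN' : (0 : ℝ) < N := by exact_mod_cast hN
  rw [Box_zero, Real.norm_eq_abs, abs_div, abs_of_pos hN', div_le_iff₀ hN'] at h1
  exact h1

private theorem Box_b1 (N D : ℕ) (r : Fin D → ℕ) (z : Fin (D + 1) → ℤ) (R : ℝ)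
    (h : ‖Box_F N D r z‖ ≤ R) (i : Fin D) : |(r i : ℝ) * z 0 / N - z i.succ| ≤ R / 4 := by
  have h1 := (norm_le_pi_norm (Box_F N D r z) i.succ).trans h
  rw [Box_succ, Real.norm_eq_abs, abs_mul, abs_of_pos (by norm_num : (0 : ℝ) < 4)] at h1
  linarith

private theorem Box_fin (N D : ℕ) (r : Fin D → ℕ) (hN : 0 < N) (R : ℝ) :
    {z | ‖Box_F N D r z‖ ≤ R}.Finite := by
  have hN' : (0 : ℝ) < N := by exact_mod_cast hN
  let b : Fin (D + 1) → ℝ := Fin.cons (R * N) (fun i => (r i : ℝ) * R + R / 4)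
  refine (Set.finite_Icc (fun i => -⌈b i⌉) (fun i => ⌈b i⌉)).subset ?_
  intro z hz
  have key : ∀ i, |(z i : ℝ)| ≤ b i := by
    intro i
    have h0 := Box_b0 N D r hN z R hz
    refine Fin.cases ?_ (fun i => ?_) i
    · exact h0
    · have h1 := Box_b1 N D r z R hz i
      show _ ≤ (r i : ℝ) * R + R / 4
      have h2 : |(r i : ℝ) * z 0 / N| ≤ (r i : ℝ) * R := by
        rw [abs_div, abs_mul, abs_of_pos hN', abs_of_nonneg (Nat.cast_nonneg (r i) : (0 : ℝ) ≤ r i),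
          div_le_iff₀ hN', mul_assoc]
        exact mul_le_mul_of_nonneg_left h0 (Nat.cast_nonneg _)
      have h3 : (z i.succ : ℝ) = (r i : ℝ) * z 0 / N - ((r i : ℝ) * z 0 / N - z i.succ) := by ring
      rw [h3]
      exact (abs_sub _ _).trans (add_le_add h2 h1)
  refine ⟨fun i => ?_, fun i => ?_⟩
  · have h1 := (abs_le.1 (key i)).1
    have h2 : -((⌈b i⌉ : ℤ) : ℝ) ≤ z i := (neg_le_neg (Int.le_ceil _)).trans h1
    exact_mod_cast h2
  · have h1 := (abs_le.1 (key i)).2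
    have h2 : (z i : ℝ) ≤ ((⌈b i⌉ : ℤ) : ℝ) := h1.trans (Int.le_ceil _)
    exact_mod_cast h2

/-- The lattice point over `T`. -/
private noncomputable def Box_z (N D : ℕ) (r : Fin D → ℕ) (T : ℕ) : Fin (D + 1) → ℤ :=
  Fin.cons (T : ℤ) (fun i => ⌊(r i : ℝ) * T / N⌋)

private theorem Box_z0 (N D : ℕ) (r : Fin D → ℕ) (T : ℕ) : Box_z N D r T 0 = (T : ℤ) := rfl

private theorem Box_zs (N D : ℕ) (r : Fin D → ℕ) (T : ℕ) (i : Fin D) :
    Box_z N D r T i.succ = ⌊(r i : ℝ) * T / N⌋ := by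
  rw [Box_z, Fin.cons_succ]

private theorem Box_cell (N D : ℕ) (r : Fin D → ℕ) (hN : 0 < N) (T T' : ℕ) (hT : T < N) (hT' : T' < N)
    (h : ∀ i : Fin D, ⌊4 * Int.fract ((r i : ℝ) * T / N)⌋ = ⌊4 * Int.fract ((r i : ℝ) * T' / N)⌋) :
    ‖Box_F N D r (Box_z N D r T - Box_z N D r T')‖ ≤ 1 := by
  have hN' : (0 : ℝ) < N := by exact_mod_cast hN
  rw [pi_norm_le_iff_of_nonneg zero_le_one]
  intro i
  refine Fin.cases ?_ (fun i => ?_) i
  · rw [Box_zero, Pi.sub_apply, Box_z0, Box_z0, Real.norm_eq_abs, abs_div, abs_of_pos hN',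
      div_le_one hN']
    have h1 : (T : ℝ) < N := by exact_mod_cast hT
    have h2 : (T' : ℝ) < N := by exact_mod_cast hT'
    have h3 : (0 : ℝ) ≤ T := Nat.cast_nonneg _
    have h4 : (0 : ℝ) ≤ T' := Nat.cast_nonneg _
    push_cast
    rw [abs_le]
    constructor <;> linarith
  · rw [Box_succ, Pi.sub_apply, Pi.sub_apply, Box_z0, Box_z0, Box_zs, Box_zs, Real.norm_eq_abs]
    have h1 := Int.abs_sub_lt_one_of_floor_eq_floor (h i)
    have h2 : 4 * ((r i : ℝ) * (((T : ℤ) - (T' : ℤ) : ℤ) : ℝ) / N -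
        ((⌊(r i : ℝ) * T / N⌋ - ⌊(r i : ℝ) * T' / N⌋ : ℤ) : ℝ)) =
        4 * Int.fract ((r i : ℝ) * T / N) - 4 * Int.fract ((r i : ℝ) * T' / N) := by
      rw [Int.fract, Int.fract]
      push_cast
      ring
    rw [h2]
    exact h1.le

private theorem Box_cnt (N D : ℕ) (r : Fin D → ℕ) (hN : 0 < N) :
    (N : ℝ) ≤ 4 ^ D * ({z | ‖Box_F N D r z‖ ≤ 1}.ncard : ℝ) := by
  classical
  have hN' : (0 : ℝ) < N := by exact_mod_cast hN
  let f : ℕ → (Fin D → ℤ) := fun T i => ⌊4 * Int.fract ((r i : ℝ) * T / N)⌋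
  let t : Finset (Fin D → ℤ) := Fintype.piFinset (fun _ => Finset.Ico (0 : ℤ) 4)
  have hmaps : ∀ T ∈ range N, f T ∈ t := by
    intro T _
    refine Fintype.mem_piFinset.2 (fun i => Finset.mem_Ico.2 ⟨?_, ?_⟩)
    · exact Int.floor_nonneg.2 (mul_nonneg (by norm_num) (Int.fract_nonneg _))
    · rw [Int.floor_lt]
      have := Int.fract_lt_one ((r i : ℝ) * T / N)
      push_cast
      linarith
  have hcard : t.card = 4 ^ D := by
    rw [Fintype.card_piFinset]
    simp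
  have ht : t.Nonempty := Finset.card_pos.1 (by rw [hcard]; positivity)
  obtain ⟨c, hc, hb⟩ := Finset.exists_le_card_fiber_of_nsmul_le_card_of_maps_to (M := ℝ)
    (b := (N : ℝ) / 4 ^ D) hmaps ht (by
      rw [hcard, Finset.card_range, nsmul_eq_mul]
      push_cast
      rw [mul_div_cancel₀]
      positivity)
  set S := (range N).filter (fun T => f T = c) with hS
  have hpos : (0 : ℝ) < (S.card : ℝ) := lt_of_lt_of_le (by positivity) hb
  obtain ⟨T0, hT0⟩ := Finset.card_pos.1 (by exact_mod_cast hpos : 0 < S.card)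
  obtain ⟨hT0a, hT0b⟩ := Finset.mem_filter.1 hT0
  have himg : ((S.image (fun T => Box_z N D r T - Box_z N D r T0) : Finset (Fin (D + 1) → ℤ)) :
      Set (Fin (D + 1) → ℤ)) ⊆ {z | ‖Box_F N D r z‖ ≤ 1} := by
    intro z hz
    obtain ⟨T, hT, rfl⟩ := Finset.mem_image.1 (Finset.mem_coe.1 hz)
    obtain ⟨hTa, hTb⟩ := Finset.mem_filter.1 hT
    exact Box_cell N D r hN T T0 (Finset.mem_range.1 hTa) (Finset.mem_range.1 hT0a)
      (fun i => congrFun (hTb.trans hT0b.symm) i)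
  have hinj : (S.image (fun T => Box_z N D r T - Box_z N D r T0)).card = S.card := by
    refine Finset.card_image_of_injective _ ?_
    intro T T' h
    have h1 := congrFun (sub_left_injective h) 0
    rw [Box_z0, Box_z0] at h1
    exact_mod_cast h1
  have h2 := Set.ncard_le_ncard himg (Box_fin N D r hN 1)
  rw [Set.ncard_coe_finset, hinj] at h2
  have h3 : (S.card : ℝ) ≤ ({z | ‖Box_F N D r z‖ ≤ 1}.ncard : ℝ) := by exact_mod_cast h2
  have h4 := hb.trans h3
  rw [div_le_iff₀ (by positivity)] at h4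
  linarith

theorem rBox : S_Box := by
  intro N D r hN
  refine ⟨fun z => ‖Box_F N D r z‖, ⟨?_, ?_, ?_⟩, ?_, Box_cnt N D r hN⟩
  · intro x y
    show ‖Box_F N D r (x + y)‖ ≤ _
    rw [Box_add]
    exact norm_add_le _ _
  · intro k x
    show ‖Box_F N D r (k • x)‖ = _
    rw [Box_smul, norm_smul, Real.norm_eq_abs]
  · intro R
    exact Box_fin N D r hN R
  · intro z hz
    refine ⟨?_, fun i => Box_b1 N D r z 1 hz i⟩
    have := Box_b0 N D r hN z 1 hz
    rwa [one_mul] at this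

end Pool.Agent.MAS
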