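import Pool.Agent.Lib.MP_95b053_co.MAS.Spec

/-!
# MAS/Clu: clusters
-/

set_option autoImplicit false

namespace Pool.Agent.MAS

open Finset
open scoped Pointwise

private lemma Clu_neg {d : ℕ} {p : (Fin d → ℤ) → ℝ} (hp : Nrm d p) (x : Fin d → ℤ) :
    p (-x) = p x := by
  have h := hp.2.1 (-1) x
  have e : (-1 : ℤ) • x = -x := by simp
  rw [e] at h
  rw [h]
  simp

private lemma Clu_sub {d : ℕ} {p : (Fin d → ℤ) → ℝ} (hp : Nrm d p) (x y : Fin d → ℤ) :
    p (x - y) ≤ p x + p y := by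
  have h := hp.1 x (-y)
  rw [Clu_neg hp] at h
  rwa [← sub_eq_add_neg] at h

/-- **Clu** (clusters). -/
theorem rClu : S_Clu := by
  intro G _ A d p φ X hp hcov
  classical
  let Q : ℕ → Prop := fun n => ∃ (Y : Finset G) (R : ℝ), Y ⊆ X ∧ Y.card = n ∧ 1 ≤ R ∧
    R ≤ 5 ^ (X.card - n) ∧ (∀ a ∈ A, ∃ y ∈ Y, ∃ z, p z ≤ R ∧ a = y + φ z)
  have hex : ∃ n, Q n := ⟨X.card, X, 1, subset_rfl, rfl, le_rfl, by simp, hcov⟩
  have hmin : ∀ m, m < Nat.find hex → ¬ Q m := fun m hm => Nat.find_min hex hm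
  obtain ⟨Y, R, hYX, hYn, hR1, hR5, hY⟩ := Nat.find_spec hex
  refine ⟨Y, R, hYX, hR1, ?_, hY, ?_⟩
  · exact hR5.trans (pow_le_pow_right₀ (by norm_num) (Nat.sub_le _ _))
  · intro y hy y' hy' hne z hz hzy
    have hcard : (Y.erase y').card = Nat.find hex - 1 := by
      rw [Finset.card_erase_of_mem hy', hYn]
    have hpos : 0 < Nat.find hex := by
      rw [← hYn]
      exact Finset.card_pos.mpr ⟨y, hy⟩
    have hle : Nat.find hex ≤ X.card := by
      rw [← hYn]
      exact Finset.card_le_card hYX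
    refine hmin (Nat.find hex - 1) (by omega)
      ⟨Y.erase y', 5 * R, (Finset.erase_subset _ _).trans hYX, hcard, by linarith, ?_, ?_⟩
    · have e : X.card - (Nat.find hex - 1) = (X.card - Nat.find hex) + 1 := by omega
      rw [e, pow_succ]
      linarith
    · intro a ha
      obtain ⟨u, hu, w, hw, haw⟩ := hY a ha
      by_cases huy : u = y'
      · refine ⟨y, Finset.mem_erase.mpr ⟨hne, hy⟩, w - z, ?_, ?_⟩
        · have := Clu_sub hp w z
          linarith
        · rw [haw, huy, hzy, map_sub]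
          abel
      · exact ⟨u, Finset.mem_erase.mpr ⟨huy, hu⟩, w, by linarith, haw⟩

end Pool.Agent.MAS
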