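import Pool.Agent.Lib.MP_95b053_co.MAS.Spec

set_option autoImplicit false

namespace Pool.Agent.MAS

open Finset
open scoped Pointwise

/-- the fibre of `F` over `u` in direction `i`, as a set of integers -/
private def Cmp_fs {d : ℕ} (i : Fin d) (F : Finset (Fin d → ℤ)) (u : Fin d → ℤ) : Finset ℤ :=
  (F.filter (fun x => Function.update x i 0 = Function.update u i 0)).image (fun x => x i)

private lemma Cmp_upd {d : ℕ} {i : Fin d} {x u : Fin d → ℤ}
    (h : Function.update x i 0 = Function.update u i 0) : Function.update u i (x i) = x := by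
  funext k
  by_cases hk : k = i
  · subst hk
    simp
  · have := congrFun h k
    simp only [Function.update_of_ne hk] at this
    rw [Function.update_of_ne hk, this]

private lemma Cmp_mem_fs {d : ℕ} (i : Fin d) (F : Finset (Fin d → ℤ)) (u : Fin d → ℤ) (t : ℤ) :
    t ∈ Cmp_fs i F u ↔ Function.update u i t ∈ F := by
  unfold Cmp_fs
  rw [mem_image]
  constructor
  · rintro ⟨x, hx, rfl⟩
    rw [mem_filter] at hx
    rw [Cmp_upd hx.2]
    exact hx.1
  · intro h
    refine ⟨Function.update u i t, ?_, by simp⟩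
    rw [mem_filter]
    exact ⟨h, by simp⟩

private lemma Cmp_card_fs {d : ℕ} (i : Fin d) (F : Finset (Fin d → ℤ)) (u : Fin d → ℤ) :
    (Cmp_fs i F u).card =
      (F.filter (fun x => Function.update x i 0 = Function.update u i 0)).card := by
  unfold Cmp_fs
  apply card_image_of_injOn
  intro x hx y hy hxy
  rw [mem_coe, mem_filter] at hx hy
  simp only at hxy
  rw [← Cmp_upd hx.2, ← Cmp_upd hy.2, hxy]

private lemma Cmp_fs_congr {d : ℕ} (i : Fin d) (F : Finset (Fin d → ℤ)) (u v : Fin d → ℤ)
    (h : Function.update u i 0 = Function.update v i 0) : Cmp_fs i F u = Cmp_fs i F v := by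
  unfold Cmp_fs
  rw [h]

private lemma Cmp_fs_upd {d : ℕ} (i : Fin d) (F : Finset (Fin d → ℤ)) (u : Fin d → ℤ) (t : ℤ) :
    Cmp_fs i F (Function.update u i t) = Cmp_fs i F u :=
  Cmp_fs_congr i F _ _ (by simp)

/-- comparison of cardinalities through the fibres -/
private lemma Cmp_card_le {d : ℕ} (i : Fin d) (A B : Finset (Fin d → ℤ))
    (h : ∀ u, (Cmp_fs i A u).card ≤ (Cmp_fs i B u).card) : A.card ≤ B.card := by
  rw [card_eq_sum_card_image (fun x => Function.update x i 0) A,
    card_eq_sum_card_image (fun x => Function.update x i 0) B]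
  have key : ∀ (F : Finset (Fin d → ℤ)), ∀ u ∈ F.image (fun x => Function.update x i 0),
      (F.filter (fun x => Function.update x i 0 = u)).card = (Cmp_fs i F u).card := by
    intro F u hu
    rw [mem_image] at hu
    obtain ⟨x, -, rfl⟩ := hu
    rw [Cmp_card_fs]
    simp
  have hsub : A.image (fun x => Function.update x i 0) ⊆ B.image (fun x => Function.update x i 0) := by
    intro u hu
    rw [mem_image] at hu
    obtain ⟨x, hx, rfl⟩ := hu
    have h1 : x i ∈ Cmp_fs i A x := by
      rw [Cmp_mem_fs]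
      simpa using hx
    have h2 : 0 < (Cmp_fs i B x).card := lt_of_lt_of_le (card_pos.mpr ⟨_, h1⟩) (h x)
    obtain ⟨t, ht⟩ := card_pos.mp h2
    rw [Cmp_mem_fs] at ht
    rw [mem_image]
    exact ⟨_, ht, by simp⟩
  calc ∑ u ∈ A.image (fun x => Function.update x i 0),
        (A.filter (fun x => Function.update x i 0 = u)).card
      ≤ ∑ u ∈ A.image (fun x => Function.update x i 0), (Cmp_fs i B u).card := by
        apply sum_le_sum
        intro u hu
        rw [key A u hu]
        exact h u
    _ ≤ ∑ u ∈ B.image (fun x => Function.update x i 0), (Cmp_fs i B u).card :=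
        sum_le_sum_of_subset hsub
    _ = _ := by
        apply sum_congr rfl
        intro u hu
        rw [key B u hu]

private def Cmp_c {d : ℕ} (i : Fin d) (F : Finset (Fin d → ℤ)) : Finset (Fin d → ℤ) :=
  F.biUnion (fun u => (range (Cmp_fs i F u).card).image (fun t : ℕ => Function.update u i (t : ℤ)))

private lemma Cmp_mem_c {d : ℕ} (i : Fin d) (F : Finset (Fin d → ℤ)) (y : Fin d → ℤ) :
    y ∈ Cmp_c i F ↔ 0 ≤ y i ∧ y i < ((Cmp_fs i F y).card : ℤ) := by
  unfold Cmp_c
  rw [mem_biUnion]
  constructor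
  · rintro ⟨u, hu, hy⟩
    rw [mem_image] at hy
    obtain ⟨t, ht, rfl⟩ := hy
    rw [mem_range] at ht
    rw [Cmp_fs_upd]
    simp only [Function.update_self]
    constructor
    · positivity
    · exact_mod_cast ht
  · rintro ⟨h0, h1⟩
    have h2 : 0 < (Cmp_fs i F y).card := by
      have : (0 : ℤ) < ((Cmp_fs i F y).card : ℤ) := lt_of_le_of_lt h0 h1
      exact_mod_cast this
    obtain ⟨t, ht⟩ := card_pos.mp h2
    rw [Cmp_mem_fs] at ht
    refine ⟨_, ht, ?_⟩
    rw [mem_image]
    refine ⟨(y i).toNat, ?_, ?_⟩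
    · rw [mem_range, Cmp_fs_upd]
      omega
    · rw [Int.toNat_of_nonneg h0]
      simp

private lemma Cmp_fs_c {d : ℕ} (i : Fin d) (F : Finset (Fin d → ℤ)) (u : Fin d → ℤ) :
    Cmp_fs i (Cmp_c i F) u = (range (Cmp_fs i F u).card).image (fun t : ℕ => (t : ℤ)) := by
  ext t
  rw [Cmp_mem_fs, Cmp_mem_c, Cmp_fs_upd]
  simp only [Function.update_self, mem_image, mem_range]
  constructor
  · rintro ⟨h0, h1⟩
    refine ⟨t.toNat, ?_, Int.toNat_of_nonneg h0⟩
    omega
  · rintro ⟨s, hs, rfl⟩
    constructor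
    · positivity
    · exact_mod_cast hs

private lemma Cmp_card_fs_c {d : ℕ} (i : Fin d) (F : Finset (Fin d → ℤ)) (u : Fin d → ℤ) :
    (Cmp_fs i (Cmp_c i F) u).card = (Cmp_fs i F u).card := by
  rw [Cmp_fs_c, card_image_of_injective _ (fun a b h => by simpa using h), card_range]

private lemma Cmp_card_c {d : ℕ} (i : Fin d) (F : Finset (Fin d → ℤ)) :
    (Cmp_c i F).card = F.card := by
  apply le_antisymm
  · exact Cmp_card_le i _ _ (fun u => (Cmp_card_fs_c i F u).le)
  · exact Cmp_card_le i _ _ (fun u => (Cmp_card_fs_c i F u).ge)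

private lemma Cmp_fs_add {d : ℕ} (i : Fin d) (F : Finset (Fin d → ℤ)) (x y : Fin d → ℤ) :
    Cmp_fs i F x + Cmp_fs i F y ⊆ Cmp_fs i (F + F) (x + y) := by
  intro t ht
  rw [mem_add] at ht
  obtain ⟨a, ha, b, hb, rfl⟩ := ht
  rw [Cmp_mem_fs] at ha hb ⊢
  rw [mem_add]
  refine ⟨_, ha, _, hb, ?_⟩
  funext k
  by_cases hk : k = i
  · subst hk
    simp
  · simp [Function.update_of_ne hk]

private lemma Cmp_add {d : ℕ} (i : Fin d) (F : Finset (Fin d → ℤ)) :
    (Cmp_c i F + Cmp_c i F).card ≤ (F + F).card := by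
  apply Cmp_card_le i
  intro w
  have hsub : Cmp_fs i (Cmp_c i F + Cmp_c i F) w ⊆
      (range (Cmp_fs i (F + F) w).card).image (fun t : ℕ => (t : ℤ)) := by
    intro t ht
    rw [Cmp_mem_fs, mem_add] at ht
    obtain ⟨x, hx, y, hy, hxy⟩ := ht
    rw [Cmp_mem_c] at hx hy
    have hX : (Cmp_fs i F x).Nonempty := by
      apply card_pos.mp
      have : (0 : ℤ) < ((Cmp_fs i F x).card : ℤ) := lt_of_le_of_lt hx.1 hx.2
      exact_mod_cast this
    have hY : (Cmp_fs i F y).Nonempty := by
      apply card_pos.mp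
      have : (0 : ℤ) < ((Cmp_fs i F y).card : ℤ) := lt_of_le_of_lt hy.1 hy.2
      exact_mod_cast this
    have hcd := cauchy_davenport_add_of_linearOrder_isCancelAdd hX hY
    have hle := card_le_card (Cmp_fs_add i F x y)
    have hw : Cmp_fs i (F + F) (x + y) = Cmp_fs i (F + F) w := by
      rw [hxy, Cmp_fs_upd]
    rw [hw] at hle
    have ht' : t = x i + y i := by
      have := congrFun hxy i
      simpa using this.symm
    rw [mem_image]
    refine ⟨t.toNat, ?_, ?_⟩
    · rw [mem_range]
      have h1 := card_pos.mpr hX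
      have h2 := card_pos.mpr hY
      omega
    · apply Int.toNat_of_nonneg
      omega
  refine (card_le_card hsub).trans ?_
  rw [card_image_of_injective _ (fun a b h => by simpa using h), card_range]

theorem rCmp : S_Cmp := by
  intro d i F
  refine ⟨Cmp_c i F, Cmp_card_c i F, Cmp_add i F, ?_, ?_, ?_⟩
  · intro x hx
    rw [Cmp_mem_c] at hx
    refine ⟨hx.1, fun h1 => ?_⟩
    rw [Cmp_mem_c, Cmp_fs_upd]
    simp only [Function.update_self]
    omega
  · intro j hj hD x hx
    rw [Cmp_mem_c] at hx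
    have hX : (Cmp_fs i F x).Nonempty := by
      apply card_pos.mp
      have : (0 : ℤ) < ((Cmp_fs i F x).card : ℤ) := lt_of_le_of_lt hx.1 hx.2
      exact_mod_cast this
    obtain ⟨t, ht⟩ := hX
    rw [Cmp_mem_fs] at ht
    have h0 := (hD _ ht).1
    rw [Function.update_of_ne hj] at h0
    refine ⟨h0, fun h1 => ?_⟩
    rw [Cmp_mem_c]
    have hij : i ≠ j := fun h => hj h.symm
    rw [Function.update_of_ne hij]
    refine ⟨hx.1, lt_of_lt_of_le hx.2 ?_⟩
    have : Cmp_fs i F x ⊆ Cmp_fs i F (Function.update x j (x j - 1)) := by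
      intro s hs
      rw [Cmp_mem_fs] at hs ⊢
      have := (hD _ hs).2
      rw [Function.update_of_ne hj] at this
      rw [Function.update_comm hij] at this
      exact this h1
    exact_mod_cast card_le_card this
  · intro j
    by_cases hj : j = i
    · subst hj
      apply card_le_card
      intro u hu
      rw [mem_image] at hu ⊢
      obtain ⟨x, hx, rfl⟩ := hu
      rw [Cmp_mem_c] at hx
      have hX : (Cmp_fs j F x).Nonempty := by
        apply card_pos.mp
        have : (0 : ℤ) < ((Cmp_fs j F x).card : ℤ) := lt_of_le_of_lt hx.1 hx.2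
        exact_mod_cast this
      obtain ⟨t, ht⟩ := hX
      rw [Cmp_mem_fs] at ht
      exact ⟨_, ht, by simp⟩
    · rw [← Cmp_card_c i (F.image (fun x => Function.update x j 0))]
      apply card_le_card
      intro u hu
      rw [mem_image] at hu
      obtain ⟨x, hx, rfl⟩ := hu
      rw [Cmp_mem_c] at hx ⊢
      have hij : i ≠ j := fun h => hj h.symm
      rw [Function.update_of_ne hij]
      refine ⟨hx.1, lt_of_lt_of_le hx.2 ?_⟩
      have : Cmp_fs i F x ⊆
          Cmp_fs i (F.image (fun x => Function.update x j 0)) (Function.update x j 0) := by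
        intro s hs
        rw [Cmp_mem_fs] at hs ⊢
        rw [mem_image]
        refine ⟨_, hs, ?_⟩
        rw [Function.update_comm hij]
      exact_mod_cast card_le_card this

end Pool.Agent.MAS
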