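import Pool.Agent.Lib.MP_95b053_co.MAS.Spec

/-!
# MP_95b053_co, project MAS: compressions in all directions (`S_Comp`)
-/

set_option autoImplicit false

namespace Pool.Agent.MAS

open Finset
open scoped Pointwise

/-- All compressions in the directions of `s`. -/
private theorem Comp_all (h1 : S_Cmp) (d : ℕ) (F : Finset (Fin d → ℤ)) (s : Finset (Fin d)) :
    ∃ F' : Finset (Fin d → ℤ), F'.card = F.card ∧ (F' + F').card ≤ (F + F).card ∧
      (∀ i ∈ s, Dwn d i F') ∧ ∀ j, (F'.image (fun x => Function.update x j 0)).card ≤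
        (F.image (fun x => Function.update x j 0)).card := by
  classical
  induction s using Finset.induction_on with
  | empty => exact ⟨F, rfl, le_rfl, fun i hi => absurd hi (by simp), fun j => le_rfl⟩
  | insert i s his ih =>
    obtain ⟨F', a1, a2, a3, a4⟩ := ih
    obtain ⟨F'', b1, b2, b3, b4, b5⟩ := h1 d i F'
    refine ⟨F'', b1.trans a1, b2.trans a2, ?_, fun j => (b5 j).trans (a4 j)⟩
    intro j hj
    by_cases hji : j = i
    · rw [hji]; exact b3
    · exact b4 j hji (a3 j ((Finset.mem_insert.1 hj).resolve_left hji))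

/-- Remove the coordinates of `I` one after another. -/
private theorem Comp_sub (d : ℕ) (F : Finset (Fin d → ℤ)) (hF : ∀ i, Dwn d i F) (x : Fin d → ℤ)
    (hx : x ∈ F) (hx1 : ∀ j, 1 ≤ x j) (I : Finset (Fin d)) :
    (fun j => x j - if j ∈ I then 1 else 0) ∈ F := by
  classical
  induction I using Finset.induction_on with
  | empty => simpa using hx
  | insert i I hi ih =>
    have h2 := ((hF i) _ ih).2 (by simp [hi, hx1 i])
    have h3 : Function.update (fun j => x j - if j ∈ I then 1 else 0) i
        ((fun j => x j - if j ∈ I then (1 : ℤ) else 0) i - 1) =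
        fun j => x j - if j ∈ insert i I then 1 else 0 := by
      funext j
      by_cases hji : j = i
      · subst hji
        simp [hi]
      · simp [hji]
    rw [h3] at h2
    exact h2

private theorem Comp_inj (d : ℕ) (F : Finset (Fin d → ℤ)) (hF : ∀ i, Dwn d i F) :
    2 ^ d * (F.filter (fun x => ∀ j, 1 ≤ x j)).card ≤ (F + F).card := by
  classical
  have h : ((F.filter (fun x => ∀ j, 1 ≤ x j)) ×ˢ (univ : Finset (Finset (Fin d)))).card ≤
      (F + F).card := by
    refine Finset.card_le_card_of_injOn
      (fun z => z.1 + (fun j => z.1 j - if j ∈ z.2 then (1 : ℤ) else 0)) ?_ ?_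
    · intro z hz
      have h1 := (Finset.mem_filter.1 (Finset.mem_product.1 hz).1)
      exact Finset.add_mem_add h1.1 (Comp_sub d F hF z.1 h1.1 h1.2 z.2)
    · intro z hz z' hz' he
      have h2 : ∀ j, z.1 j + (z.1 j - if j ∈ z.2 then (1 : ℤ) else 0) =
          z'.1 j + (z'.1 j - if j ∈ z'.2 then (1 : ℤ) else 0) := fun j => congrFun he j
      have h3 : z.2 = z'.2 := by
        ext j
        have := h2 j
        by_cases a : j ∈ z.2 <;> by_cases b : j ∈ z'.2 <;> simp only [a, b, if_true, if_false] at this ⊢
        · omega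
        · omega
      have h4 : z.1 = z'.1 := by
        funext j
        have := h2 j
        rw [h3] at this
        split at this <;> omega
      exact Prod.ext h4 h3
  rw [Finset.card_product, Finset.card_univ, Fintype.card_finset, Fintype.card_fin] at h
  rw [mul_comm]
  exact h

theorem rComp (h1 : S_Cmp) : S_Comp := by
  classical
  intro d F hF
  obtain ⟨F', a1, a2, a3, a4⟩ := Comp_all h1 d F univ
  have a3' : ∀ i, Dwn d i F' := fun i => a3 i (Finset.mem_univ i)
  have key := Comp_inj d F' a3'
  set F1 := F'.filter (fun x => ∀ j, 1 ≤ x j) with hF1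
  have hz : ∀ j, (F'.filter (fun x => x j = 0)).card ≤ (F.image (fun x => Function.update x j 0)).card := by
    intro j
    refine le_trans (Finset.card_le_card ?_) (a4 j)
    intro x hx
    obtain ⟨hx1, hx2⟩ := Finset.mem_filter.1 hx
    refine Finset.mem_image.2 ⟨x, hx1, ?_⟩
    rw [← hx2, Function.update_eq_self]
  have hcov : F'.card ≤ F1.card + ∑ j, (F'.filter (fun x => x j = 0)).card := by
    have hsub : F' ⊆ F1 ∪ (univ : Finset (Fin d)).biUnion (fun j => F'.filter (fun x => x j = 0)) := by
      intro x hx
      by_cases hx1 : ∀ j, 1 ≤ x j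
      · exact Finset.mem_union_left _ (Finset.mem_filter.2 ⟨hx, hx1⟩)
      · obtain ⟨j, hj⟩ := not_forall.1 hx1
        refine Finset.mem_union_right _ (Finset.mem_biUnion.2 ⟨j, Finset.mem_univ j, ?_⟩)
        have h0 := (a3' j x hx).1
        exact Finset.mem_filter.2 ⟨hx, by omega⟩
    exact (Finset.card_le_card hsub).trans ((Finset.card_union_le _ _).trans
      (Nat.add_le_add_left Finset.card_biUnion_le _))
  have hhalf : F.card ≤ 2 * F1.card := by
    rcases Nat.eq_zero_or_pos d with rfl | hd
    · have : F1 = F' := by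
        rw [hF1]
        exact Finset.filter_true_of_mem (fun x _ j => j.elim0)
      rw [this, a1]
      omega
    · have h5 : ∑ j : Fin d, 2 * d * (F'.filter (fun x => x j = 0)).card ≤ ∑ _j : Fin d, F.card :=
        Finset.sum_le_sum (fun j _ => (Nat.mul_le_mul_left _ (hz j)).trans (hF j))
      rw [← Finset.mul_sum, Finset.sum_const, Finset.card_univ, Fintype.card_fin, smul_eq_mul] at h5
      set m := ∑ j : Fin d, (F'.filter (fun x => x j = 0)).card
      have h6 : d * (2 * m) ≤ d * F.card := by
        calc d * (2 * m) = 2 * d * m := by ring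
          _ ≤ d * F.card := h5
      have h7 : 2 * m ≤ F.card := Nat.le_of_mul_le_mul_left h6 hd
      omega
  calc 2 ^ d * F.card ≤ 2 ^ d * (2 * F1.card) := Nat.mul_le_mul_left _ hhalf
    _ = 2 * (2 ^ d * F1.card) := by ring
    _ ≤ 2 * (F + F).card := Nat.mul_le_mul_left _ (key.trans a2)

end Pool.Agent.MAS
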