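import Pool.Agent.Lib.MP_95b053_co.MAS.Spec

/-!
# MP_95b053_co, project MAS: growth of a dense set in one coset
-/

set_option autoImplicit false

namespace Pool.Agent.MAS

open Finset
open scoped Pointwise

/-- the point with the coordinates `f` -/
private def Cos_phi {d : ℕ} (b : Fin d → (Fin d → ℤ)) (x0 f : Fin d → ℤ) : Fin d → ℤ :=
  x0 + ∑ i, f i • b i

private theorem Cos_inj {d : ℕ} {b : Fin d → (Fin d → ℤ)} (hb : LinearIndependent ℤ b)
    (x0 : Fin d → ℤ) : Function.Injective (Cos_phi b x0) := by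
  intro f g h
  have h1 : ∑ i, f i • b i = ∑ i, g i • b i := add_left_cancel h
  have h2 : ∑ i, (f i - g i) • b i = 0 := by
    simp only [sub_smul, sum_sub_distrib]
    rw [h1, sub_self]
  have h3 := Fintype.linearIndependent_iff.1 hb (fun i => f i - g i) h2
  funext i
  have := h3 i
  omega

private theorem Cos_add {d : ℕ} (b : Fin d → (Fin d → ℤ)) (x0 f g : Fin d → ℤ) :
    Cos_phi b x0 f + Cos_phi b x0 g = Cos_phi b (x0 + x0) (f + g) := by
  unfold Cos_phi
  simp only [Pi.add_apply, add_smul, sum_add_distrib]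
  abel

private theorem Cos_sub {d : ℕ} (b : Fin d → (Fin d → ℤ)) (x0 f : Fin d → ℤ) :
    Cos_phi b x0 f - x0 ∈ Submodule.span ℤ (Set.range b) := by
  unfold Cos_phi
  rw [add_sub_cancel_left]
  exact (Submodule.mem_span_range_iff_exists_fun ℤ).2 ⟨f, rfl⟩

private theorem Cos_single {d : ℕ} (b : Fin d → (Fin d → ℤ)) (x0 f : Fin d → ℤ) (i : Fin d)
    (j : ℤ) : Cos_phi b x0 (f + Pi.single i j) = Cos_phi b x0 f + j • b i := by
  unfold Cos_phi
  have h1 : ∑ k, (Pi.single i j : Fin d → ℤ) k • b k = j • b i := by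
    rw [sum_eq_single i]
    · rw [Pi.single_eq_same]
    · intro k _ hk
      rw [Pi.single_eq_of_ne hk, zero_smul]
    · intro h
      exact absurd (mem_univ i) h
  simp only [Pi.add_apply, add_smul, sum_add_distrib]
  rw [h1, add_assoc]

private theorem Cos_upd {d : ℕ} (f : Fin d → ℤ) (i : Fin d) (j : ℤ) :
    Function.update (f + Pi.single i j) i 0 = Function.update f i 0 := by
  funext k
  by_cases hk : k = i
  · subst hk
    rw [Function.update_self, Function.update_self]
  · rw [Function.update_of_ne hk, Function.update_of_ne hk, Pi.add_apply,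
      Pi.single_eq_of_ne hk, add_zero]

/-- the count of one direction -/
private theorem Cos_count {d : ℕ} (p : (Fin d → ℤ) → ℝ) (b : Fin d → (Fin d → ℤ))
    (x0 : Fin d → ℤ) (R ε : ℝ) (hp : Nrm d p) (hb : LinearIndependent ℤ b) (hε : 0 < ε)
    (hR : 0 < R) (hpb : ∀ i, p (b i) ≤ ε) (F : Finset (Fin d → ℤ))
    (hF : ∀ f ∈ F, p (Cos_phi b x0 f) ≤ R) (i : Fin d) :
    ((F.image (fun x => Function.update x i 0)).card : ℝ) * (R / ε) ≤
      ({x | p x ≤ 2 * R ∧ x - x0 ∈ Submodule.span ℤ (Set.range b)}.ncard : ℝ) := by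
  classical
  obtain ⟨J, hJ⟩ : ∃ J : ℕ, J = ⌊R / ε⌋₊ := ⟨_, rfl⟩
  have hJ1 : R / ε ≤ J + 1 := by
    rw [hJ]
    exact (Nat.lt_floor_add_one _).le
  have hJ2 : (J : ℝ) * ε ≤ R := by
    have : (J : ℝ) ≤ R / ε := by
      rw [hJ]
      exact Nat.floor_le (by positivity)
    rwa [le_div_iff₀ hε] at this
  have hch : ∀ u ∈ F.image (fun x => Function.update x i 0), ∃ f ∈ F,
      Function.update f i 0 = u := fun u hu => mem_image.mp hu
  choose! c hc1 hc2 using hch
  have hfin : {x | p x ≤ 2 * R ∧ x - x0 ∈ Submodule.span ℤ (Set.range b)}.Finite :=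
    (hp.2.2 (2 * R)).subset fun x hx => hx.1
  have hinj : Set.InjOn (fun w : (Fin d → ℤ) × ℕ =>
      Cos_phi b x0 (c w.1 + Pi.single i (w.2 : ℤ)))
      (((F.image (fun x => Function.update x i 0)) ×ˢ range (J + 1) :
        Finset ((Fin d → ℤ) × ℕ)) : Set ((Fin d → ℤ) × ℕ)) := by
    rintro ⟨u, j⟩ hu ⟨u', j'⟩ hu' h
    have hu1 := (mem_product.mp (mem_coe.mp hu)).1
    have hu1' := (mem_product.mp (mem_coe.mp hu')).1
    have h1 : c u + Pi.single i (j : ℤ) = c u' + Pi.single i (j' : ℤ) := Cos_inj hb x0 h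
    have h2 : u = u' := by
      rw [← hc2 u hu1, ← hc2 u' hu1', ← Cos_upd (c u) i (j : ℤ), h1, Cos_upd]
    subst h2
    have h3 := add_left_cancel h1
    have h4 := congrFun h3 i
    rw [Pi.single_eq_same, Pi.single_eq_same] at h4
    have h5 : j = j' := by exact_mod_cast h4
    rw [h5]
  have hsub : ((((F.image (fun x => Function.update x i 0)) ×ˢ range (J + 1)).image
      (fun w : (Fin d → ℤ) × ℕ => Cos_phi b x0 (c w.1 + Pi.single i (w.2 : ℤ))) :
        Finset (Fin d → ℤ)) : Set (Fin d → ℤ)) ⊆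
      {x | p x ≤ 2 * R ∧ x - x0 ∈ Submodule.span ℤ (Set.range b)} := by
    intro x hx
    obtain ⟨⟨u, j⟩, hw, rfl⟩ := mem_image.mp (mem_coe.mp hx)
    obtain ⟨hu, hj⟩ := mem_product.mp hw
    refine ⟨?_, Cos_sub _ _ _⟩
    show p (Cos_phi b x0 (c u + Pi.single i (j : ℤ))) ≤ 2 * R
    rw [Cos_single]
    have e1 := hp.1 (Cos_phi b x0 (c u)) ((j : ℤ) • b i)
    have e2 := hF (c u) (hc1 u hu)
    have e3 : p ((j : ℤ) • b i) ≤ J * ε := by
      rw [hp.2.1, Int.cast_natCast, Nat.abs_cast]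
      have hjJ : (j : ℝ) ≤ J := by
        have : j ≤ J := by
          have := mem_range.mp hj
          omega
        exact_mod_cast this
      exact (mul_le_mul_of_nonneg_left (hpb i) (Nat.cast_nonneg _)).trans
        (mul_le_mul_of_nonneg_right hjJ hε.le)
    linarith
  have hle := Set.ncard_le_ncard hsub hfin
  rw [Set.ncard_coe_finset, card_image_of_injOn hinj, card_product, card_range] at hle
  have hle' : ((F.image (fun x => Function.update x i 0)).card : ℝ) * ((J : ℝ) + 1) ≤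
      ({x | p x ≤ 2 * R ∧ x - x0 ∈ Submodule.span ℤ (Set.range b)}.ncard : ℝ) := by
    exact_mod_cast hle
  exact (mul_le_mul_of_nonneg_left hJ1 (Nat.cast_nonneg _)).trans hle'

private theorem Cos_num (d a e : ℕ) (R ε D n : ℝ) (hε : 0 < ε) (hD : 0 < D)
    (h1 : (a : ℝ) * (R / ε) ≤ n) (h2 : n ≤ D * e) (h3 : 2 * d * D * ε ≤ R) :
    2 * d * a ≤ e := by
  have h4 : 2 * d * D ≤ R / ε := by
    rw [le_div_iff₀ hε]
    exact h3
  have h5 : (a : ℝ) * (2 * d * D) ≤ D * e :=
    (mul_le_mul_of_nonneg_left h4 (Nat.cast_nonneg _)).trans (h1.trans h2)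
  have h6 : D * (2 * d * a) ≤ D * e := by
    calc D * (2 * d * a) = (a : ℝ) * (2 * d * D) := by ring
      _ ≤ D * e := h5
  have h7 := le_of_mul_le_mul_left h6 hD
  exact_mod_cast h7

theorem rCos (h1 : S_Comp) : S_Cos := by
  classical
  intro d p b E0 x0 R ε D hp hb hε hR hpb hE hN hD
  obtain ⟨F, hF⟩ : ∃ F, F = E0.preimage (Cos_phi b x0) (Cos_inj hb x0).injOn := ⟨_, rfl⟩
  have hFmem : ∀ f, f ∈ F ↔ Cos_phi b x0 f ∈ E0 := by
    intro f
    rw [hF, mem_preimage]
  have hFE : F.image (Cos_phi b x0) = E0 := by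
    ext x
    rw [mem_image]
    constructor
    · rintro ⟨f, hf, rfl⟩
      exact (hFmem f).1 hf
    · intro hx
      obtain ⟨f, hf⟩ := (Submodule.mem_span_range_iff_exists_fun ℤ).1 (hE x hx).2
      have hfx : Cos_phi b x0 f = x := by
        unfold Cos_phi
        rw [hf]
        abel
      exact ⟨f, (hFmem f).2 (by rw [hfx]; exact hx), hfx⟩
  have hcard : F.card = E0.card := by
    rw [← hFE, card_image_of_injective _ (Cos_inj hb x0)]
  have hsum : (F + F).card ≤ (E0 + E0).card := by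
    rw [← card_image_of_injective (F + F) (Cos_inj hb (x0 + x0))]
    refine card_le_card fun x hx => ?_
    obtain ⟨h, hh, rfl⟩ := mem_image.mp hx
    obtain ⟨f, hf, g, hg, rfl⟩ := mem_add.mp hh
    rw [← Cos_add]
    exact add_mem_add ((hFmem f).1 hf) ((hFmem g).1 hg)
  have hdir : ∀ i : Fin d, 2 * d * (F.image (fun x => Function.update x i 0)).card ≤
      F.card := by
    intro i
    rcases E0.eq_empty_or_nonempty with hE0 | ⟨y, hy⟩
    · have : F = ∅ := by
        rw [← card_eq_zero, hcard, hE0, card_empty]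
      rw [this, image_empty, card_empty, mul_zero]
    · have hfin : {x | p x ≤ 2 * R ∧ x - x0 ∈ Submodule.span ℤ (Set.range b)}.Finite :=
        (hp.2.2 (2 * R)).subset fun x hx => hx.1
      have hymem : y ∈ {x | p x ≤ 2 * R ∧ x - x0 ∈ Submodule.span ℤ (Set.range b)} :=
        ⟨by linarith [(hE y hy).1], (hE y hy).2⟩
      have hpos : 0 < {x | p x ≤ 2 * R ∧ x - x0 ∈ Submodule.span ℤ (Set.range b)}.ncard :=
        (Set.ncard_pos hfin).2 ⟨y, hymem⟩
      have hpos' : (0 : ℝ) <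
          ({x | p x ≤ 2 * R ∧ x - x0 ∈ Submodule.span ℤ (Set.range b)}.ncard : ℝ) := by
        exact_mod_cast hpos
      have hD0 : 0 < D := by
        have e0 : (0 : ℝ) ≤ E0.card := Nat.cast_nonneg _
        by_contra hneg
        have : D * E0.card ≤ 0 := mul_nonpos_of_nonpos_of_nonneg (not_lt.mp hneg) e0
        linarith
      have key := Cos_count p b x0 R ε hp hb hε hR hpb F
        (fun f hf => (hE _ ((hFmem f).1 hf)).1) i
      rw [hcard]
      exact Cos_num d _ E0.card R ε D _ hε hD0 key hN hD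
  have hfinal := h1 d F hdir
  rw [hcard] at hfinal
  exact hfinal.trans (Nat.mul_le_mul_left 2 hsum)

end Pool.Agent.MAS
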