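import Pool.Agent.Lib.MP_95b053_co.MAS.Spec

/-!
# MP_95b053_co, project MAS, module Den: dense sets grow
-/

set_option autoImplicit false

namespace Pool.Agent.MAS

open Finset
open scoped Pointwise

private theorem Den_neg {d : ℕ} {p : (Fin d → ℤ) → ℝ} (hp : Nrm d p) (x : Fin d → ℤ) :
    p (-x) = p x := by
  have h := hp.2.1 (-1) x
  simpa using h

/-- pieces of `E` for a map `f` -/
private theorem Den_sum {α β : Type} [DecidableEq β] (E : Finset α) (f : α → β) :
    E.card = ∑ c ∈ E.image f, (E.filter (fun x => f x = c)).card :=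
  card_eq_sum_card_image f E

/-- the pieces are added to one of them -/
private theorem Den_add {A B : Type} [AddCommGroup A] [DecidableEq A] [AddCommGroup B]
    [DecidableEq B] (f : A →+ B) (E : Finset A) (c₀ : B) :
    ∑ c ∈ E.image f, ((E.filter (fun x => f x = c₀)) + (E.filter (fun x => f x = c))).card ≤
      (E + E).card := by
  rw [← card_biUnion]
  · apply card_le_card
    intro z hz
    obtain ⟨c, -, hz⟩ := mem_biUnion.1 hz
    obtain ⟨x, hx, y, hy, rfl⟩ := mem_add.1 hz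
    exact add_mem_add (mem_filter.1 hx).1 (mem_filter.1 hy).1
  · intro c _ c' _ hcc'
    rw [Function.onFun, disjoint_left]
    intro z hz hz'
    obtain ⟨x, hx, y, hy, rfl⟩ := mem_add.1 hz
    obtain ⟨x', hx', y', hy', he⟩ := mem_add.1 hz'
    apply hcc'
    have e := congrArg f he
    rw [map_add, map_add, (mem_filter.1 hx).2, (mem_filter.1 hy).2, (mem_filter.1 hx').2,
      (mem_filter.1 hy').2] at e
    exact (add_left_cancel e).symm

/-- the number of classes times the number of points in a coset -/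
private theorem Den_cnt (h1 : S_Gro) {d : ℕ} {p : (Fin d → ℤ) → ℝ} (hp : Nrm d p)
    (M : Submodule ℤ (Fin d → ℤ)) (E : Finset (Fin d → ℤ)) {R : ℝ} (hR : 0 < R)
    (hE : ∀ x ∈ E, p x ≤ R) (x0 : Fin d → ℤ) (hx0 : x0 ∈ E) [DecidableEq ((Fin d → ℤ) ⧸ M)] :
    ((E.image M.mkQ).card : ℝ) * ({x | p x ≤ 2 * R ∧ x - x0 ∈ M}.ncard : ℝ) ≤
      4 ^ (3 * d) * ({x | p x ≤ R}.ncard : ℝ) := by
  have hQfin : {x | p x ≤ 2 * R ∧ x - x0 ∈ M}.Finite :=
    (hp.2.2 (2 * R)).subset fun x hx => hx.1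
  have hBfin : {x | p x ≤ 2 ^ 3 * R}.Finite := hp.2.2 _
  have hG := h1 (Fin d → ℤ) d 3 p (AddMonoidHom.id _) R hp hR.le
  have himg : ∀ S : Set (Fin d → ℤ), (AddMonoidHom.id (Fin d → ℤ)) '' S = S := by
    intro S
    exact Set.image_id' S
  rw [himg, himg] at hG
  have e3 : d * 3 = 3 * d := by ring
  rw [e3] at hG
  refine le_trans ?_ hG
  have hch : ∀ c : (Fin d → ℤ) ⧸ M, ∃ y : Fin d → ℤ, c ∈ E.image M.mkQ → y ∈ E ∧ M.mkQ y = c := by
    intro c
    by_cases hc : c ∈ E.image M.mkQ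
    · obtain ⟨y, hy, hyc⟩ := mem_image.1 hc
      exact ⟨y, fun _ => ⟨hy, hyc⟩⟩
    · exact ⟨0, fun h => absurd h hc⟩
  choose y hy using hch
  rw [Set.ncard_eq_toFinset_card _ hQfin, Set.ncard_eq_toFinset_card _ hBfin]
  have hle : (E.image M.mkQ ×ˢ hQfin.toFinset).card ≤ hBfin.toFinset.card := by
    apply card_le_card_of_injOn (fun q => y q.1 + (q.2 - x0))
    · rintro ⟨c, x⟩ hq
      have hq' := mem_product.1 (mem_coe.1 hq)
      have hc := hy c hq'.1
      have hx : p x ≤ 2 * R ∧ x - x0 ∈ M := hQfin.mem_toFinset.1 hq'.2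
      apply mem_coe.2
      rw [hBfin.mem_toFinset]
      change p (y c + (x - x0)) ≤ 2 ^ 3 * R
      have t1 := hp.1 (y c) (x - x0)
      have t2 := hp.1 x (-x0)
      rw [← sub_eq_add_neg, Den_neg hp] at t2
      have t3 := hE _ hc.1
      have t4 := hE _ hx0
      have t5 := hx.1
      linarith
    · rintro ⟨c, x⟩ hq ⟨c', x'⟩ hq' he
      have h1 := mem_product.1 (mem_coe.1 hq)
      have h2 := mem_product.1 (mem_coe.1 hq')
      have hx : p x ≤ 2 * R ∧ x - x0 ∈ M := hQfin.mem_toFinset.1 h1.2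
      have hx' : p x' ≤ 2 * R ∧ x' - x0 ∈ M := hQfin.mem_toFinset.1 h2.2
      change y c + (x - x0) = y c' + (x' - x0) at he
      have z1 : M.mkQ (x - x0) = 0 := by
        rw [Submodule.mkQ_apply, Submodule.Quotient.mk_eq_zero]
        exact hx.2
      have z2 : M.mkQ (x' - x0) = 0 := by
        rw [Submodule.mkQ_apply, Submodule.Quotient.mk_eq_zero]
        exact hx'.2
      have e := congrArg M.mkQ he
      rw [map_add, map_add, z1, z2, add_zero, add_zero, (hy c h1.1).2, (hy c' h2.1).2] at e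
      subst e
      have e2 := sub_left_injective (add_left_cancel he)
      rw [e2]
  rw [card_product] at hle
  exact_mod_cast hle

theorem rDen (h1 : S_Gro) (h2 : S_Ruz) (h3 : S_Cos) : S_Den := by
  intro d p b E R ε D hp hb hε hR hD hbε hE hden hsmall
  rcases E.eq_empty_or_nonempty with rfl | hne
  · simp
  have hdec : DecidableEq ((Fin d → ℤ) ⧸ Submodule.span ℤ (Set.range b)) := Classical.decEq _
  obtain ⟨M, hM⟩ : ∃ M, M = Submodule.span ℤ (Set.range b) := ⟨_, rfl⟩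
  rw [← hM] at hdec
  have hCne : (E.image M.mkQ).Nonempty := hne.image _
  obtain ⟨c₀, hc₀, hmax⟩ := exists_max_image (E.image M.mkQ)
    (fun c => (E.filter (fun x => M.mkQ x = c)).card) hCne
  obtain ⟨x0, hx0, hx0c⟩ := mem_image.1 hc₀
  set E0 := E.filter (fun x => M.mkQ x = c₀) with hE0
  set q := (E.image M.mkQ).card with hq
  have hq0 : (0 : ℝ) < q := by exact_mod_cast hCne.card_pos
  -- the number of elements
  have hcardE : (E.card : ℝ) ≤ q * E0.card := by
    have h := Den_sum E M.mkQ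
    have h' : ∑ c ∈ E.image M.mkQ, (E.filter (fun x => M.mkQ x = c)).card ≤ q * E0.card := by
      refine (sum_le_card_nsmul _ _ _ fun c hc => hmax c hc).trans ?_
      rw [smul_eq_mul]
    rw [← h] at h'
    exact_mod_cast h'
  have hcnt := Den_cnt h1 hp M E hR hE x0 hx0
  set Q := {x | p x ≤ 2 * R ∧ x - x0 ∈ M} with hQ
  have hpow : (0 : ℝ) < 4 ^ (3 * d) := by positivity
  have hQle : (Q.ncard : ℝ) ≤ 4 ^ (3 * d) * D * E0.card := by
    have e1 : (q : ℝ) * Q.ncard ≤ q * (4 ^ (3 * d) * D * E0.card) := by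
      calc (q : ℝ) * Q.ncard ≤ 4 ^ (3 * d) * ({x | p x ≤ R}.ncard : ℝ) := hcnt
        _ ≤ 4 ^ (3 * d) * (D * E.card) := mul_le_mul_of_nonneg_left hden hpow.le
        _ ≤ 4 ^ (3 * d) * (D * (q * E0.card)) :=
            mul_le_mul_of_nonneg_left (mul_le_mul_of_nonneg_left hcardE hD) hpow.le
        _ = q * (4 ^ (3 * d) * D * E0.card) := by ring
    exact le_of_mul_le_mul_left e1 hq0
  have hcos := h3 d p b E0 x0 R ε (4 ^ (3 * d) * D) hp hb hε hR hbε (by
    intro x hx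
    have hx' := mem_filter.1 hx
    refine ⟨hE x hx'.1, ?_⟩
    rw [← hM, ← Submodule.Quotient.mk_eq_zero, Submodule.Quotient.mk_sub, sub_eq_zero]
    exact hx'.2.trans hx0c.symm) (by
    rw [← hM]
    exact hQle) hsmall
  -- Ruzsa
  set σ : ℝ := (2 : ℝ) ^ (((d : ℝ) - 1) / 2) with hσ
  have hσ0 : 0 ≤ σ := by positivity
  have hσ2 : σ ^ 2 * E0.card ≤ ((E0 + E0).card : ℝ) := by
    have e1 : σ ^ 2 = 2 ^ ((d : ℝ) - 1) := by
      rw [hσ, ← Real.rpow_natCast, ← Real.rpow_mul (by norm_num)]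
      congr 1
      push_cast
      ring
    have e2 : (2 : ℝ) ^ ((d : ℝ) - 1) = 2 ^ d / 2 := by
      rw [Real.rpow_sub (by norm_num), Real.rpow_natCast, Real.rpow_one]
    rw [e1, e2]
    have e3 : (2 : ℝ) ^ d * E0.card ≤ 2 * ((E0 + E0).card : ℝ) := by exact_mod_cast hcos
    linarith
  have hruz : ∀ c ∈ E.image M.mkQ, σ * (E.filter (fun x => M.mkQ x = c)).card ≤
      ((E0 + E.filter (fun x => M.mkQ x = c)).card : ℝ) := by
    intro c hc
    refine h2 (Fin d → ℤ) E0 (E.filter (fun x => M.mkQ x = c)) σ hσ0 ?_ (hmax c hc) hσ2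
    obtain ⟨x, hx, hxc⟩ := mem_image.1 hc
    exact ⟨x, mem_filter.2 ⟨hx, hxc⟩⟩
  have hadd := Den_add (M.mkQ : (Fin d → ℤ) →ₗ[ℤ] _).toAddMonoidHom E c₀
  have hadd' : ((∑ c ∈ E.image M.mkQ, (E0 + E.filter (fun x => M.mkQ x = c)).card : ℕ) : ℝ) ≤
      ((E + E).card : ℝ) := by exact_mod_cast hadd
  calc σ * E.card = σ * ((∑ c ∈ E.image M.mkQ, (E.filter (fun x => M.mkQ x = c)).card : ℕ) : ℝ) := by
        rw [← Den_sum]
    _ = ∑ c ∈ E.image M.mkQ, σ * ((E.filter (fun x => M.mkQ x = c)).card : ℝ) := by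
        push_cast
        rw [mul_sum]
    _ ≤ ∑ c ∈ E.image M.mkQ, ((E0 + E.filter (fun x => M.mkQ x = c)).card : ℝ) :=
        sum_le_sum hruz
    _ = ((∑ c ∈ E.image M.mkQ, (E0 + E.filter (fun x => M.mkQ x = c)).card : ℕ) : ℝ) := by
        push_cast
        rfl
    _ ≤ _ := hadd'

end Pool.Agent.MAS
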