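import Pool.Agent.Lib.MP_95b053_co.MAS.Spec

set_option autoImplicit false

namespace Pool.Agent.MAS

open Finset
open scoped Pointwise

private theorem Fin_tf : TF (ℝ × ℝ × ℝ) := fun _ _ h => smul_eq_zero.1 h

private theorem Fin_add (V : Finset (ℝ × ℝ × ℝ)) (K : ℝ) (hV : V.Nonempty)
    (h : ((V - V).card : ℝ) ≤ K * V.card) : ((V + V).card : ℝ) ≤ K ^ 2 * V.card := by
  have h1 := pluennecke_ruzsa_inequality_nsmul_sub hV V 2
  rw [two_nsmul] at h1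
  have h2 : ((V + V).card : ℝ) ≤ (((V - V).card : ℝ) / V.card) ^ 2 * V.card := by
    have h4 : (((V + V).card : ℚ≥0) : ℝ) ≤ (((((V - V).card : ℚ≥0) / V.card) ^ 2 * V.card : ℚ≥0) : ℝ) :=
      NNRat.cast_le.2 h1
    push_cast at h4
    exact h4
  refine h2.trans (mul_le_mul_of_nonneg_right ?_ (Nat.cast_nonneg _))
  have h3 : (0 : ℝ) < V.card := Nat.cast_pos.2 hV.card_pos
  refine pow_le_pow_left₀ (div_nonneg (Nat.cast_nonneg _) (Nat.cast_nonneg _)) ?_ 2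
  rwa [div_le_iff₀ h3]

theorem rFin (h1 : S_Fre) (h2 : S_Start) : S_Fin := by
  intro K hK
  obtain ⟨E, C, hC⟩ := h2 K
  have hK2 : 1 ≤ K ^ 2 := one_le_pow₀ hK
  choose C0 hC0 hF using fun d : ℕ => h1 d (K ^ 2) C hK2
  refine ⟨∑ d ∈ range (E + 1), C0 d, sum_pos (fun d _ => hC0 d) ⟨0, by simp⟩, ?_⟩
  intro V hV hVK
  obtain ⟨d, p, φ, X, hd, hdat⟩ := hC V hV hVK
  obtain ⟨a0, v, T, hT, hTl, hTc⟩ :=
    hF d (ℝ × ℝ × ℝ) V p φ X Fin_tf hV (Fin_add V K hV hVK) hdat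
  refine ⟨a0, v, T, hT, fun q hq => ?_, ?_⟩
  · obtain ⟨j, hj⟩ := hTl q hq
    exact ⟨(j : ℝ), by rw [hj, Int.cast_smul_eq_zsmul]⟩
  · have h5 : 1 + 4 * Real.logb 2 (K ^ 2) = 1 + 8 * Real.logb 2 K := by
      rw [Real.logb_pow]
      push_cast
      ring
    rw [h5] at hTc
    refine hTc.trans (mul_le_mul_of_nonneg_right ?_ (Nat.cast_nonneg _))
    exact single_le_sum (fun d _ => (hC0 d).le) (mem_range.2 (Nat.lt_succ_of_le hd))

end Pool.Agent.MAS
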