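import Pool.Agent.Lib.MP_95b053_co.MAS.Spec

/-!
# MP_95b053_co, project MAS, module Fl

Either a set of integer vectors contains `d` independent vectors or a nonzero functional vanishes on it.
-/

set_option autoImplicit false

namespace Pool.Agent.MAS

open Finset

/-- the coordinatewise cast of integer vectors to rational vectors -/
private def Fl_c (d : ℕ) : (Fin d → ℤ) →ₗ[ℤ] (Fin d → ℚ) where
  toFun z := fun i => (z i : ℚ)
  map_add' x y := by ext i; simp
  map_smul' k x := by ext i; simp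

private lemma Fl_c_apply (d : ℕ) (z : Fin d → ℤ) (i : Fin d) : Fl_c d z i = (z i : ℚ) := rfl

/-- the spanning case -/
private lemma Fl_span (d : ℕ) (S : Set (Fin d → ℤ))
    (h : Submodule.span ℚ (Fl_c d '' S) = ⊤) :
    ∃ b : Fin d → (Fin d → ℤ), LinearIndependent ℤ b ∧ ∀ i, b i ∈ S := by
  obtain ⟨B, hBs, hBspan, hBli⟩ := exists_linearIndependent ℚ (Fl_c d '' S)
  have htop : ⊤ ≤ Submodule.span ℚ (Set.range (Subtype.val : B → (Fin d → ℚ))) := by
    rw [Subtype.range_coe, hBspan, h]
  let bas := Module.Basis.mk hBli htop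
  have hfin : Fintype B := Module.Basis.fintypeIndexOfRankLtAleph0 bas (by simp)
  have hcard : Fintype.card B = d := by
    have h1 := Module.finrank_eq_card_basis bas
    rw [Module.finrank_fin_fun] at h1
    exact h1.symm
  let e : Fin d ≃ B := (Fintype.equivFinOfCardEq hcard).symm
  have hmem : ∀ i : Fin d, ∃ z ∈ S, Fl_c d z = (e i : Fin d → ℚ) := fun i => hBs (e i).2
  choose b hbS hb using hmem
  refine ⟨b, ?_, hbS⟩
  have h2 : LinearIndependent ℚ (fun i : Fin d => ((e i : B) : Fin d → ℚ)) := hBli.comp e e.injective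
  have h3 : LinearIndependent ℤ (fun i : Fin d => ((e i : B) : Fin d → ℚ)) := by
    refine LinearIndependent.restrict_scalars ?_ h2
    intro x y hxy
    simpa using hxy
  have h4 : (Fl_c d ∘ b) = fun i : Fin d => ((e i : B) : Fin d → ℚ) := by
    funext i
    exact hb i
  rw [← h4] at h3
  exact LinearIndependent.of_comp (Fl_c d) h3

/-- the case of a proper subspace -/
private lemma Fl_ker (d : ℕ) (S : Set (Fin d → ℤ))
    (h : Submodule.span ℚ (Fl_c d '' S) ≠ ⊤) :
    ∃ l : (Fin d → ℤ) →+ ℤ, l ≠ 0 ∧ ∀ z ∈ S, l z = 0 := by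
  obtain ⟨f, hf0, hf⟩ := Submodule.exists_le_ker_of_lt_top _ (lt_top_iff_ne_top.2 h)
  -- values on the standard basis
  set q : Fin d → ℚ := fun i => f (Pi.single i 1) with hq
  set N : ℕ := ∏ i, (q i).den with hN
  have hN0 : (N : ℚ) ≠ 0 := by
    have : N ≠ 0 := by
      rw [hN, Finset.prod_ne_zero_iff]
      intro i _
      exact (q i).den_nz
    exact_mod_cast this
  have ha : ∀ i, ∃ a : ℤ, (a : ℚ) = (N : ℚ) * q i := by
    intro i
    obtain ⟨c, hc⟩ : (q i).den ∣ N := Finset.dvd_prod_of_mem (fun i => (q i).den) (Finset.mem_univ i)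
    refine ⟨(c : ℤ) * (q i).num, ?_⟩
    rw [hc]
    have hd : ((q i).den : ℚ) ≠ 0 := by exact_mod_cast (q i).den_nz
    have hq' : (q i) * ((q i).den : ℚ) = ((q i).num : ℚ) := Rat.mul_den_eq_num (q i)
    push_cast
    rw [← hq']
    ring
  choose a ha using ha
  have hfv : ∀ v : Fin d → ℚ, f v = ∑ i, v i * q i := by
    intro v
    conv_lhs => rw [pi_eq_sum_univ' v]
    rw [map_sum]
    refine Finset.sum_congr rfl fun i _ => ?_
    rw [map_smul, smul_eq_mul, hq]
  let l : (Fin d → ℤ) →+ ℤ :=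
    { toFun := fun z => ∑ i, z i * a i
      map_zero' := by simp
      map_add' := by
        intro x y
        simp only [Pi.add_apply, add_mul, Finset.sum_add_distrib] }
  have hl : ∀ z, ((l z : ℤ) : ℚ) = (N : ℚ) * f (Fl_c d z) := by
    intro z
    rw [hfv]
    change (((∑ i, z i * a i : ℤ)) : ℚ) = _
    push_cast
    rw [Finset.mul_sum]
    refine Finset.sum_congr rfl fun i _ => ?_
    rw [ha i, Fl_c_apply]
    ring
  refine ⟨l, ?_, ?_⟩
  · intro hl0
    apply hf0
    apply LinearMap.ext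
    intro v
    rw [hfv]
    simp only [LinearMap.zero_apply]
    refine Finset.sum_eq_zero fun i _ => ?_
    have h1 : l (Pi.single i 1) = a i := by
      change ∑ j, (Pi.single i (1 : ℤ) : Fin d → ℤ) j * a j = a i
      simp [Pi.single_apply]
    rw [hl0] at h1
    have h2 : (a i : ℚ) = 0 := by
      rw [← h1]
      simp
    rw [ha i] at h2
    rcases mul_eq_zero.1 h2 with h3 | h3
    · exact absurd h3 hN0
    · rw [h3, mul_zero]
  · intro z hz
    have h1 : f (Fl_c d z) = 0 :=
      hf (Submodule.subset_span ⟨z, hz, rfl⟩)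
    have h2 := hl z
    rw [h1, mul_zero] at h2
    exact_mod_cast h2

/-- **Fl.** -/
theorem rFl : S_Fl := by
  intro d S
  by_cases h : Submodule.span ℚ (Fl_c d '' S) = ⊤
  · exact Or.inl (Fl_span d S h)
  · exact Or.inr (Fl_ker d S h)

end Pool.Agent.MAS
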