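import Pool.Agent.Lib.MP_95b053_co.MAS.Spec

set_option autoImplicit false

namespace Pool.Agent.MAS

open Finset
open scoped Pointwise

private theorem Fre_mono {G : Type} [AddCommGroup G] {A : Finset G} {d : ℕ} {C C' : ℝ}
    {p : (Fin d → ℤ) → ℝ} {φ : (Fin d → ℤ) →+ G} {X : Finset G} (h : Dat A d C p φ X)
    (hC : C ≤ C') : Dat A d C' p φ X := by
  obtain ⟨h1, h2, h3, h4⟩ := h
  exact ⟨h1, h2.trans hC, h3, h4.trans (mul_le_mul_of_nonneg_right hC (Nat.cast_nonneg _))⟩

private theorem Fre_sub {G : Type} [AddCommGroup G] {d : ℕ} {p : (Fin d → ℤ) → ℝ}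
    (hp : Nrm d p) (z z' : Fin d → ℤ) : p (z - z') ≤ p z + p z' := by
  have h1 : z - z' = z + (-1 : ℤ) • z' := by
    rw [neg_smul, one_smul, sub_eq_add_neg]
  rw [h1]
  refine (hp.1 _ _).trans ?_
  rw [hp.2.1 (-1) z']
  simp

theorem rFre (h1 : S_Red1) (h2 : S_Red2) (h3 : S_Fl) (h4 : S_Grow) (h5 : S_Ape) : S_Fre := by
  intro d
  induction d with
  | zero =>
    intro K C hK
    have hlog : 0 ≤ Real.logb 2 K := Real.logb_nonneg (by norm_num) hK
    set θ : ℝ := 1 / (1 + 4 * Real.logb 2 K) with hθ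
    have hθ0 : 0 < θ := by positivity
    have hθ1 : θ ≤ 1 := by
      rw [hθ, div_le_one (by positivity)]
      linarith
    refine ⟨max C 1, by positivity, ?_⟩
    intro G _ _ A p φ X _ hA _ hD
    obtain ⟨a, ha⟩ := hA
    refine ⟨a, 0, {a}, by simpa using ha, ?_, ?_⟩
    · intro q hq
      rw [Finset.mem_singleton] at hq
      exact ⟨0, by simp [hq]⟩
    · have hA1 : (1 : ℝ) ≤ A.card := by exact_mod_cast Finset.card_pos.2 ⟨a, ha⟩
      have hsub : A ⊆ X := by
        intro b hb
        obtain ⟨x, hx, z, _, hz⟩ := hD.2.2.1 b hb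
        have : z = 0 := Subsingleton.elim _ _
        rw [this, map_zero, add_zero] at hz
        rwa [hz]
      have h6 : (A.card : ℝ) ≤ C := by
        have h7 : (A.card : ℝ) ≤ X.card := by exact_mod_cast Finset.card_le_card hsub
        exact h7.trans hD.2.1
      calc (A.card : ℝ) ^ θ ≤ (A.card : ℝ) ^ (1 : ℝ) :=
            Real.rpow_le_rpow_of_exponent_le hA1 hθ1
        _ = A.card := Real.rpow_one _
        _ ≤ max C 1 * (({a} : Finset G).card : ℝ) := by
            rw [Finset.card_singleton, Nat.cast_one, mul_one]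
            exact h6.trans (le_max_left _ _)
  | succ d ih =>
    intro K C hK
    have hlog : 0 ≤ Real.logb 2 K := Real.logb_nonneg (by norm_num) hK
    set θ : ℝ := 1 / (1 + 4 * Real.logb 2 K) with hθ
    have hθ0 : 0 < θ := by positivity
    obtain ⟨N, hN⟩ := exists_nat_ge (max C 1)
    have hNC : C ≤ N := (le_max_left _ _).trans hN
    have hN1 : (1 : ℝ) ≤ N := (le_max_right _ _).trans hN
    have hN1' : 1 ≤ N := by exact_mod_cast hN1
    set t : ℝ := 2 * 5 ^ N with ht
    obtain ⟨m, hm⟩ := pow_unbounded_of_one_lt (1 + t) (by norm_num : (1 : ℝ) < 2)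
    set ε : ℝ := 1 / (2 * ((d : ℝ) + 1) * (4 ^ (3 * (d + 1)) * (4 ^ (3 * (d + 1) * N) * (N : ℝ) ^ 2)))
      with hε
    have hN0 : (0 : ℝ) < N := by linarith
    have hε0 : 0 < ε := by positivity
    obtain ⟨k, hk⟩ := exists_nat_ge (max (2 / ε) 1)
    have hk1 : 1 ≤ k := by
      have : (1 : ℝ) ≤ k := (le_max_right _ _).trans hk
      exact_mod_cast this
    have hk2 : 2 ≤ ε * k := by
      have h6 : 2 / ε ≤ k := (le_max_left _ _).trans hk
      rw [div_le_iff₀ hε0] at h6
      linarith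
    obtain ⟨C1, hC1, hI1⟩ := ih K (C * 4 ^ ((d + 1) * m)) hK
    obtain ⟨C2, hC2, hI2⟩ := ih K (C * ((k : ℝ) ^ (d + 1) + 4 ^ (d + 1))) hK
    set c : ℝ := 4 ^ (d + 1 + 1) * (N : ℝ) ^ 3 with hc
    have hc0 : 0 < c := by positivity
    refine ⟨C1 + C2 + c, by positivity, ?_⟩
    intro G _ _ A p φ X hG hA hAA hD
    have hup : ∀ (C' : ℝ) (T : Finset G), C' ≤ C1 + C2 + c →
        (A.card : ℝ) ^ θ ≤ C' * T.card → (A.card : ℝ) ^ θ ≤ (C1 + C2 + c) * T.card :=
      fun C' T h h' => h'.trans (mul_le_mul_of_nonneg_right h (Nat.cast_nonneg _))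
    have hC0 : 0 ≤ C := (Nat.cast_nonneg _).trans hD.2.1
    by_cases hinj : ∀ z z', p z ≤ t → p z' ≤ t → φ z = φ z' → z = z'
    swap
    · push Not at hinj
      obtain ⟨z, z', hz, hz', he, hne⟩ := hinj
      obtain ⟨p', φ', hD'⟩ := h1 G A d m C t p φ X hG hC0 hm.le hD
        ⟨z - z', sub_ne_zero.2 hne, (Fre_sub (G := G) hD.1 z z').trans (by linarith), by
          rw [map_sub, he, sub_self]⟩
      obtain ⟨a0, v, T, hT, hTl, hTc⟩ := hI1 G A p' φ' X hG hA hAA hD'
      exact ⟨a0, v, T, hT, hTl, hup C1 T (by linarith) hTc⟩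
    · rcases h3 (d + 1) {z | p z ≤ ε} with ⟨b, hb, hbS⟩ | ⟨l, hl, hlS⟩
      swap
      · obtain ⟨p', φ', X', hD'⟩ := h2 G A d k C ε p φ X l hC0 hk1 hk2 hD hl (fun z hz => hlS z hz)
        obtain ⟨a0, v, T, hT, hTl, hTc⟩ := hI2 G A p' φ' X' hG hA hAA hD'
        exact ⟨a0, v, T, hT, hTl, hup C2 T (by linarith) hTc⟩
      · have hDN : Dat A (d + 1) N p φ X := Fre_mono hD hNC
        have hA1 : (1 : ℝ) ≤ A.card := by exact_mod_cast hA.card_pos
        have hA0 : (0 : ℝ) < A.card := by linarith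
        have hgr := h4 G A (d + 1) N ε p φ X b hA hDN hinj hb hε0 hbS (by
          rw [hε]
          push_cast
          rw [mul_one_div, div_self (by positivity)])
        have hexp : (((d + 1 : ℕ) : ℝ) - 1) / 4 = (d : ℝ) / 4 := by
          push_cast
          ring
        rw [hexp] at hgr
        have h6 : (2 : ℝ) ^ ((d : ℝ) / 4) ≤ K := le_of_mul_le_mul_right (hgr.trans hAA) hA0
        have h7 : (d : ℝ) / 4 ≤ Real.logb 2 K := by
          rw [Real.le_logb_iff_rpow_le (by norm_num) (by linarith)]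
          exact h6
        have h8 : θ ≤ 1 / ((d : ℝ) + 1) := by
          rw [hθ]
          exact one_div_le_one_div_of_le (by positivity) (by linarith)
        obtain ⟨a0, v, T, hT, hTne, hTl, hTc⟩ := h5 G A (d + 1) N p φ X hA (by omega) hN1' hDN (by
          intro z z' hz hz' he
          have h9 : (2 : ℝ) ≤ t := by
            rw [ht]
            have : (1 : ℝ) ≤ 5 ^ N := one_le_pow₀ (by norm_num)
            linarith
          exact hinj z z' (hz.trans h9) (hz'.trans h9) he)
        refine ⟨a0, v, T, hT, hTl, hup c T (by linarith) ?_⟩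
        have hcT : 0 ≤ c * T.card := by positivity
        calc (A.card : ℝ) ^ θ ≤ (A.card : ℝ) ^ (1 / ((d : ℝ) + 1)) :=
              Real.rpow_le_rpow_of_exponent_le hA1 h8
          _ ≤ ((c * T.card) ^ (d + 1)) ^ (1 / ((d : ℝ) + 1)) :=
              Real.rpow_le_rpow hA0.le hTc (by positivity)
          _ = c * T.card := by
              rw [← Real.rpow_natCast, ← Real.rpow_mul hcT]
              push_cast
              rw [mul_one_div, div_self (by positivity), Real.rpow_one]

end Pool.Agent.MAS
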