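import Pool.Agent.Lib.MP_95b053_co.MAS.Spec

/-!
# MP_95b053_co, project MAS: module Gro (growth of images of balls)
-/

set_option autoImplicit false

namespace Pool.Agent.MAS

open Finset

private lemma Gro_step {G : Type} [AddCommGroup G] (d : ℕ) (p : (Fin d → ℤ) → ℝ)
    (φ : (Fin d → ℤ) →+ G) (R : ℝ) (hp : Nrm d p) :
    ((φ '' {z | p z ≤ 2 * R}).ncard : ℝ) ≤ 4 ^ d * ((φ '' {z | p z ≤ R}).ncard : ℝ) := by
  classical
  obtain ⟨hadd, hsm, hfin⟩ := hp
  set cl : (Fin d → ℤ) → (Fin d → ZMod 4) := fun z i => ((z i : ℤ) : ZMod 4) with hcl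
  have hrep : ∀ c : Fin d → ZMod 4, ∃ x : Fin d → ℤ,
      (∃ y, p y ≤ 2 * R ∧ cl y = c) → (p x ≤ 2 * R ∧ cl x = c) := by
    intro c
    by_cases h : ∃ y, p y ≤ 2 * R ∧ cl y = c
    · obtain ⟨y, hy⟩ := h
      exact ⟨y, fun _ => hy⟩
    · exact ⟨0, fun h' => absurd h' h⟩
  choose X hX using hrep
  have hSfin : (φ '' {z | p z ≤ R}).Finite := (hfin R).image φ
  have hTfin : ((Set.univ : Set (Fin d → ZMod 4)) ×ˢ (φ '' {z | p z ≤ R})).Finite :=
    Set.finite_univ.prod hSfin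
  have hsub : φ '' {z | p z ≤ 2 * R} ⊆
      (fun q : (Fin d → ZMod 4) × G => φ (X q.1) + (4 : ℤ) • q.2) ''
        ((Set.univ : Set (Fin d → ZMod 4)) ×ˢ (φ '' {z | p z ≤ R})) := by
    rintro _ ⟨y, hy, rfl⟩
    have hy' : p y ≤ 2 * R := hy
    have hx := hX (cl y) ⟨y, hy', rfl⟩
    obtain ⟨x0, hx0⟩ : ∃ x0, x0 = X (cl y) := ⟨_, rfl⟩
    rw [← hx0] at hx
    obtain ⟨hx1, hx2⟩ := hx
    have hdiv : ∀ i, ∃ c : ℤ, y i - x0 i = 4 * c := by
      intro i
      have h2 : ((x0 i : ℤ) : ZMod 4) = ((y i : ℤ) : ZMod 4) := congrFun hx2 i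
      have h3 := (ZMod.intCast_eq_intCast_iff_dvd_sub (x0 i) (y i) 4).1 h2
      obtain ⟨c, hc⟩ := h3
      exact ⟨c, by simpa using hc⟩
    choose z hz using hdiv
    have hyz : y = x0 + (4 : ℤ) • z := by
      funext i
      have h4 := hz i
      simp only [Pi.add_apply, Pi.smul_apply, smul_eq_mul]
      linarith
    have hpz : p z ≤ R := by
      have h1 : p ((4 : ℤ) • z) = 4 * p z := by
        rw [hsm]
        norm_num
      have h2 : (4 : ℤ) • z = y + (-1 : ℤ) • x0 := by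
        rw [hyz]
        simp
      have h3 : p ((4 : ℤ) • z) ≤ p y + p ((-1 : ℤ) • x0) := by
        rw [h2]
        exact hadd _ _
      have h4 : p ((-1 : ℤ) • x0) = p x0 := by
        rw [hsm]
        norm_num
      linarith
    refine ⟨(cl y, φ z), ⟨Set.mem_univ _, z, hpz, rfl⟩, ?_⟩
    show φ (X (cl y)) + (4 : ℤ) • φ z = φ y
    rw [← hx0, ← map_zsmul, ← map_add, ← hyz]
  have h1 : (φ '' {z | p z ≤ 2 * R}).ncard ≤ 4 ^ d * (φ '' {z | p z ≤ R}).ncard := by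
    calc (φ '' {z | p z ≤ 2 * R}).ncard ≤ _ := Set.ncard_le_ncard hsub (hTfin.image _)
      _ ≤ ((Set.univ : Set (Fin d → ZMod 4)) ×ˢ (φ '' {z | p z ≤ R})).ncard :=
          Set.ncard_image_le hTfin
      _ = 4 ^ d * (φ '' {z | p z ≤ R}).ncard := by
          rw [Set.ncard_prod, Set.ncard_univ, Nat.card_eq_fintype_card, Fintype.card_fun,
            ZMod.card, Fintype.card_fin]
  exact_mod_cast h1

theorem rGro : S_Gro := by
  intro G _ d m p φ R hp _
  induction m with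
  | zero => simp
  | succ m ih =>
    have h1 : (2 : ℝ) ^ (m + 1) * R = 2 * (2 ^ m * R) := by ring
    rw [h1]
    calc ((φ '' {z | p z ≤ 2 * (2 ^ m * R)}).ncard : ℝ)
        ≤ 4 ^ d * ((φ '' {z | p z ≤ 2 ^ m * R}).ncard : ℝ) := Gro_step d p φ _ hp
      _ ≤ 4 ^ d * (4 ^ (d * m) * ((φ '' {z | p z ≤ R}).ncard : ℝ)) :=
          mul_le_mul_of_nonneg_left ih (by positivity)
      _ = 4 ^ (d * (m + 1)) * ((φ '' {z | p z ≤ R}).ncard : ℝ) := by
          rw [← mul_assoc, ← pow_add]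
          congr 2
          ring

end Pool.Agent.MAS
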