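import Pool.Agent.Lib.MP_95b053_co.MAS.Spec

/-!
MP_95b053_co, project MAS: module Grow (growth with clusters).
-/

set_option autoImplicit false

namespace Pool.Agent.MAS

open Finset
open scoped Pointwise

private lemma Grow_neg {d : ℕ} {p : (Fin d → ℤ) → ℝ} (hp : Nrm d p) (x : Fin d → ℤ) :
    p (-x) = p x := by
  have h := hp.2.1 (-1) x
  simpa using h

private lemma Grow_sub {d : ℕ} {p : (Fin d → ℤ) → ℝ} (hp : Nrm d p) (x y : Fin d → ℤ) :
    p (x - y) ≤ p x + p y := by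
  rw [sub_eq_add_neg]
  have h := hp.1 x (-y)
  rwa [Grow_neg hp] at h

open Classical in
/-- the points of A near y -/
private noncomputable def Grow_A {G : Type} [AddCommGroup G] {d : ℕ} (A : Finset G)
    (p : (Fin d → ℤ) → ℝ) (φ : (Fin d → ℤ) →+ G) (R : ℝ) (y : G) : Finset G :=
  A.filter (fun a => ∃ z, p z ≤ R ∧ a = y + φ z)

open Classical in
private lemma Grow_mem {G : Type} [AddCommGroup G] {d : ℕ} {A : Finset G}
    {p : (Fin d → ℤ) → ℝ} {φ : (Fin d → ℤ) →+ G} {R : ℝ} {y a : G} :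
    a ∈ Grow_A A p φ R y ↔ a ∈ A ∧ ∃ z, p z ≤ R ∧ a = y + φ z := by
  rw [Grow_A, mem_filter]

private lemma Grow_card {G : Type} [AddCommGroup G] {d : ℕ} (A Y : Finset G)
    (p : (Fin d → ℤ) → ℝ) (φ : (Fin d → ℤ) →+ G) (R : ℝ) (hp : Nrm d p) (hR : 0 ≤ R)
    (hc : ∀ a ∈ A, ∃ y ∈ Y, ∃ z, p z ≤ R ∧ a = y + φ z)
    (hs : ∀ y ∈ Y, ∀ y' ∈ Y, y ≠ y' → ∀ z, p z ≤ 4 * R → y ≠ y' + φ z) :
    A.card = ∑ y ∈ Y, (Grow_A A p φ R y).card := by
  classical
  rw [← card_biUnion]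
  · congr 1
    ext a
    rw [mem_biUnion]
    constructor
    · intro ha
      obtain ⟨y, hy, z, hz, e⟩ := hc a ha
      exact ⟨y, hy, Grow_mem.2 ⟨ha, z, hz, e⟩⟩
    · rintro ⟨y, _, hy⟩
      exact (Grow_mem.1 hy).1
  · intro y hy y' hy' hne
    rw [Function.onFun, disjoint_left]
    intro a ha ha'
    obtain ⟨_, z, hz, e⟩ := Grow_mem.1 ha
    obtain ⟨_, z', hz', e'⟩ := Grow_mem.1 ha'
    refine hs y hy y' hy' hne (z' - z) ?_ ?_
    · have := Grow_sub hp z' z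
      linarith
    · rw [map_sub]
      rw [e] at e'
      rw [← add_sub_assoc, ← e', add_sub_cancel_right]

private lemma Grow_sum {G : Type} [AddCommGroup G] [DecidableEq G] {d : ℕ} (A Y : Finset G)
    (p : (Fin d → ℤ) → ℝ) (φ : (Fin d → ℤ) →+ G) (R : ℝ) (hp : Nrm d p)
    (hs : ∀ y ∈ Y, ∀ y' ∈ Y, y ≠ y' → ∀ z, p z ≤ 4 * R → y ≠ y' + φ z) (y0 : G) :
    ∑ y ∈ Y, (Grow_A A p φ R y0 + Grow_A A p φ R y).card ≤ (A + A).card := by
  rw [← card_biUnion]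
  · apply card_le_card
    intro a ha
    rw [mem_biUnion] at ha
    obtain ⟨y, _, hy⟩ := ha
    obtain ⟨u, hu, w, hw, e⟩ := mem_add.1 hy
    exact mem_add.2 ⟨u, (Grow_mem.1 hu).1, w, (Grow_mem.1 hw).1, e⟩
  · intro y hy y' hy' hne
    rw [Function.onFun, disjoint_left]
    intro a ha ha'
    obtain ⟨u, hu, w, hw, e⟩ := mem_add.1 ha
    obtain ⟨u', hu', w', hw', e'⟩ := mem_add.1 ha'
    obtain ⟨_, z1, hz1, e1⟩ := Grow_mem.1 hu
    obtain ⟨_, z2, hz2, e2⟩ := Grow_mem.1 hw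
    obtain ⟨_, z1', hz1', e1'⟩ := Grow_mem.1 hu'
    obtain ⟨_, z2', hz2', e2'⟩ := Grow_mem.1 hw'
    refine hs y hy y' hy' hne ((z1' + z2') - (z1 + z2)) ?_ ?_
    · have q1 := Grow_sub hp (z1' + z2') (z1 + z2)
      have q2 := hp.1 z1' z2'
      have q3 := hp.1 z1 z2
      linarith
    · have h : (y0 + φ z1) + (y + φ z2) = (y0 + φ z1') + (y' + φ z2') := by
        rw [← e1, ← e2, ← e1', ← e2', e, e']
      rw [map_sub, map_add, map_add]
      have h2 : y = (y0 + φ z1) + (y + φ z2) - y0 - φ z1 - φ z2 := by abel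
      rw [h2, h]
      abel

private lemma Grow_E {G : Type} [AddCommGroup G] [DecidableEq G] {d : ℕ} (A : Finset G)
    (p : (Fin d → ℤ) → ℝ) (φ : (Fin d → ℤ) →+ G) (R : ℝ) (hp : Nrm d p) (hR : 0 ≤ R)
    (hinj : ∀ z z', p z ≤ 2 * R → p z' ≤ 2 * R → φ z = φ z' → z = z') (y0 : G) :
    ∃ E : Finset (Fin d → ℤ), (∀ x ∈ E, p x ≤ R) ∧ E.card = (Grow_A A p φ R y0).card ∧
      (E + E).card ≤ (Grow_A A p φ R y0 + Grow_A A p φ R y0).card := by
  have hmem : ∀ z, z ∈ (hp.2.2 R).toFinset.filter (fun z => y0 + φ z ∈ A) ↔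
      p z ≤ R ∧ y0 + φ z ∈ A := by
    intro z
    rw [mem_filter, Set.Finite.mem_toFinset, Set.mem_setOf_eq]
  set E := (hp.2.2 R).toFinset.filter (fun z => y0 + φ z ∈ A) with hE
  refine ⟨E, fun x hx => ((hmem x).1 hx).1, ?_, ?_⟩
  · have h1 : Grow_A A p φ R y0 = E.image (fun z => y0 + φ z) := by
      ext a
      rw [Grow_mem, mem_image]
      constructor
      · rintro ⟨ha, z, hz, e⟩
        exact ⟨z, (hmem z).2 ⟨hz, e ▸ ha⟩, e.symm⟩
      · rintro ⟨z, hz, e⟩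
        obtain ⟨k1, k2⟩ := (hmem z).1 hz
        exact ⟨e ▸ k2, z, k1, e.symm⟩
    rw [h1, card_image_of_injOn]
    intro z hz z' hz' e
    have k1 := ((hmem z).1 hz).1
    have k2 := ((hmem z').1 hz').1
    exact hinj z z' (by linarith) (by linarith) (add_left_cancel e)
  · have h2 : (E + E).card = ((E + E).image (fun z => (y0 + y0) + φ z)).card := by
      rw [card_image_of_injOn]
      intro z hz z' hz' e
      obtain ⟨u, hu, w, hw, e1⟩ := mem_add.1 (mem_coe.1 hz)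
      obtain ⟨u', hu', w', hw', e1'⟩ := mem_add.1 (mem_coe.1 hz')
      have k1 := ((hmem u).1 hu).1
      have k2 := ((hmem w).1 hw).1
      have k3 := ((hmem u').1 hu').1
      have k4 := ((hmem w').1 hw').1
      have k5 := hp.1 u w
      have k6 := hp.1 u' w'
      rw [e1] at k5
      rw [e1'] at k6
      exact hinj z z' (by linarith) (by linarith) (add_left_cancel e)
    rw [h2]
    apply card_le_card
    intro a ha
    obtain ⟨z, hz, e⟩ := mem_image.1 ha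
    obtain ⟨u, hu, w, hw, e1⟩ := mem_add.1 hz
    obtain ⟨k1, k2⟩ := (hmem u).1 hu
    obtain ⟨k3, k4⟩ := (hmem w).1 hw
    refine mem_add.2 ⟨y0 + φ u, Grow_mem.2 ⟨k2, u, k1, rfl⟩, y0 + φ w,
      Grow_mem.2 ⟨k4, w, k3, rfl⟩, ?_⟩
    rw [← e, ← e1, map_add]
    abel

private lemma Grow_ball (h1 : S_Gro) {G : Type} [AddCommGroup G] (A : Finset G) (d N : ℕ)
    (p : (Fin d → ℤ) → ℝ) (φ : (Fin d → ℤ) →+ G) (X : Finset G) (R : ℝ) (hD : Dat A d N p φ X)
    (hR5 : R ≤ 5 ^ N)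
    (hinj : ∀ z z', p z ≤ R → p z' ≤ R → φ z = φ z' → z = z') :
    ({x | p x ≤ R}.ncard : ℝ) ≤ 4 ^ (3 * d * N) * (N * A.card) := by
  obtain ⟨hp, -, -, hc⟩ := hD
  have e1 : {x | p x ≤ R}.ncard = (φ '' {x | p x ≤ R}).ncard := by
    symm
    apply Set.InjOn.ncard_image
    intro z hz z' hz' e
    exact hinj z z' hz hz' e
  have e2 : (φ '' {x | p x ≤ R}).ncard ≤ (φ '' {z | p z ≤ 2 ^ (3 * N) * 1}).ncard := by
    apply Set.ncard_le_ncard
    · apply Set.image_mono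
      intro z hz
      rw [Set.mem_setOf_eq] at hz ⊢
      have k1 : (5 : ℝ) ^ N ≤ 2 ^ (3 * N) := by
        rw [pow_mul]
        exact pow_le_pow_left₀ (by norm_num) (by norm_num) N
      linarith
    · exact (hp.2.2 _).image _
  have e3 := h1 G d (3 * N) p φ 1 hp zero_le_one
  have e4 : d * (3 * N) = 3 * d * N := by ring
  rw [e4] at e3
  rw [e1]
  have e5 : ((φ '' {x | p x ≤ R}).ncard : ℝ) ≤ ((φ '' {z | p z ≤ 2 ^ (3 * N) * 1}).ncard : ℝ) := by
    exact_mod_cast e2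
  exact e5.trans (e3.trans (mul_le_mul_of_nonneg_left hc (by positivity)))

theorem rGrow (h1 : S_Gro) (h2 : S_Ruz) (h3 : S_Den) (h4 : S_Clu) : S_Grow := by
  intro G _ _ A d N ε p φ X b hA hD hinj hb hε hbε hsm
  obtain ⟨hp, hX, hcov, hcard⟩ := hD
  obtain ⟨Y, R, hYX, hR1, hR5, hcY, hsY⟩ := h4 G A d p φ X hp hcov
  have hXN : X.card ≤ N := by exact_mod_cast hX
  have hR5N : R ≤ 5 ^ N := hR5.trans (pow_le_pow_right₀ (by norm_num) hXN)
  have hR0 : 0 ≤ R := by linarith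
  have hYN : Y.card ≤ N := (card_le_card hYX).trans hXN
  have hYne : Y.Nonempty := by
    obtain ⟨a, ha⟩ := hA
    obtain ⟨y, hy, _⟩ := hcY a ha
    exact ⟨y, hy⟩
  obtain ⟨y0, hy0, hmax⟩ := exists_max_image Y (fun y => (Grow_A A p φ R y).card) hYne
  have hAc := Grow_card A Y p φ R hp hR0 hcY hsY
  have hA0 : A.card ≤ N * (Grow_A A p φ R y0).card := by
    rw [hAc]
    calc ∑ y ∈ Y, (Grow_A A p φ R y).card ≤ Y.card • (Grow_A A p φ R y0).card :=
          sum_le_card_nsmul _ _ _ hmax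
      _ = Y.card * (Grow_A A p φ R y0).card := by rw [smul_eq_mul]
      _ ≤ _ := Nat.mul_le_mul_right _ hYN
  obtain ⟨E, hER, hEc, hEE⟩ := Grow_E A p φ R hp hR0 (fun z z' hz hz' e =>
    hinj z z' (by linarith) (by linarith) e) y0
  have hball := Grow_ball h1 A d N p φ X R ⟨hp, hX, hcov, hcard⟩ hR5N (fun z z' hz hz' e =>
    hinj z z' (by linarith) (by linarith) e)
  have hball2 : ({x | p x ≤ R}.ncard : ℝ) ≤ (4 ^ (3 * d * N) * (N : ℝ) ^ 2) * E.card := by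
    refine hball.trans ?_
    have k1 : (A.card : ℝ) ≤ N * (E.card : ℝ) := by
      rw [hEc]
      exact_mod_cast hA0
    have k2 : (4 : ℝ) ^ (3 * d * N) * (N * A.card) ≤ 4 ^ (3 * d * N) * (N * (N * (E.card : ℝ))) :=
      mul_le_mul_of_nonneg_left (mul_le_mul_of_nonneg_left k1 (Nat.cast_nonneg _)) (by positivity)
    refine k2.trans (le_of_eq ?_)
    ring
  have hden := h3 d p b E R ε (4 ^ (3 * d * N) * (N : ℝ) ^ 2) hp hb hε (by linarith)
    (by positivity) hbε hER hball2 (hsm.trans hR1)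
  set σ : ℝ := (2 : ℝ) ^ (((d : ℝ) - 1) / 4) with hσ
  have hσ0 : 0 ≤ σ := by positivity
  have hσ2 : σ ^ 2 = (2 : ℝ) ^ (((d : ℝ) - 1) / 2) := by
    rw [hσ, ← Real.rpow_natCast, ← Real.rpow_mul (by norm_num)]
    congr 1
    push_cast
    ring
  have hE2 : σ ^ 2 * ((Grow_A A p φ R y0).card : ℝ) ≤
      ((Grow_A A p φ R y0 + Grow_A A p φ R y0).card : ℝ) := by
    rw [hσ2, ← hEc]
    refine hden.trans ?_
    exact_mod_cast hEE
  have hpiece : ∀ y ∈ Y, σ * ((Grow_A A p φ R y).card : ℝ) ≤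
      ((Grow_A A p φ R y0 + Grow_A A p φ R y).card : ℝ) := by
    intro y hy
    rcases (Grow_A A p φ R y).eq_empty_or_nonempty with h0 | h0
    · rw [h0, card_empty, Nat.cast_zero, mul_zero]
      exact Nat.cast_nonneg _
    · exact h2 G (Grow_A A p φ R y0) (Grow_A A p φ R y) σ hσ0 h0 (hmax y hy) hE2
  have hsum := Grow_sum A Y p φ R hp hsY y0
  calc σ * (A.card : ℝ) = ∑ y ∈ Y, σ * ((Grow_A A p φ R y).card : ℝ) := by
        rw [hAc, Nat.cast_sum, mul_sum]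
    _ ≤ ∑ y ∈ Y, ((Grow_A A p φ R y0 + Grow_A A p φ R y).card : ℝ) := sum_le_sum hpiece
    _ = ((∑ y ∈ Y, (Grow_A A p φ R y0 + Grow_A A p φ R y).card : ℕ) : ℝ) := by
        rw [Nat.cast_sum]
    _ ≤ _ := by exact_mod_cast hsum

end Pool.Agent.MAS
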