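import Pool.Agent.Lib.MP_95b053_co.MAS.Spec

/-!
# The kernel of a nonzero functional on `ℤ^(d+1)` (Ker)
-/

set_option autoImplicit false

namespace Pool.Agent.MAS

private theorem Ker_rank (d : ℕ) (f : (Fin (d + 1) → ℤ) →ₗ[ℤ] ℤ) (hf : f ≠ 0) :
    Module.finrank ℤ (LinearMap.ker f) = d := by
  have h1 : Module.finrank ℤ (LinearMap.range f) + Module.finrank ℤ (LinearMap.ker f) = d + 1 := by
    have h := Submodule.finrank_quotient_add_finrank (LinearMap.ker f)
    rw [LinearEquiv.finrank_eq f.quotKerEquivRange] at h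
    rw [h, Module.finrank_pi, Fintype.card_fin]
  have h2 : Module.finrank ℤ (LinearMap.range f) ≤ 1 := by
    have h := Submodule.finrank_le (LinearMap.range f)
    rwa [Module.finrank_self] at h
  have h3 : 0 < Module.finrank ℤ (LinearMap.range f) := by
    have : Nontrivial (LinearMap.range f) := by
      rw [Submodule.nontrivial_iff_ne_bot]
      intro h
      exact hf (LinearMap.range_eq_bot.mp h)
    exact Module.finrank_pos
  omega

theorem rKer : S_Ker := by
  intro d l hl
  have hf : l.toIntLinearMap ≠ 0 := by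
    intro h
    apply hl
    ext x
    have := congrArg (fun g : (Fin (d + 1) → ℤ) →ₗ[ℤ] ℤ => g (Pi.single x 1)) h
    simpa using this
  have hr := Ker_rank d l.toIntLinearMap hf
  have e : (Fin d → ℤ) ≃ₗ[ℤ] LinearMap.ker l.toIntLinearMap :=
    LinearEquiv.ofFinrankEq _ _ (by rw [hr, Module.finrank_pi, Fintype.card_fin])
  refine ⟨((LinearMap.ker l.toIntLinearMap).subtype.comp e.toLinearMap).toAddMonoidHom, ?_, ?_⟩
  · intro a b hab
    exact e.injective (Subtype.ext hab)
  · intro x
    constructor
    · intro hx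
      have hx' : x ∈ LinearMap.ker l.toIntLinearMap := hx
      refine ⟨e.symm ⟨x, hx'⟩, ?_⟩
      change ((e (e.symm ⟨x, hx'⟩) : LinearMap.ker l.toIntLinearMap) : Fin (d + 1) → ℤ) = x
      rw [e.apply_symm_apply]
    · rintro ⟨y, rfl⟩
      exact (e y).2

end Pool.Agent.MAS
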