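import Pool.Agent.Lib.MP_95b053_co.MAS.Spec
import Pool.Agent.Lib.MP_95b053_co.Fun
import Pool.Agent.Lib.MP_95b053_co.Circ
import Pool.Agent.Lib.MP_95b053_co.Bog
import Pool.Agent.Lib.MP_95b053_co.Pos
import Pool.Agent.Lib.MP_95b053_co.Thick

/-!
# MP_95b053_co, project MAS: local structure (`Loc`)
-/

set_option autoImplicit false

namespace Pool.Agent.MAS

open Finset
open scoped Pointwise

private theorem Loc_six {G : Type*} [AddCommGroup G] [DecidableEq G] (V : Finset G)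
    {a1 a2 a3 a4 a5 a6 b1 b2 b3 b4 b5 b6 : G} (h1 : a1 ∈ V) (h2 : a2 ∈ V) (h3 : a3 ∈ V)
    (h4 : a4 ∈ V) (h5 : a5 ∈ V) (h6 : a6 ∈ V) (k1 : b1 ∈ V) (k2 : b2 ∈ V) (k3 : b3 ∈ V)
    (k4 : b4 ∈ V) (k5 : b5 ∈ V) (k6 : b6 ∈ V) :
    (a1 + a2 + a3 + a4 + a5 + a6) - (b1 + b2 + b3 + b4 + b5 + b6) ∈ 6 • V - 6 • V := by
  have e : 6 • V = V + V + V + V + V + V := by
    rw [succ_nsmul, succ_nsmul, succ_nsmul, succ_nsmul, succ_nsmul, one_nsmul]
  rw [e]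
  refine sub_mem_sub ?_ ?_
  · exact add_mem_add (add_mem_add (add_mem_add (add_mem_add (add_mem_add h1 h2) h3) h4) h5) h6
  · exact add_mem_add (add_mem_add (add_mem_add (add_mem_add (add_mem_add k1 k2) k3) k4) k5) k6

private theorem Loc_two {G : Type*} [AddCommGroup G] [DecidableEq G] (V : Finset G)
    {a1 a2 b1 b2 : G} (h1 : a1 ∈ V) (h2 : a2 ∈ V) (k1 : b1 ∈ V) (k2 : b2 ∈ V) :
    a1 + a2 - b1 - b2 ∈ 2 • V - 2 • V := by
  have e : 2 • V = V + V := by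
    rw [succ_nsmul, one_nsmul]
  rw [e, sub_sub]
  exact sub_mem_sub (add_mem_add h1 h2) (add_mem_add k1 k2)

private theorem Loc_plu (V : Finset (ℝ × ℝ × ℝ)) (K : ℝ) (hV : V.Nonempty)
    (hK : ((V - V).card : ℝ) ≤ K * V.card) :
    (((6 • V - 6 • V : Finset (ℝ × ℝ × ℝ))).card : ℝ) ≤ K ^ 12 * V.card := by
  have h := Finset.pluennecke_ruzsa_inequality_nsmul_sub_nsmul_sub hV V 6 6
  have h' : (((6 • V - 6 • V : Finset (ℝ × ℝ × ℝ)).card : ℚ≥0) : ℝ) ≤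
      (((((V - V).card / V.card : ℚ≥0) ^ (6 + 6) * V.card : ℚ≥0)) : ℝ) := by
    exact_mod_cast h
  push_cast at h'
  refine h'.trans ?_
  have hV0 : (0 : ℝ) < V.card := by exact_mod_cast hV.card_pos
  have h1 : ((V - V).card : ℝ) / V.card ≤ K := by
    rw [div_le_iff₀ hV0]; exact hK
  gcongr

theorem rLoc : S_Loc := by
  classical
  intro V K hV hK
  have hn0 : (0 : ℝ) < V.card := by exact_mod_cast hV.card_pos
  have hK1 : 1 ≤ K := by
    have h4 : (V.card : ℝ) ≤ (V - V).card := by exact_mod_cast Finset.card_le_card_sub_self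
    have h5 : 1 * (V.card : ℝ) ≤ K * V.card := by linarith
    exact le_of_mul_le_mul_right h5 hn0
  have hK0 : 0 < K := by linarith
  obtain ⟨S, hS⟩ : ∃ S : Finset (ℝ × ℝ × ℝ), S = 6 • V - 6 • V := ⟨_, rfl⟩
  have hScard : (S.card : ℝ) ≤ K ^ 12 * V.card := hS ▸ Loc_plu V K hV hK
  obtain ⟨f, hf⟩ := RR95.rFun S
  obtain ⟨v0, hv0⟩ := hV
  have hsub : ∀ x ∈ V, ∀ y ∈ V, x - y ∈ S := by
    intro x hx y hy
    have h4 := Loc_six V hx hv0 hv0 hv0 hv0 hv0 hy hv0 hv0 hv0 hv0 hv0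
    rw [hS]
    have e : (x + v0 + v0 + v0 + v0 + v0) - (y + v0 + v0 + v0 + v0 + v0) = x - y := by abel
    rwa [e] at h4
  obtain ⟨η, hη⟩ : ∃ η : ℝ, η = 1 / (4 * K ^ 12 * V.card) := ⟨_, rfl⟩
  have hD0 : 0 < 4 * K ^ 12 * V.card := by positivity
  have hη0 : 0 < η := by rw [hη]; positivity
  have hn1 : (1 : ℝ) ≤ V.card := by
    have : 1 ≤ V.card := Finset.card_pos.mpr ⟨v0, hv0⟩
    exact_mod_cast this
  have hK12 : 1 ≤ K ^ 12 := one_le_pow₀ hK1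
  have hη4 : η ≤ 1 / 4 := by
    rw [hη]
    apply one_div_le_one_div_of_le (by norm_num)
    nlinarith
  obtain ⟨S', hS'⟩ : ∃ S' : Finset ℝ, S' = (S.image f).filter (fun y => y ≠ 0) := ⟨_, rfl⟩
  have hS'card : 4 * η * S'.card ≤ 1 := by
    have h4 : (S'.card : ℝ) ≤ S.card := by
      have : S'.card ≤ S.card := by
        rw [hS']
        exact (card_filter_le _ _).trans card_image_le
      exact_mod_cast this
    have h5 : (S'.card : ℝ) ≤ K ^ 12 * V.card := h4.trans hScard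
    calc 4 * η * S'.card ≤ 4 * η * (K ^ 12 * V.card) := by gcongr
      _ = 1 := by rw [hη]; field_simp
  obtain ⟨s, hs⟩ := RR95.rCirc S' η hη0 hS'card (fun y hy => by
    rw [hS'] at hy
    exact (mem_filter.mp hy).2)
  -- the separation
  have hsep : ∀ z ∈ S, z ≠ 0 → ∀ k : ℤ, η ≤ |s * f z - k| := by
    intro z hz hz0 k
    apply hs
    rw [hS', mem_filter]
    exact ⟨mem_image_of_mem _ hz, hf z hz hz0⟩
  have hzero : ∀ z ∈ S, s * f z = 0 → z = 0 := by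
    intro z hz hsz
    by_contra hz0
    have h4 := hsep z hz hz0 0
    rw [hsz] at h4
    simp at h4
    linarith
  obtain ⟨g, hg⟩ : ∃ g : (ℝ × ℝ × ℝ) →ₗ[ℝ] ℝ, g = s • f := ⟨_, rfl⟩
  have hgv : ∀ z, g z = s * f z := fun z => by rw [hg]; rfl
  have hginj : Set.InjOn g (V : Set (ℝ × ℝ × ℝ)) := by
    intro x hx y hy hxy
    have h4 : s * f (x - y) = 0 := by
      rw [← hgv, map_sub, hxy, sub_self]
    exact sub_eq_zero.mp (hzero _ (hsub x hx y hy) h4)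
  obtain ⟨A, hA⟩ : ∃ A : Finset ℝ, A = V.image g := ⟨_, rfl⟩
  have hAcard : A.card = V.card := by rw [hA]; exact card_image_of_injOn hginj
  -- the modulus
  obtain ⟨N, hN⟩ := exists_nat_ge (1000 / η)
  have h1000 : 1000 ≤ η * N := by
    rw [div_le_iff₀ hη0] at hN
    linarith
  have hNpos : (0 : ℝ) < N := by
    by_contra h
    rw [not_lt] at h
    nlinarith
  have hN0 : N ≠ 0 := by
    intro h
    rw [h] at hNpos
    simp at hNpos
  haveI : NeZero N := ⟨hN0⟩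
  have hsep' : ∀ x ∈ A, ∀ x' ∈ A, x ≠ x' → ∀ k : ℤ, η ≤ |x - x' - k| := by
    intro x hx x' hx' hne k
    rw [hA, mem_image] at hx hx'
    obtain ⟨a, ha, rfl⟩ := hx
    obtain ⟨b, hb, rfl⟩ := hx'
    have h4 := hsep (a - b) (hsub a ha b hb) (by
      intro h
      apply hne
      rw [sub_eq_zero.mp h]) k
    rwa [← hgv, map_sub] at h4
  obtain ⟨E, hE1, hE2⟩ := RR95.rThick A η N hη0 hη4 h1000 hsep'
  have hβ : (A.card : ℝ) * η = 1 / (4 * K ^ 12) := by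
    rw [hAcard, hη]
    field_simp
  obtain ⟨R, hR1, hR2⟩ := RR95.rBog N E (1 / (4 * K ^ 12) / 13) (by positivity) (by
    refine le_trans (le_of_eq ?_) hE1
    rw [← hβ]
    ring)
  obtain ⟨r, hr⟩ : ∃ r : Fin R.card → ℕ, ∀ i, r i = ((R.equivFin.symm i).1).val :=
    ⟨_, fun i => rfl⟩
  have hBR : ∀ T : ℤ, Bohr N r T → ∀ q ∈ R, ∃ m : ℤ, |(q.val : ℝ) * T / N - m| ≤ 1 / 4 := by
    intro T hT q hq
    obtain ⟨m, hm⟩ := hT (R.equivFin ⟨q, hq⟩)
    refine ⟨m, ?_⟩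
    rw [hr, Equiv.symm_apply_apply] at hm
    exact hm
  have hex : ∀ T : ℤ, ∃ v : ℝ × ℝ × ℝ, ∃ k : ℤ, Bohr N r T →
      (∃ a ∈ V, ∃ b ∈ V, ∃ c ∈ V, ∃ d ∈ V, v = a + b - c - d) ∧
        |(T : ℝ) - N * g v - N * k| ≤ η * N / 6 + 2 := by
    intro T
    by_cases hT : Bohr N r T
    · have h4 := hR2 (T : ZMod N) (fun q hq => by
        obtain ⟨m, hm⟩ := hBR T hT q hq
        exact RR95.rPos N q T m hm)
      obtain ⟨x₁, hx₁, x₂, hx₂, x₃, hx₃, x₄, hx₄, k, hk⟩ := hE2 T h4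
      rw [hA, mem_image] at hx₁ hx₂ hx₃ hx₄
      obtain ⟨a, ha, rfl⟩ := hx₁
      obtain ⟨b, hb, rfl⟩ := hx₂
      obtain ⟨c, hc, rfl⟩ := hx₃
      obtain ⟨d, hd, rfl⟩ := hx₄
      refine ⟨a + b - c - d, k, fun _ => ⟨⟨a, ha, b, hb, c, hc, d, hd, rfl⟩, ?_⟩⟩
      rw [map_sub, map_sub, map_add]
      exact hk
    · exact ⟨0, 0, fun h => absurd h hT⟩
  choose Y k hY using hex
  have hgz : ∀ z ∈ S, z ≠ 0 → ∀ j : ℤ, η * N ≤ |(N : ℝ) * g z + N * j| := by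
    intro z hz hz0 j
    have h4 := hsep z hz hz0 (-j)
    rw [← hgv] at h4
    push_cast at h4
    have e : (N : ℝ) * g z + N * j = N * (g z - -(j : ℝ)) := by ring
    rw [e, abs_mul, abs_of_pos hNpos, mul_comm]
    exact mul_le_mul_of_nonneg_left h4 hNpos.le
  refine ⟨N, R.card, r, η, Y, Nat.pos_of_ne_zero hN0, ?_, hη0, ?_, h1000, ?_, ?_, ?_⟩
  · refine hR1.trans (le_of_eq ?_)
    field_simp
    ring
  · rw [hη]
    field_simp
  · intro T hT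
    obtain ⟨⟨a, ha, b, hb, c, hc, d, hd, he⟩, -⟩ := hY T hT
    rw [he]
    exact Loc_two V ha hb hc hd
  · intro T T' hT hT' hTT'
    obtain ⟨⟨a1, ha1, b1, hb1, c1, hc1, d1, hd1, e1⟩, e1'⟩ := hY T hT
    obtain ⟨⟨a2, ha2, b2, hb2, c2, hc2, d2, hd2, e2⟩, e2'⟩ := hY T' hT'
    obtain ⟨⟨a3, ha3, b3, hb3, c3, hc3, d3, hd3, e3⟩, e3'⟩ := hY (T + T') hTT'
    have h4 := Loc_six V ha3 hb3 hc1 hd1 hc2 hd2 hc3 hd3 ha1 hb1 ha2 hb2
    have h5 : (a3 + b3 + c1 + d1 + c2 + d2) - (c3 + d3 + a1 + b1 + a2 + b2) =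
        Y (T + T') - Y T - Y T' := by
      rw [e1, e2, e3]; abel
    rw [h5, ← hS] at h4
    by_contra hne
    have h6 : Y (T + T') - Y T - Y T' ≠ 0 := by
      intro h
      apply hne
      rw [sub_sub, sub_eq_zero] at h
      exact h
    have h7 := hgz _ h4 h6 (k (T + T') - k T - k T')
    rw [map_sub, map_sub] at h7
    push_cast at h7 e3'
    have b1 := abs_le.mp e1'
    have b2 := abs_le.mp e2'
    have b3 := abs_le.mp e3'
    have h8 : |(N : ℝ) * (g (Y (T + T')) - g (Y T) - g (Y T')) +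
        N * ((k (T + T') : ℝ) - k T - k T')| ≤ 3 * (η * N / 6 + 2) := by
      rw [abs_le]
      constructor <;> linarith [b1.1, b1.2, b2.1, b2.2, b3.1, b3.2]
    linarith
  · intro T T' hT hT' hYY
    obtain ⟨-, e1'⟩ := hY T hT
    obtain ⟨-, e2'⟩ := hY T' hT'
    refine ⟨k T - k T', ?_⟩
    rw [← hYY] at e2'
    have b1 := abs_le.mp e1'
    have b2 := abs_le.mp e2'
    push_cast
    rw [abs_le]
    constructor <;> linarith [b1.1, b1.2, b2.1, b2.2]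

end Pool.Agent.MAS
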