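import Pool.Agent.Lib.MP_95b053_co.MAS.Spec

/-!
# MP_95b053_co, project MAS: mass systems, back to the plane (`S_MBack`)
-/

set_option autoImplicit false

namespace Pool.Agent.MAS

open Finset

private theorem MBack_rank (x y : ℝ × ℝ) (h : x ≠ y) :
    Module.finrank ℝ (line[ℝ, x, y]).direction = 1 := by
  rw [direction_affineSpan, vectorSpan_pair]
  exact finrank_span_singleton (sub_ne_zero.mpr h)

/-- The vector `w(y) (y, 1)`. -/
private def MBack_up (w : ℝ × ℝ → ℝ) (y : ℝ × ℝ) : ℝ × ℝ × ℝ := (w y * y.1, w y * y.2, w y)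

private theorem MBack_mem {P : Finset (ℝ × ℝ)} {w : ℝ × ℝ → ℝ} {q : ℝ × ℝ × ℝ} (h : q ∈ wup P w) :
    ∃ y ∈ P, w y ≠ 0 ∧ MBack_up w y = q := by
  classical
  unfold wup at h
  obtain ⟨y, hy, e⟩ := Finset.mem_image.mp h
  obtain ⟨hy1, hy2⟩ := Finset.mem_filter.mp hy
  exact ⟨y, hy1, hy2, e⟩

private theorem MBack_card (P : Finset (ℝ × ℝ)) (w : ℝ × ℝ → ℝ) (T : Finset (ℝ × ℝ × ℝ))
    (L : AffineSubspace ℝ (ℝ × ℝ)) (h : ∀ q ∈ T, ∃ y ∈ P, y ∈ L ∧ MBack_up w y = q) :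
    T.card ≤ ((P : Set (ℝ × ℝ)) ∩ (L : Set (ℝ × ℝ))).ncard := by
  classical
  have h1 : T ⊆ (P.filter (fun y => y ∈ L)).image (MBack_up w) := by
    intro q hq
    obtain ⟨y, hy, hyL, hyq⟩ := h q hq
    rw [mem_image]
    exact ⟨y, mem_filter.mpr ⟨hy, hyL⟩, hyq⟩
  refine (card_le_card h1).trans (card_image_le.trans (le_of_eq ?_))
  rw [← Set.ncard_coe_finset]
  congr 1
  ext y
  simp

theorem rMBack : S_MBack := by
  classical
  intro P w p v T hT hline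
  have hlift : ∀ q ∈ T, ∃ y ∈ P, w y ≠ 0 ∧ MBack_up w y = q := fun q hq => MBack_mem (hT hq)
  by_cases h2 : ∃ q₁ ∈ T, ∃ q₂ ∈ T, q₁ ≠ q₂
  · obtain ⟨q₁, hq₁, q₂, hq₂, hne⟩ := h2
    obtain ⟨y₁, hy₁, -, e₁⟩ := hlift q₁ hq₁
    obtain ⟨y₂, hy₂, -, e₂⟩ := hlift q₂ hq₂
    have hyne : y₁ ≠ y₂ := by
      rintro rfl
      exact hne (e₁.symm.trans e₂)
    refine ⟨line[ℝ, y₁, y₂], MBack_rank y₁ y₂ hyne, MBack_card P w T _ ?_⟩
    intro q hq
    obtain ⟨y, hy, hW, e⟩ := hlift q hq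
    refine ⟨y, hy, ?_, e⟩
    obtain ⟨s, hs⟩ := hline q hq
    obtain ⟨s₁, hs₁⟩ := hline q₁ hq₁
    obtain ⟨s₂, hs₂⟩ := hline q₂ hq₂
    have hs12 : s₂ - s₁ ≠ 0 := by
      intro h
      apply hne
      rw [hs₁, hs₂, sub_eq_zero.mp h]
    obtain ⟨u, hu⟩ : ∃ u : ℝ, u = (s - s₁) / (s₂ - s₁) := ⟨_, rfl⟩
    have hqu : q = q₁ + u • (q₂ - q₁) := by
      have h3 : q₂ - q₁ = (s₂ - s₁) • v := by rw [hs₁, hs₂, sub_smul]; abel
      have h4 : u * (s₂ - s₁) = s - s₁ := by rw [hu]; field_simp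
      rw [h3, smul_smul, h4, hs, hs₁, sub_smul]
      abel
    rw [← e, ← e₁, ← e₂] at hqu
    unfold MBack_up at hqu
    have k1 := congrArg (fun z : ℝ × ℝ × ℝ => z.1) hqu
    have k2 := congrArg (fun z : ℝ × ℝ × ℝ => z.2.1) hqu
    have k3 := congrArg (fun z : ℝ × ℝ × ℝ => z.2.2) hqu
    simp only [Prod.fst_add, Prod.snd_add, Prod.smul_fst, Prod.smul_snd, Prod.fst_sub,
      Prod.snd_sub, smul_eq_mul] at k1 k2 k3
    generalize w y = W at *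
    generalize w y₁ = W₁ at *
    generalize w y₂ = W₂ at *
    have m1 : y.1 = y₁.1 + (W⁻¹ * u * W₂) * (y₂.1 - y₁.1) := by
      have h5 : y.1 = W⁻¹ * (W * y.1) := by field_simp
      have h6 : W⁻¹ * (W₁ + u * (W₂ - W₁)) = 1 := by rw [← k3]; exact inv_mul_cancel₀ hW
      rw [h5, k1]
      linear_combination y₁.1 * h6
    have m2 : y.2 = y₁.2 + (W⁻¹ * u * W₂) * (y₂.2 - y₁.2) := by
      have h5 : y.2 = W⁻¹ * (W * y.2) := by field_simp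
      have h6 : W⁻¹ * (W₁ + u * (W₂ - W₁)) = 1 := by rw [← k3]; exact inv_mul_cancel₀ hW
      rw [h5, k2]
      linear_combination y₁.2 * h6
    have m3 : y = AffineMap.lineMap y₁ y₂ (W⁻¹ * u * W₂) := by
      rw [AffineMap.lineMap_apply]
      ext
      · rw [m1]
        simp [add_comm]
      · rw [m2]
        simp [add_comm]
    rw [m3]
    exact AffineMap.lineMap_mem_affineSpan_pair _ _ _
  · have h2' : ∀ q₁ ∈ T, ∀ q₂ ∈ T, q₁ = q₂ := by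
      intro q₁ h₁ q₂ h₂
      by_contra hc
      exact h2 ⟨q₁, h₁, q₂, h₂, hc⟩
    have hx : ∀ x : ℝ × ℝ, x ≠ x + (1, 0) := by
      intro x h
      have := congrArg Prod.fst h
      simp at this
    rcases T.eq_empty_or_nonempty with h0 | ⟨q₀, hq₀⟩
    · exact ⟨line[ℝ, (0 : ℝ × ℝ), 0 + (1, 0)], MBack_rank _ _ (hx 0), by rw [h0]; simp⟩
    · obtain ⟨y₀, hy₀, -, e₀⟩ := hlift q₀ hq₀
      refine ⟨line[ℝ, y₀, y₀ + (1, 0)], MBack_rank _ _ (hx y₀), MBack_card P w T _ ?_⟩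
      intro q hq
      rw [h2' q hq q₀ hq₀]
      exact ⟨y₀, hy₀, left_mem_affineSpan_pair ℝ _ _, e₀⟩

end Pool.Agent.MAS
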