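import Pool.Agent.Lib.MP_95b053_co.MAS.Spec

set_option autoImplicit false

namespace Pool.Agent.MAS

open Finset
open scoped Pointwise

private noncomputable def MPair_back (x : ℝ × ℝ × ℝ) : ℝ × ℝ := (x.1 / x.2.2, x.2.1 / x.2.2)

private theorem MPair_back_eq (w : ℝ) (p : ℝ × ℝ) (h : w ≠ 0) :
    MPair_back (w * p.1, w * p.2, w) = p := by
  unfold MPair_back
  refine Prod.ext ?_ ?_
  · show w * p.1 / w = p.1
    field_simp
  · show w * p.2 / w = p.2
    field_simp

private theorem MPair_line_eq (L : AffineSubspace ℝ (ℝ × ℝ)) (h : Module.finrank ℝ L.direction = 1)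
    (p q : ℝ × ℝ) (hp : p ∈ L) (hq : q ∈ L) (hne : p ≠ q) : affineSpan ℝ {p, q} = L := by
  have hle : affineSpan ℝ ({p, q} : Set (ℝ × ℝ)) ≤ L := by
    rw [affineSpan_le]
    rintro x (rfl | rfl)
    · exact hp
    · exact hq
  have hdir : (affineSpan ℝ ({p, q} : Set (ℝ × ℝ))).direction = L.direction := by
    refine Submodule.eq_of_le_of_finrank_eq (AffineSubspace.direction_le hle) ?_
    rw [h, direction_affineSpan, vectorSpan_pair, finrank_span_singleton]
    rw [vsub_eq_sub]
    exact sub_ne_zero.2 hne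
  exact AffineSubspace.eq_of_direction_eq_of_nonempty_of_le hdir
    ⟨p, left_mem_affineSpan_pair ℝ p q⟩ hle

private theorem MPair_zero (x y : ℝ) (r q : ℝ × ℝ) (hx : x ≠ 0) (h : x • r = y • q) (h2 : x = y) :
    r = q := by
  subst h2
  exact (smul_right_injective (ℝ × ℝ) hx) h

theorem rMPair : S_MPair := by
  classical
  intro K P a b c α hP hα hlines
  let C : Fin K → Finset ((ℝ × ℝ × ℝ) × (ℝ × ℝ × ℝ)) := fun i =>
    (wup P (a i) ×ˢ wup P (b i)).filter fun z => z.1 + z.2 ∈ wup P (c i)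
  let g : (Σ _ : Fin K, (ℝ × ℝ × ℝ) × (ℝ × ℝ × ℝ)) → AffineSubspace ℝ (ℝ × ℝ) := fun z =>
    affineSpan ℝ {MPair_back z.2.1, MPair_back z.2.2}
  have hmem : ∀ (w : ℝ × ℝ → ℝ) (p : ℝ × ℝ), p ∈ P → w p ≠ 0 → (w p * p.1, w p * p.2, w p) ∈ wup P w := by
    intro w p hp hw
    unfold wup
    exact Finset.mem_image.2 ⟨p, Finset.mem_filter.2 ⟨hp, hw⟩, rfl⟩
  have hsub : massLines K P a b c ⊆ ((((Finset.univ : Finset (Fin K)).sigma C).image g :
      Finset (AffineSubspace ℝ (ℝ × ℝ))) : Set (AffineSubspace ℝ (ℝ × ℝ))) := by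
    rintro L ⟨hL, i, p, hp, q, hq, r, hr, hpL, hqL, hrL, hpq, hpr, hqr, hc, h1, h2⟩
    have ha : a i p ≠ 0 := by
      intro h0
      rw [h0, zero_smul, zero_add] at h1
      rw [h0, zero_add] at h2
      exact hqr (MPair_zero _ _ _ _ hc h1 h2).symm
    have hb : b i q ≠ 0 := by
      intro h0
      rw [h0, zero_smul, add_zero] at h1
      rw [h0, add_zero] at h2
      exact hpr (MPair_zero _ _ _ _ hc h1 h2).symm
    have h11 := congrArg Prod.fst h1
    have h12 := congrArg Prod.snd h1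
    simp only [Prod.smul_fst, Prod.smul_snd, Prod.fst_add, Prod.snd_add, smul_eq_mul] at h11 h12
    rw [Finset.mem_coe, Finset.mem_image]
    refine ⟨⟨i, (a i p * p.1, a i p * p.2, a i p), (b i q * q.1, b i q * q.2, b i q)⟩, ?_, ?_⟩
    · rw [Finset.mem_sigma]
      refine ⟨Finset.mem_univ _, Finset.mem_filter.2 ⟨Finset.mem_product.2 ⟨hmem (a i) p hp ha, hmem (b i) q hq hb⟩, ?_⟩⟩
      have he : (a i p * p.1, a i p * p.2, a i p) + (b i q * q.1, b i q * q.2, b i q)
          = (c i r * r.1, c i r * r.2, c i r) := by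
        refine Prod.ext ?_ (Prod.ext ?_ ?_)
        · exact h11.symm
        · exact h12.symm
        · exact h2.symm
      show (a i p * p.1, a i p * p.2, a i p) + (b i q * q.1, b i q * q.2, b i q) ∈ wup P (c i)
      rw [he]
      exact hmem (c i) r hr hc
    · show affineSpan ℝ {MPair_back (a i p * p.1, a i p * p.2, a i p), MPair_back (b i q * q.1, b i q * q.2, b i q)} = L
      rw [MPair_back_eq _ _ ha, MPair_back_eq _ _ hb]
      exact MPair_line_eq L hL p q hpL hqL hpq
  have hcard : (massLines K P a b c).ncard ≤ ∑ i : Fin K, (C i).card := by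
    calc (massLines K P a b c).ncard ≤ (((((Finset.univ : Finset (Fin K)).sigma C).image g :
          Finset (AffineSubspace ℝ (ℝ × ℝ))) : Set (AffineSubspace ℝ (ℝ × ℝ)))).ncard :=
            Set.ncard_le_ncard hsub (Finset.finite_toSet _)
      _ = (((Finset.univ : Finset (Fin K)).sigma C).image g).card := Set.ncard_coe_finset _
      _ ≤ ((Finset.univ : Finset (Fin K)).sigma C).card := Finset.card_image_le
      _ = ∑ i : Fin K, (C i).card := Finset.card_sigma _ _
  have hcard' : ((massLines K P a b c).ncard : ℝ) ≤ ∑ i : Fin K, ((C i).card : ℝ) := by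
    exact_mod_cast hcard
  have hn : (0 : ℝ) < (P.card : ℝ) := by exact_mod_cast hP.card_pos
  have hpos : (0 : ℝ) < α * (P.card : ℝ) ^ 2 := by positivity
  by_contra hcon
  push Not at hcon
  have hlt : ∀ i ∈ (Finset.univ : Finset (Fin K)), ((C i).card : ℝ) < α / K * (P.card : ℝ) ^ 2 :=
    fun i _ => hcon i
  rcases Finset.eq_empty_or_nonempty (Finset.univ : Finset (Fin K)) with h0 | hne
  · rw [h0, Finset.sum_empty] at hcard'
    linarith
  · have hs := Finset.sum_lt_sum_of_nonempty hne hlt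
    rw [Finset.sum_const, nsmul_eq_mul, Finset.card_univ, Fintype.card_fin] at hs
    have hK : (0 : ℝ) < (K : ℝ) := by
      have h1 := hne.card_pos
      rw [Finset.card_univ, Fintype.card_fin] at h1
      exact_mod_cast h1
    have h2 : (K : ℝ) * (α / K * (P.card : ℝ) ^ 2) = α * (P.card : ℝ) ^ 2 := by field_simp
    linarith

end Pool.Agent.MAS
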