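import Mathlib

/-!
# MP_95b053_co, project MAS (architect helper33): mass systems, sharp exponent

THEOREM. There is an absolute constant c (= 1/2000) such that for all α > 0, K there is n0 with: if P is a set of n ≥ n0 points
of the plane and at least α n^2 lines contain three different points p, q, r of P with c_i(r) r^ = a_i(p) p^ + b_i(q) q^,
c_i(r) ≠ 0, for some i < K (p^ = (p, 1) ∈ ℝ^3; a_i, b_i, c_i arbitrary real functions), then some line contains at least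
n^(c/log2(2K/α)) points of P.

PLAN. The pairs (p, q) give finite sets A, B, C in ℝ^3 with many sums a + b ∈ C, so (Balog-Szemeredi-Gowers, on main) a set
V ⊆ {a_i(p) p^} with |V| ≥ c n and |V - V| ≤ K' |V|, K' a power of K/α; points of V on a line come from points of P on a line. So
everything follows from

FREIMAN-BILU (S_Fin). V ⊆ ℝ^3 finite, |V - V| ≤ K |V|: some line contains at least |V|^(1/(1 + 8 log2 K))/C0(K) points of V.

PROOF (elementary, with normed lattices (ℤ^d, p)). Bogolyubov's lemma (on main) and a reduced basis (S_Basis) give a progression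
φ(box) ⊆ 2V - 2V, φ : ℤ^d → ℝ^3 a homomorphism, with at least c(K)|V| elements (S_Prog), so V ⊆ X + φ(B_1) with |X| ≤ C,
|φ(B_1)| ≤ C |V| (Ruzsa covering; S_Start), B_R = {z : p z ≤ R} (Dat). As long as φ is not injective on a large ball we pass to a quotient
ℤ^d/v (S_Red1), as long as the short vectors do not span we pass to a sublattice of rank d - 1 (S_Red2): C grows, d drops. At the
end φ is injective on a large ball and there are d independent very short vectors. Then 2^((d-1)/4) |V| ≤ |V + V| (S_Grow: compressions), so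
d ≤ 1 + 4 log2 (K^2), and a pigeonhole modulo k in B_1 gives a vector w ≠ 0 with p(w) ≤ 2/k, k about |B_1|^(1/d), hence a long
progression in B_1 and many points of V on a line (S_Ape).

RULES. Module X: file Pool/Agent/Lib/MP_95b053_co/MAS/X.lean, first line `import Pool.Agent.Lib.MP_95b053_co.MAS.Spec`, then
`namespace Pool.Agent.MAS`, `open Finset`, `open scoped Pointwise`, private lemmas with names starting with X_, final theorem
`theorem rX (h1 : S_A) ... : S_X` where the hypotheses are the statements listed under Uses, in this order. All modules are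
independent. No sorry, standard axioms only, no straight double quotes, never the bang versions of congr and convert; module below 60 s.
-/

set_option autoImplicit false

namespace Pool.Agent.MAS

open Finset
open scoped Pointwise

/-! ## Normed lattices -/

/-- `p` is a norm on `ℤ^d` with finite balls. (Consequences: p 0 = 0, p (-x) = p x, 0 ≤ p x; p x = 0 only for x = 0: all multiples of x
are in the ball of radius 0.) -/
def Nrm (d : ℕ) (p : (Fin d → ℤ) → ℝ) : Prop :=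
  (∀ x y, p (x + y) ≤ p x + p y) ∧ (∀ (k : ℤ) (x : Fin d → ℤ), p (k • x) = |(k : ℝ)| * p x) ∧
    ∀ R : ℝ, {x | p x ≤ R}.Finite

/-- torsion-free -/
def TF (G : Type) [AddCommGroup G] : Prop := ∀ (k : ℤ) (g : G), k • g = 0 → k = 0 ∨ g = 0

/-- `v` is a primitive vector -/
def Pri (d : ℕ) (v : Fin d → ℤ) : Prop := v ≠ 0 ∧ ∀ (k : ℤ) (w : Fin d → ℤ), v = k • w → k = 1 ∨ k = -1

/-- **Prim.** Uses: nothing. Proof. g = the gcd of the coordinates (Finset.gcd univ u, or strong induction on the sum of the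
absolute values of the coordinates: if u is not primitive, u = k • w with |k| ≥ 2 or k = 0 impossible). -/
def S_Prim : Prop := ∀ (d : ℕ) (u : Fin d → ℤ), u ≠ 0 → ∃ (g : ℤ) (v : Fin d → ℤ), 1 ≤ g ∧ u = g • v ∧ Pri d v

/-- **Quo.** Uses: nothing. Proof. N = span {v} in L = ℤ^(d+1). L/N is torsion-free: let k x = j v with k ≠ 0; divide k, j by their gcd:
k' x = j' v with k', j' coprime, so k' divides all coordinates of v, v = k' • w, k' = 1 or -1, x ∈ N. A finitely generated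
torsion-free module over ℤ is free (Module.free_of_finite_type_torsion_free' or similar), of rank d + 1 - 1 (finrank of quotient, finrank of
span {v} is 1): L/N ≃ ℤ^d. π = the equivalence after the quotient map. -/
def S_Quo : Prop := ∀ (d : ℕ) (v : Fin (d + 1) → ℤ), Pri (d + 1) v →
  ∃ π : (Fin (d + 1) → ℤ) →+ (Fin d → ℤ), Function.Surjective π ∧ ∀ x, π x = 0 ↔ ∃ j : ℤ, x = j • v

/-- **Ker.** Uses: nothing. Proof. The kernel of ℓ is a submodule of a free module of rank d + 1 over a PID, so free, of rank d + 1 - 1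
(the range of ℓ is a nonzero submodule of ℤ, of rank 1). -/
def S_Ker : Prop := ∀ (d : ℕ) (l : (Fin (d + 1) → ℤ) →+ ℤ), l ≠ 0 →
  ∃ ι : (Fin d → ℤ) →+ (Fin (d + 1) → ℤ), Function.Injective ι ∧ ∀ x, l x = 0 ↔ ∃ y, ι y = x

/-- **Fl.** Uses: nothing. Proof. Over ℚ: if the span of the image of S in ℚ^d is everything, it contains a basis consisting of elements of
S (exists_linearIndependent..., Submodule spanning sets contain a basis; d elements), linearly independent over ℚ and so over ℤ.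
Otherwise some nonzero linear functional on ℚ^d vanishes on S; multiply it by a common denominator of its values on the standard basis. -/
def S_Fl : Prop := ∀ (d : ℕ) (S : Set (Fin d → ℤ)),
  (∃ b : Fin d → (Fin d → ℤ), LinearIndependent ℤ b ∧ ∀ i, b i ∈ S) ∨
    ∃ l : (Fin d → ℤ) →+ ℤ, l ≠ 0 ∧ ∀ z ∈ S, l z = 0

/-- **QNorm.** Uses: nothing. Proof. For y ∈ ℤ^d let S_y = {p x/k : k ≥ 1 a natural number, π x = k • y} (not empty, ≥ 0) and p' y = sInf S_y.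
(a) p' (π x) ≤ p x: k = 1. (b) π x = k y, π x' = k' y' imply π (k' x + k x') = k k' (y + y') and p (k' x + k x')/(k k') ≤ p x/k + p x'/k'.
(c) p' (m y) = |m| p' y: m = 0 clear (x = 0); m ≠ 0: π x = k y implies π (m x) = k (m y); and π x = k (m y) implies π (± x) = (k |m|) y.
(d) Lifts. Let ε > 0 and π x = k y, p x ≤ k (p' y + ε), π x0 = y. x - k x0 = j • v. Write j = k q + r, |r| ≤ k/2. z = x0 + q v: π z = y and
k z = x - r v, so k p z ≤ p x + |r| p v ≤ k (p' y + ε + p v/2). The set {x : π x = y, p x ≤ p' y + p v/2 + 1} is finite and not empty; its element of smallest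
norm has p x ≤ p' y + p v/2 + ε for all ε ∈ (0,1]. (e) {y : p' y ≤ R} ⊆ π {x : p x ≤ R + p v/2} is finite. -/
def S_QNorm : Prop := ∀ (d : ℕ) (p : (Fin (d + 1) → ℤ) → ℝ) (v : Fin (d + 1) → ℤ)
    (π : (Fin (d + 1) → ℤ) →+ (Fin d → ℤ)), Nrm (d + 1) p → Function.Surjective π →
  (∀ x, π x = 0 ↔ ∃ j : ℤ, x = j • v) →
  ∃ p' : (Fin d → ℤ) → ℝ, Nrm d p' ∧ (∀ x, p' (π x) ≤ p x) ∧ ∀ y, ∃ x, π x = y ∧ p x ≤ p' y + p v / 2

/-- **Basis.** Uses: S_Prim, S_Quo, S_QNorm. Proof. Induction on d; d = 0: one point. d + 1: let v ≠ 0 have the smallest norm (balls are finite). v is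
primitive (v = g • w with w primitive, Prim: p w ≥ p v = g p w gives g = 1). π, p' from Quo, QNorm; b'_i the vectors for (d, p'); b_i a lift
of b'_i with p b_i ≤ p' b'_i + p v/2. b_i ≠ 0, so p v ≤ p b_i, so p b_i ≤ 2 p' b'_i. The vectors b_i, v are independent (apply π).
Every y with p' y ≤ R has at most 1 + 2R/p v lifts x with p x ≤ R (two lifts differ by j v with |j| p v ≤ 2R). So |B_R| ≤ |B'_R| (1 + 2R/p v) ≤
2^(d^2) ∏ (1 + R/p' b'_i) 2 (1 + R/p v) ≤ 2^(d^2) 2^d ∏ (1 + R/p b_i) 2 (1 + R/p v), and d^2 + d + 1 ≤ (d+1)^2. -/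
def S_Basis : Prop := ∀ (d : ℕ) (p : (Fin d → ℤ) → ℝ), Nrm d p →
  ∃ b : Fin d → (Fin d → ℤ), LinearIndependent ℤ b ∧
    ∀ R : ℝ, 0 ≤ R → ({x | p x ≤ R}.ncard : ℝ) ≤ 2 ^ (d ^ 2) * ∏ i, (1 + R / p (b i))

/-- **Gro.** Uses: nothing. Proof. Induction on m; one step: B = {p ≤ 2R'}, R' = 2^m R. If x, y ∈ B are congruent modulo 4 (all coordinates) then
x - y = 4 z with p z ≤ 4R'/4. There are 4^d classes (Fin d → ZMod 4); choose a representative x_c ∈ B of every class which meets B. The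
map from φ(B) to pairs (class, element of φ{p ≤ R'}): φ(y) = φ(x_c) + 4 • φ(z). So φ(B) ⊆ ⋃_c (φ x_c + 4 • φ{p ≤ R'}). -/
def S_Gro : Prop := ∀ (G : Type) [AddCommGroup G] (d m : ℕ) (p : (Fin d → ℤ) → ℝ)
    (φ : (Fin d → ℤ) →+ G) (R : ℝ), Nrm d p → 0 ≤ R →
  ((φ '' {z | p z ≤ 2 ^ m * R}).ncard : ℝ) ≤ 4 ^ (d * m) * ((φ '' {z | p z ≤ R}).ncard : ℝ)

/-! ## Structures -/

/-- `A` is covered by at most `C` translates of `φ(B_1)`, and `φ(B_1)` has at most `C |A|` elements. -/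
def Dat {G : Type} [AddCommGroup G] (A : Finset G) (d : ℕ) (C : ℝ) (p : (Fin d → ℤ) → ℝ)
    (φ : (Fin d → ℤ) →+ G) (X : Finset G) : Prop :=
  Nrm d p ∧ (X.card : ℝ) ≤ C ∧ (∀ a ∈ A, ∃ x ∈ X, ∃ z, p z ≤ 1 ∧ a = x + φ z) ∧
    ((φ '' {z | p z ≤ 1}).ncard : ℝ) ≤ C * A.card

/-- **Red1** (quotient). Uses: S_Prim, S_Quo, S_QNorm, S_Gro. Proof. u = g • v, v primitive, p v ≤ p u ≤ 2t, g • φ v = 0, so φ v = 0 (TF). π, p' from Quo, QNorm; φ' with
φ' (π x) = φ x (well defined: the kernel of π is ℤ v; e.g. by a section and the universal property). X' = X. Covering: p' (π z) ≤ p z ≤ 1. Every y with p' y ≤ 1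
has a lift z with p z ≤ 1 + t ≤ 2^m, so φ'{p' ≤ 1} ⊆ φ{p ≤ 2^m}, at most 4^((d+1)m) C |A| elements (Gro, R = 1). -/
def S_Red1 : Prop := ∀ (G : Type) [AddCommGroup G] (A : Finset G) (d m : ℕ) (C t : ℝ)
    (p : (Fin (d + 1) → ℤ) → ℝ) (φ : (Fin (d + 1) → ℤ) →+ G) (X : Finset G), TF G → 0 ≤ C → 1 + t ≤ 2 ^ m →
  Dat A (d + 1) C p φ X → (∃ u, u ≠ 0 ∧ p u ≤ 2 * t ∧ φ u = 0) →
  ∃ (p' : (Fin d → ℤ) → ℝ) (φ' : (Fin d → ℤ) →+ G), Dat A d (C * 4 ^ ((d + 1) * m)) p' φ' X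

/-- **Red2** (sublattice). Uses: S_Ker, S_Gro. Proof. ι from Ker, p' y = p (ι y)/2 (a norm), φ' = φ ∘ ι. The values of l on B = {p ≤ 1}: if z, z' ∈ B are congruent modulo k
then z - z' = k w, p w ≤ 2/k ≤ ε, l w = 0, l z = l z'. So l takes at most k^(d+1) values on B; for each value choose y_i ∈ B. z ∈ B with l z = l y_i: z - y_i = ι y, p' y ≤ 1.
X' = X + {φ y_i} has at most C k^(d+1) elements. φ'{p' ≤ 1} ⊆ φ{p ≤ 2}: at most 4^(d+1) C |A| elements (Gro, m = 1). -/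
def S_Red2 : Prop := ∀ (G : Type) [AddCommGroup G] (A : Finset G) (d k : ℕ) (C ε : ℝ)
    (p : (Fin (d + 1) → ℤ) → ℝ) (φ : (Fin (d + 1) → ℤ) →+ G) (X : Finset G) (l : (Fin (d + 1) → ℤ) →+ ℤ),
  0 ≤ C → 1 ≤ k → 2 ≤ ε * k → Dat A (d + 1) C p φ X → l ≠ 0 → (∀ z, p z ≤ ε → l z = 0) →
  ∃ (p' : (Fin d → ℤ) → ℝ) (φ' : (Fin d → ℤ) →+ G) (X' : Finset G),
    Dat A d (C * ((k : ℝ) ^ (d + 1) + 4 ^ (d + 1))) p' φ' X'

/-! ## Growth -/

/-- `F` is down-closed in direction `i` (and has coordinates `≥ 0` there) -/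
def Dwn (d : ℕ) (i : Fin d) (F : Finset (Fin d → ℤ)) : Prop :=
  ∀ x ∈ F, 0 ≤ x i ∧ (1 ≤ x i → Function.update x i (x i - 1) ∈ F)

/-- **Cmp** (one compression). Uses: nothing. `F.image (fun x => Function.update x j 0)` =: π_j F has one element for every line in direction j meeting F.
Proof. F' = c_i(F): every fibre {t : update u i t ∈ F} (u ∈ π_i F, so u_i = 0) is replaced by {0, .., f_u - 1}, f_u its cardinality, f_u = 0 if u ∉ π_i F. (1) |c_i F| = |F| (sum over u ∈ π_i F).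
(2) |c_i F + c_i F| ≤ |F + F|: the fibre of c_i F + c_i F over w is {0, .., max (f_u + f_u' - 2)} (maximum over u + u' = w, both fibres nonempty; attained at some u, u'), and the fibre of F + F over w contains the sumset of the two fibres, at least f_u + f_u' - 1 elements
(for finite nonempty sets of integers |X + Y| ≥ |X| + |Y| - 1, Mathlib: cauchy_davenport_add_of_linearOrder_isCancelAdd); both sets have the same base points w. (3) c_i F is i-down by construction. (4) F j-down, j ≠ i: the coordinates j are ≥ 0; for u with u_j ≥ 1 and u' = u - e_j: f_u' ≥ f_u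
(t in the fibre over u implies t in the fibre over u'), so c_i F is j-down. (5) j = i: π_i (c_i F) = π_i F. j ≠ i: π_j (c_i F) ⊆ c_i (π_j F) (the fibre of π_j F over update u j 0 contains the fibre of F over u), which has |π_j F| elements by (1). -/
def S_Cmp : Prop := ∀ (d : ℕ) (i : Fin d) (F : Finset (Fin d → ℤ)), ∃ F' : Finset (Fin d → ℤ),
  F'.card = F.card ∧ (F' + F').card ≤ (F + F).card ∧ Dwn d i F' ∧ (∀ j, j ≠ i → Dwn d j F → Dwn d j F') ∧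
    ∀ j, (F'.image (fun x => Function.update x j 0)).card ≤ (F.image (fun x => Function.update x j 0)).card

/-- **Comp** (compressions). Uses: S_Cmp. Proof. Apply Cmp for i = 0, .., d-1 in turn (induction over a finset or list of directions): F' with |F'| = |F|, |F' + F'| ≤ |F + F|, |π_j F'| ≤ |π_j F|, j-down for all j. A point x ∈ F' with x_j = 0 is update x j 0 ∈ π_j F', so there are at most |F|/(2d) such points,
and F1 = {x ∈ F' : 1 ≤ x_j for all j} has at least |F|/2 elements (d ≥ 1; d = 0 is trivial: |F| ≤ 1). For x ∈ F1 and a set I of directions x - 1_I ∈ F' (remove the coordinates of I one after another). The map (x, I) ↦ x + (x - 1_I) ∈ F' + F' is injective (parity of the coordinates): |F' + F'| ≥ 2^d |F1|. -/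
def S_Comp : Prop := ∀ (d : ℕ) (F : Finset (Fin d → ℤ)),
  (∀ i : Fin d, 2 * d * (F.image (fun x => Function.update x i 0)).card ≤ F.card) →
  2 ^ d * F.card ≤ 2 * (F + F).card

/-- **Ruz.** Uses: nothing. Proof. Ruzsa's triangle inequality for sums (Finset.ruzsa_triangle_inequality_add_add_add or the like, from Pluennecke-Petridis):
|E + E| |F| ≤ |E + F|^2. So |E + F|^2 ≥ σ |E| |F| ≥ σ |F|^2. -/
def S_Ruz : Prop := ∀ (G : Type) [AddCommGroup G] [DecidableEq G] (E F : Finset G) (σ : ℝ), 0 ≤ σ →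
  F.Nonempty → F.card ≤ E.card → σ ^ 2 * E.card ≤ (E + E).card → σ * F.card ≤ (E + F).card

/-- **Cos** (one coset). Uses: S_Comp. The set E0 lies in one coset x0 + M, M = the span of b. Proof. E0 = {x0 + ∑ f_i b_i : f ∈ F}, f ↦ x0 + ∑ f_i b_i is injective, |F| = |E0|,
|F + F| = |E0 + E0|. For a direction i and every line in direction i meeting F choose a point of F on it; the point x of E0 belonging to it has p x ≤ R, and
x + j b_i, 0 ≤ j ≤ ⌊R/ε⌋, is in x0 + M with p ≤ 2R; all these points are different. So |π_i F| (R/ε) ≤ |π_i F| (⌊R/ε⌋ + 1) ≤ #{x ∈ x0 + M : p x ≤ 2R} ≤ D |E0|, and 2 d D ε ≤ R gives 2 d |π_i F| ≤ |F|. Comp. -/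
def S_Cos : Prop := ∀ (d : ℕ) (p : (Fin d → ℤ) → ℝ) (b : Fin d → (Fin d → ℤ)) (E0 : Finset (Fin d → ℤ))
    (x0 : Fin d → ℤ) (R ε D : ℝ), Nrm d p → LinearIndependent ℤ b → 0 < ε → 0 < R → (∀ i, p (b i) ≤ ε) →
  (∀ x ∈ E0, p x ≤ R ∧ x - x0 ∈ Submodule.span ℤ (Set.range b)) →
  ({x | p x ≤ 2 * R ∧ x - x0 ∈ Submodule.span ℤ (Set.range b)}.ncard : ℝ) ≤ D * E0.card →
  2 * d * D * ε ≤ R → 2 ^ d * E0.card ≤ 2 * (E0 + E0).card

/-- **Den** (dense sets grow). Uses: S_Gro, S_Ruz, S_Cos. Proof. M = span of b. Split E into its pieces E_c, c ∈ ℤ^d/M; q = the number of nonempty pieces; E_0 a piece with the most elements, so |E| ≤ q |E_0|.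
Let Q = {x ∈ x0 + M : p x ≤ 2R}, x0 ∈ E_0. Q - x0 ⊆ M ∩ {p ≤ 4R}. For every nonempty piece choose y_c ∈ E_c (p y_c ≤ R): the sets y_c + (M ∩ {p ≤ 4R}) are disjoint and in {p ≤ 5R}. So
q |Q| ≤ |{p ≤ 5R}| ≤ |{p ≤ 8R}| ≤ 4^(3d) |{p ≤ R}| ≤ 4^(3d) D |E| ≤ 4^(3d) D q |E_0| (Gro with φ = id, m = 3), |Q| ≤ 4^(3d) D |E_0|. Cos (with 4^(3d) D for D) gives |E_0 + E_0| ≥ 2^(d-1) |E_0|. Ruz with
σ = 2^((d-1)/2) (real power): |E_0 + E_c| ≥ σ |E_c| for all nonempty pieces. The sets E_0 + E_c are disjoint (different cosets): |E + E| ≥ σ |E|. (d = 0: σ < 1 and |E + E| ≥ |E|; the argument above works as well.) -/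
def S_Den : Prop := ∀ (d : ℕ) (p : (Fin d → ℤ) → ℝ) (b : Fin d → (Fin d → ℤ)) (E : Finset (Fin d → ℤ))
    (R ε D : ℝ), Nrm d p → LinearIndependent ℤ b → 0 < ε → 0 < R → 0 ≤ D → (∀ i, p (b i) ≤ ε) → (∀ x ∈ E, p x ≤ R) →
  ({x | p x ≤ R}.ncard : ℝ) ≤ D * E.card → 2 * d * (4 ^ (3 * d) * D) * ε ≤ R →
  (2 : ℝ) ^ (((d : ℝ) - 1) / 2) * E.card ≤ (E + E).card

/-- **Clu** (clusters). Uses: nothing. Proof. Consider the pairs (Y, R) with Y ⊆ X, 1 ≤ R ≤ 5^(|X| - |Y|) and A ⊆ Y + φ{p ≤ R}; (X, 1) is one. Take one with |Y| smallest. If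
y ≠ y' in Y and y = y' + φ z, p z ≤ 4R, then y' + φ{p ≤ R} ⊆ y + φ{p ≤ 5R} (y' + φ w = y + φ (w - z)), so (Y - {y'}, 5R) is also one: contradiction. -/
def S_Clu : Prop := ∀ (G : Type) [AddCommGroup G] (A : Finset G) (d : ℕ) (p : (Fin d → ℤ) → ℝ)
    (φ : (Fin d → ℤ) →+ G) (X : Finset G), Nrm d p → (∀ a ∈ A, ∃ x ∈ X, ∃ z, p z ≤ 1 ∧ a = x + φ z) →
  ∃ (Y : Finset G) (R : ℝ), Y ⊆ X ∧ 1 ≤ R ∧ R ≤ 5 ^ X.card ∧
    (∀ a ∈ A, ∃ y ∈ Y, ∃ z, p z ≤ R ∧ a = y + φ z) ∧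
    ∀ y ∈ Y, ∀ y' ∈ Y, y ≠ y' → ∀ z, p z ≤ 4 * R → y ≠ y' + φ z

/-- **Grow.** Uses: S_Gro, S_Ruz, S_Den, S_Clu. Proof. Y, R from Clu (|X| ≤ N, R ≤ 5^N). A_y = {a ∈ A : a ∈ y + φ{p ≤ R}}; they cover A and are disjoint (a = y + φ z = y' + φ z' gives y = y' + φ (z' - z), norm ≤ 2R). Let y0 have the
largest |A_y0|: |A| ≤ N |A_y0|. E = {z : p z ≤ R, y0 + φ z ∈ A}: φ is injective on {p ≤ 2·5^N}, so |E| = |A_y0|, |E + E| = |A_y0 + A_y0| (= |2 y0 + φ(E + E)|). |{p ≤ R}| ≤ |{p ≤ 2^(3N)}| and φ is injective on {p ≤ R}, so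
|{p ≤ R}| = |φ{p ≤ R}| ≤ 4^(3dN) |φ{p ≤ 1}| ≤ 4^(3dN) N |A| ≤ 4^(3dN) N^2 |E| =: D |E| (Gro with m = 3N, 2^(3N) ≥ 5^N ≥ R). Den (R ≥ 1): |A_y0 + A_y0| ≥ 2^((d-1)/2) |A_y0|. Ruz (σ = 2^((d-1)/4)): |A_y0 + A_y| ≥ σ |A_y| for
all y with A_y nonempty. The sets A_y0 + A_y are disjoint for different y (y0 + y + φ z = y0 + y' + φ z', norms ≤ 2R, gives y = y' + φ(z' - z), norm ≤ 4R). Sum: |A + A| ≥ σ |A|. -/
def S_Grow : Prop := ∀ (G : Type) [AddCommGroup G] [DecidableEq G] (A : Finset G) (d N : ℕ) (ε : ℝ)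
    (p : (Fin d → ℤ) → ℝ) (φ : (Fin d → ℤ) →+ G) (X : Finset G) (b : Fin d → (Fin d → ℤ)), A.Nonempty →
  Dat A d N p φ X → (∀ z z', p z ≤ 2 * 5 ^ N → p z' ≤ 2 * 5 ^ N → φ z = φ z' → z = z') →
  LinearIndependent ℤ b → 0 < ε → (∀ i, p (b i) ≤ ε) →
  2 * d * (4 ^ (3 * d) * (4 ^ (3 * d * N) * (N : ℝ) ^ 2)) * ε ≤ 1 →
  (2 : ℝ) ^ (((d : ℝ) - 1) / 4) * A.card ≤ (A + A).card

/-- **Ape** (many points on a line). Uses: S_Gro. Proof. d ≥ 1. If |A| ≤ N take T = {a0}, v = 0. Otherwise |B_1| ≥ |φ B_1| ≥ |A|/N > 1 (B_R = {p ≤ R}; A ⊆ X + φ B_1, |X| ≤ N). Let k ≥ 1 be the largest natural number with k^d < |B_1|, so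
|A|/N ≤ |B_1| ≤ (k+1)^d ≤ (2k)^d. Two different elements of B_1 are congruent modulo k (k^d classes): z - z' = k w, w ≠ 0, p w ≤ 2/k. Choose x0 ∈ X such that E = {z ∈ B_1 : x0 + φ z ∈ A} has |E| ≥ |A|/N (φ is injective on B_1). J = {0, .., ⌊k/2⌋}: z + j w ∈ B_2 for
z ∈ E, j ∈ J. |E| |J| pairs, |B_2| ≤ 4^d |φ B_1| ≤ 4^d N |A| values (Gro, m = 1; φ is injective on B_2), so some value s has at least (|A|/N)(k/2)/(4^d N |A|) = k/(2·4^d N^2) pairs; they give different z = s - j w ∈ E (w ≠ 0, so the z are different for different j). T = x0 + φ of these z,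
v = φ w, a0 any element of T. |A| ≤ N (2k)^d ≤ N (4^(d+1) N^2 |T|)^d ≤ (4^(d+1) N^3 |T|)^d. -/
def S_Ape : Prop := ∀ (G : Type) [AddCommGroup G] (A : Finset G) (d N : ℕ)
    (p : (Fin d → ℤ) → ℝ) (φ : (Fin d → ℤ) →+ G) (X : Finset G), A.Nonempty → 1 ≤ d → 1 ≤ N →
  Dat A d N p φ X → (∀ z z', p z ≤ 2 → p z' ≤ 2 → φ z = φ z' → z = z') →
  ∃ (a0 v : G) (T : Finset G), T ⊆ A ∧ T.Nonempty ∧ (∀ q ∈ T, ∃ j : ℤ, q = a0 + j • v) ∧
    (A.card : ℝ) ≤ (4 ^ (d + 1) * (N : ℝ) ^ 3 * T.card) ^ d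

/-- **Fre.** Uses: S_Red1, S_Red2, S_Fl, S_Grow, S_Ape. Proof. Induction on d, for all C. θ = 1/(1 + 4 log2 K), 0 < θ ≤ 1. d = 0: ℤ^0 is a point, so |A| ≤ |X| ≤ C; T = {a}, C0 = max C 1. d + 1: let N be a natural number ≥ max C 1, t = 2·5^N, 1 + t ≤ 2^m, ε = 1/(2 (d+1) 4^(3(d+1)) 4^(3(d+1)N) N^2),
k natural with 2 ≤ ε k. (1) If φ is not injective on {p ≤ t}: z ≠ z', φ z = φ z', u = z - z', p u ≤ 2t: Red1 and induction. (2) Otherwise Fl for S = {p ≤ ε}: if l exists: Red2 and induction. (3) Otherwise b exists: Grow gives 2^(d/4) |A| ≤ |A + A| ≤ K |A|, so d ≤ 4 log2 K,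
1/(d+1) ≥ θ, and Ape gives |A| ≤ (c |T|)^(d+1), so |A|^θ ≤ |A|^(1/(d+1)) ≤ c |T|, c = 4^(d+2) N^3. C0 = the maximum of the three constants. (Dat A (d+1) C implies Dat A (d+1) N.) -/
def S_Fre : Prop := ∀ (d : ℕ) (K C : ℝ), 1 ≤ K → ∃ C0 : ℝ, 0 < C0 ∧
  ∀ (G : Type) [AddCommGroup G] [DecidableEq G] (A : Finset G) (p : (Fin d → ℤ) → ℝ)
    (φ : (Fin d → ℤ) →+ G) (X : Finset G), TF G → A.Nonempty → ((A + A).card : ℝ) ≤ K * A.card → Dat A d C p φ X →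
  ∃ (a0 v : G) (T : Finset G), T ⊆ A ∧ (∀ q ∈ T, ∃ j : ℤ, q = a0 + j • v) ∧
    (A.card : ℝ) ^ (1 / (1 + 4 * Real.logb 2 K)) ≤ C0 * T.card

/-! ## The initial structure -/

/-- the Bohr set -/
def Bohr {D : ℕ} (N : ℕ) (r : Fin D → ℕ) (T : ℤ) : Prop := ∀ i, ∃ m : ℤ, |(r i : ℝ) * T / N - m| ≤ 1 / 4

/-- **Loc.** Uses: nothing (but the theorems rFun, rCirc, rBog, rPos, rThick of Lib/MP_95b053_co, files Fun, Circ, Bog, Pos, Thick, namespace Pool.Agent.RR95, may be imported and used). MODEL: Lib/MP_95b053_co/AP.lean and Core0.lean (copy).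
Proof. n = |V|, 1 ≤ K (|V| ≤ |V - V|). S = 6V - 6V, |S| ≤ K^12 n (as in AP.lean); η = 1/(4 K^12 n) ≤ 1/4; f a linear functional with f y ≠ 0 for nonzero y ∈ S (rFun); rCirc for the nonzero elements of f(S): s with |s f y - k| ≥ η for all nonzero y ∈ S and integers k.
A = s f(V) has n elements; 6A - 6A = s f(6V - 6V). N natural with 1000 ≤ η N. rThick: E ⊆ ZMod N with n η N/13 ≤ |E|. rBog with α = n η/13 = 1/(52 K^12): a set R of residues, |R| ≤ 2/α^2 = 5408 K^24. D = |R|, r an enumeration of the values (ZMod.val) of R. If Bohr N r T then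
(rPos) the characters have nonnegative real part at T, so (rBog, rThick (2)) there are x1, .., x4 ∈ A and k with |T - N (x1 + x2 - x3 - x4) - N k| ≤ η N/6 + 2 =: τ; x_i = s f(v_i), Y T = v1 + v2 - v3 - v4 ∈ 2V - 2V: |T - N s f(Y T) - N k_T| ≤ τ. (b) Y(T+T') - Y T - Y T' ∈ 6V - 6V and
|N s f(..) + N (integer)| ≤ 3τ < η N, so it is 0. (c) |T - T' - N (k_T - k_T')| ≤ 2τ = η N/3 + 4. -/
def S_Loc : Prop := ∀ (V : Finset (ℝ × ℝ × ℝ)) (K : ℝ), V.Nonempty → ((V - V).card : ℝ) ≤ K * V.card →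
  ∃ (N D : ℕ) (r : Fin D → ℕ) (η : ℝ) (Y : ℤ → ℝ × ℝ × ℝ), 0 < N ∧ (D : ℝ) ≤ 5408 * K ^ 24 ∧ 0 < η ∧
    η * (4 * K ^ 12 * V.card) = 1 ∧ 1000 ≤ η * N ∧
    (∀ T, Bohr N r T → Y T ∈ 2 • V - 2 • V) ∧
    (∀ T T', Bohr N r T → Bohr N r T' → Bohr N r (T + T') → Y (T + T') = Y T + Y T') ∧
    ∀ T T', Bohr N r T → Bohr N r T' → Y T = Y T' → ∃ k : ℤ, |(T : ℝ) - T' - N * k| ≤ η * N / 3 + 4

/-- **Box.** Uses: nothing. Proof. F : ℤ^(D+1) → ℝ^(D+1) additive, (F z)_0 = z_0/N, (F z)_(i+1) = 4 (r_i z_0/N - z_(i+1)); p z = ‖F z‖ (sup norm of Fin (D+1) → ℝ). Finite balls: |z_0| ≤ R N, then |z_(i+1)| ≤ r_i R + R.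
Last claim: for T ∈ {0, .., N-1} put z_(i+1) = ⌊r_i T/N⌋ and the cell (⌊4 fract (r_i T/N)⌋)_i ∈ {0,..,3}^D: some cell has at least N/4^D of the T (pigeonhole); fix one T0 of this cell. For T, T0 in the same cell the difference z_T - z_T0 has |z_0| ≤ N and
|r_i z_0/N - z_(i+1)| = |fract - fract| ≤ 1/4, so p ≤ 1; different T give different differences. -/
def S_Box : Prop := ∀ (N D : ℕ) (r : Fin D → ℕ), 0 < N →
  ∃ p : (Fin (D + 1) → ℤ) → ℝ, Nrm (D + 1) p ∧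
    (∀ z, p z ≤ 1 → |(z 0 : ℝ)| ≤ N ∧ ∀ i : Fin D, |(r i : ℝ) * z 0 / N - z i.succ| ≤ 1 / 4) ∧
    (N : ℝ) ≤ 4 ^ D * ({z | p z ≤ 1}.ncard : ℝ)

/-- **Prog.** Uses: S_Basis, S_Loc, S_Box. Proof. N, D, r, η, Y from Loc, p from Box, b from Basis (rank D' = D + 1), λ_i = p (b i) > 0. M_i = ⌊1/(D' λ_i)⌋. x_i = Y (b i 0) if M_i ≥ 1 and 0 otherwise. If |j_i| ≤ M_i for all i, z = ∑ j_i b_i has p z ≤ ∑ |j_i| λ_i ≤ 1, so Bohr N r (z 0)
(the integers z (i+1)); the same for all intermediate sums, so by Loc (b) (induction; Y 0 = 0 from (b) with T = T' = 0, Y (-T) = - Y T) ∑ j_i x_i = Y (z 0) ∈ 2V - 2V. Number of values: j ↦ z is injective (independence), z ↦ z 0 is injective on {p ≤ 1} (z (i+1) is the only integer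
within 1/4 of r_i z_0/N), and a value Y(z 0) is taken by at most 5 (2 (η N/3 + 4) + 1) ≤ 4 η N integers z 0 ∈ [-N, N] (Loc (c), |k| ≤ 2; η N ≥ 1000). So #values ≥ ∏ (2 M_i + 1)/(4 η N). 2 M_i + 1 ≥ (1 + 1/(D' λ_i))/2 ≥ (1 + 1/λ_i)/(2D'), so by Basis with R = 1:
∏ (2 M_i + 1) ≥ (2D')^(-D') 2^(-D'^2) |{p ≤ 1}| ≥ (2D')^(-D') 2^(-D'^2) 4^(-D) N. As 1/(4 η) = K^12 |V| ≥ |V|: |V| ≤ C #values, C = (2D')^D' 2^(D'^2) 4^D'. The bound for D depends on K only: take the maximum of C over D ≤ 5408 K^24, and E = ⌈5408 K^24⌉ + 1. -/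
def S_Prog : Prop := ∀ K : ℝ, ∃ (E : ℕ) (C : ℝ), 0 < C ∧ ∀ V : Finset (ℝ × ℝ × ℝ), V.Nonempty →
  ((V - V).card : ℝ) ≤ K * V.card →
  ∃ (d : ℕ) (x : Fin d → ℝ × ℝ × ℝ) (M : Fin d → ℕ), d ≤ E ∧
    (∀ j : Fin d → ℤ, (∀ i, |j i| ≤ M i) → ∑ i, j i • x i ∈ 2 • V - 2 • V) ∧
    (V.card : ℝ) ≤ C * ({y | ∃ j : Fin d → ℤ, (∀ i, |j i| ≤ M i) ∧ y = ∑ i, j i • x i}.ncard : ℝ)

/-- **Start.** Uses: S_Prog. Proof. Q = the set of the values, Q ⊆ 2V - 2V, V + Q ⊆ 3V - 2V, |V + Q| ≤ K^5 |V| ≤ K^5 C |Q| (Finset.pluennecke_ruzsa_inequality_nsmul_sub_nsmul_sub, as in Lib/MP_95b053_co/Line.lean). Ruzsa's covering lemma (Finset.ruzsa_covering_add): V ⊆ X + (Q - Q), |X| ≤ K^5 C.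
p j = max_i |j_i|/L_i with L_i = 2 M_i if M_i ≥ 1 and L_i = 1/2 if M_i = 0 (sup norm of the real vector (j_i/L_i)): a norm, and p j ≤ 1 iff |j_i| ≤ 2 M_i for all i. φ j = ∑ j_i x_i. Q - Q = φ{p ≤ 1} (a vector with |j_i| ≤ 2M_i is a difference of two with ≤ M_i) ⊆ 4V - 4V, at most K^8 |V| elements.
C' = max (K^5 C) (K^8). -/
def S_Start : Prop := ∀ K : ℝ, ∃ (E : ℕ) (C : ℝ), ∀ V : Finset (ℝ × ℝ × ℝ), V.Nonempty →
  ((V - V).card : ℝ) ≤ K * V.card →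
  ∃ (d : ℕ) (p : (Fin d → ℤ) → ℝ) (φ : (Fin d → ℤ) →+ ℝ × ℝ × ℝ) (X : Finset (ℝ × ℝ × ℝ)), d ≤ E ∧ Dat V d C p φ X

/-- **Fin** (Freiman-Bilu for lines). Uses: S_Fre, S_Start. Proof. |V + V| ≤ K^2 |V| (Pluennecke-Ruzsa). Start, then Fre with K^2 and the C of Start, for every d ≤ E (maximum of the finitely many C0): log2 (K^2) = 2 log2 K. ℝ^3 is torsion-free. -/
def S_Fin : Prop := ∀ K : ℝ, 1 ≤ K → ∃ C0 : ℝ, 0 < C0 ∧ ∀ V : Finset (ℝ × ℝ × ℝ), V.Nonempty →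
  ((V - V).card : ℝ) ≤ K * V.card →
  ∃ (a0 v : ℝ × ℝ × ℝ) (T : Finset (ℝ × ℝ × ℝ)), T ⊆ V ∧ (∀ q ∈ T, ∃ s : ℝ, q = a0 + s • v) ∧
    (V.card : ℝ) ^ (1 / (1 + 8 * Real.logb 2 K)) ≤ C0 * T.card

/-! ## Mass systems -/

/-- the lines with three different points p, q, r of P and c_i(r) (r,1) = a_i(p) (p,1) + b_i(q) (q,1) for some i, c_i(r) ≠ 0 -/
def massLines (K : ℕ) (P : Finset (ℝ × ℝ)) (a b c : Fin K → ℝ × ℝ → ℝ) : Set (AffineSubspace ℝ (ℝ × ℝ)) :=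
  {L | Module.finrank ℝ L.direction = 1 ∧ ∃ i : Fin K, ∃ p ∈ P, ∃ q ∈ P, ∃ r ∈ P, p ∈ L ∧ q ∈ L ∧ r ∈ L ∧
    p ≠ q ∧ p ≠ r ∧ q ≠ r ∧ c i r ≠ 0 ∧ c i r • r = a i p • p + b i q • q ∧ c i r = a i p + b i q}

open Classical in
/-- the vectors w(p) (p, 1), w(p) ≠ 0 -/
noncomputable def wup (P : Finset (ℝ × ℝ)) (w : ℝ × ℝ → ℝ) : Finset (ℝ × ℝ × ℝ) :=
  (P.filter (fun p => w p ≠ 0)).image (fun p => (w p * p.1, w p * p.2, w p))

/-- **MPair.** Uses: nothing. MODEL: Lib/MP_95b053_co/Pairs.lean. Proof. For every L in massLines choose i, p, q, r. a_i(p) ≠ 0: otherwise c r^ = b q^, c ≠ 0, the third coordinates give c = b, so r = q; in the same way b_i(q) ≠ 0. L is determined by (i, p, q) (p ≠ q), so the number of lines is at most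
∑_i #{(p,q) : a_i p, b_i q ≠ 0, sum of the two vectors in wup P (c_i)} (massLines is finite: it injects into Fin K × P × P); pigeonhole over i (K ≥ 1 because the left side is positive). p ↦ w(p) (p,1) is injective on w ≠ 0 (third coordinate, then divide). -/
def S_MPair : Prop := ∀ (K : ℕ) (P : Finset (ℝ × ℝ)) (a b c : Fin K → ℝ × ℝ → ℝ) (α : ℝ), P.Nonempty → 0 < α →
  α * (P.card : ℝ) ^ 2 ≤ ((massLines K P a b c).ncard : ℝ) →
  ∃ i : Fin K, α / K * (P.card : ℝ) ^ 2 ≤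
    (((wup P (a i) ×ˢ wup P (b i)).filter fun z => z.1 + z.2 ∈ wup P (c i)).card : ℝ)

/-- **MBack.** Uses: nothing. MODEL: Lib/MP_95b053_co/Back.lean. Proof. As there: for q = w(y) (y,1) ∈ T the vector (y.1, y.2, 1) lies in the span W of p and v, dim W ≤ 2, so all these y are on one line of the plane; q ↦ y is injective. -/
def S_MBack : Prop := ∀ (P : Finset (ℝ × ℝ)) (w : ℝ × ℝ → ℝ) (p v : ℝ × ℝ × ℝ)
  (T : Finset (ℝ × ℝ × ℝ)), T ⊆ wup P w → (∀ q ∈ T, ∃ s : ℝ, q = p + s • v) →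
  ∃ L : AffineSubspace ℝ (ℝ × ℝ), Module.finrank ℝ L.direction = 1 ∧
    T.card ≤ ((P : Set (ℝ × ℝ)) ∩ (L : Set (ℝ × ℝ))).ncard

/-- **Small2** (Balog-Szemeredi-Gowers for sums; helper33 has it). -/
def S_Small2 : Prop := ∀ (A B C : Finset (ℝ × ℝ × ℝ)) (n α : ℝ), 0 < n → (A.card : ℝ) ≤ n → (B.card : ℝ) ≤ n →
  (C.card : ℝ) ≤ n → 0 < α → α * n ^ 2 ≤ (((A ×ˢ B).filter fun z => z.1 + z.2 ∈ C).card : ℝ) →
  ∃ V ⊆ A, α ^ 2 / 4 * n ≤ V.card ∧ ((V - V).card : ℝ) * α ^ 20 ≤ 2 ^ 23 * V.card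

end Pool.Agent.MAS
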