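import Pool.Agent.Lib.MP_95b053_co.Spec
import Pool.Agent.Lib.MP_95b053_co.MAS.Spec

/-!
# MP_95b053_co, project MAS: assembly of the two lower bounds
-/

set_option autoImplicit false

namespace Pool.Agent.MAS

open Finset Pool.Agent.RR95
open scoped Pointwise

/-- the part of small doubling -/
theorem Main_V (hPair : S_MPair) (hSmall : S_Small2) (K : ℕ) (P : Finset (ℝ × ℝ))
    (a b c : Fin K → ℝ × ℝ → ℝ) (α : ℝ) (hP : P.Nonempty) (hα : 0 < α)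
    (hl : α * (P.card : ℝ) ^ 2 ≤ ((massLines K P a b c).ncard : ℝ)) :
    0 < α / K ∧ α / K ≤ 1 ∧ 1 ≤ K ∧ ∃ i : Fin K, ∃ V ⊆ wup P (a i), V.Nonempty ∧
      (α / K) ^ 2 / 4 * (P.card : ℝ) ≤ V.card ∧
      ((V - V).card : ℝ) ≤ 2 ^ 23 / (α / K) ^ 20 * V.card := by
  obtain ⟨i, hi⟩ := hPair K P a b c α hP hα hl
  have hK : 1 ≤ K := i.pos
  have hK0 : (0 : ℝ) < K := by exact_mod_cast hK
  have hγ : 0 < α / K := div_pos hα hK0
  have hn0 : (0 : ℝ) < P.card := by exact_mod_cast hP.card_pos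
  have hw : ∀ w : ℝ × ℝ → ℝ, ((wup P w).card : ℝ) ≤ P.card := by
    intro w
    have h1 : (wup P w).card ≤ P.card := by
      unfold wup
      exact Finset.card_image_le.trans (Finset.card_filter_le _ _)
    exact_mod_cast h1
  obtain ⟨V, hV, hV1, hV2⟩ := hSmall _ _ _ (P.card : ℝ) (α / K) hn0 (hw (a i)) (hw (b i)) (hw (c i)) hγ hi
  have hVpos : 0 < (V.card : ℝ) := by
    have h1 : 0 < (α / K) ^ 2 / 4 * (P.card : ℝ) := by positivity
    linarith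
  refine ⟨hγ, ?_, hK, i, V, hV, Finset.card_pos.1 (by exact_mod_cast hVpos), hV1, ?_⟩
  · have h1 : (((wup P (a i) ×ˢ wup P (b i)).filter fun z => z.1 + z.2 ∈ wup P (c i)).card : ℝ) ≤
        (P.card : ℝ) ^ 2 := by
      have h2 := Finset.card_filter_le (wup P (a i) ×ˢ wup P (b i)) fun z => z.1 + z.2 ∈ wup P (c i)
      rw [Finset.card_product] at h2
      have h3 : ((((wup P (a i) ×ˢ wup P (b i)).filter fun z => z.1 + z.2 ∈ wup P (c i)).card : ℕ) : ℝ) ≤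
          (((wup P (a i)).card * (wup P (b i)).card : ℕ) : ℝ) := by exact_mod_cast h2
      rw [Nat.cast_mul] at h3
      rw [sq]
      exact h3.trans (mul_le_mul (hw _) (hw _) (Nat.cast_nonneg _) hn0.le)
    have h4 : α / K * (P.card : ℝ) ^ 2 ≤ 1 * (P.card : ℝ) ^ 2 := by
      rw [one_mul]
      exact hi.trans h1
    exact le_of_mul_le_mul_right h4 (by positivity)
  · rw [div_mul_eq_mul_div, le_div_iff₀ (by positivity)]
    exact hV2

/-- Part (1): all `n ≥ 2`. -/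
theorem Main_one (hPair : S_MPair) (hSmall : S_Small2) (hBack : S_MBack) (hAP : S_AP)
    (hLine : S_Line) (hTwo : S_Two) (hNum : S_Num) (K : ℕ) (P : Finset (ℝ × ℝ))
    (a b c : Fin K → ℝ × ℝ → ℝ) (α : ℝ) (hP : 2 ≤ P.card) (hα : 0 < α)
    (hl : α * (P.card : ℝ) ^ 2 ≤ ((massLines K P a b c).ncard : ℝ)) :
    ∃ L : AffineSubspace ℝ (ℝ × ℝ), Module.finrank ℝ L.direction = 1 ∧
      (P.card : ℝ) ^ ((α / (2 * K)) ^ 600) ≤
        (((P : Set (ℝ × ℝ)) ∩ (L : Set (ℝ × ℝ))).ncard : ℝ) := by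
  classical
  have hPne : P.Nonempty := Finset.card_pos.1 (by omega)
  obtain ⟨hγ0, hγ1, hK, i, V, hV, hVne, hVcard, hKV⟩ := Main_V hPair hSmall K P a b c α hPne hα hl
  obtain ⟨L2, hL2d, hL2⟩ := hTwo P hP
  have hbd : ∀ L : AffineSubspace ℝ (ℝ × ℝ),
      ((P : Set (ℝ × ℝ)) ∩ (L : Set (ℝ × ℝ))).ncard ≤ P.card := by
    intro L
    have h := Set.ncard_le_ncard (s := (P : Set (ℝ × ℝ)) ∩ (L : Set (ℝ × ℝ)))
      (t := (P : Set (ℝ × ℝ))) Set.inter_subset_left P.finite_toSet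
    rwa [Set.ncard_coe_finset] at h
  set S : Set ℕ := (fun L : AffineSubspace ℝ (ℝ × ℝ) =>
    ((P : Set (ℝ × ℝ)) ∩ (L : Set (ℝ × ℝ))).ncard) '' {L | Module.finrank ℝ L.direction = 1} with hS
  have hSne : S.Nonempty := ⟨_, L2, hL2d, rfl⟩
  have hSbdd : BddAbove S := by
    refine ⟨P.card, ?_⟩
    rintro _ ⟨L, _, rfl⟩
    exact hbd L
  obtain ⟨L0, hL0d, hL0⟩ := Nat.sSup_mem hSne hSbdd
  have hmax : ∀ L : AffineSubspace ℝ (ℝ × ℝ), Module.finrank ℝ L.direction = 1 →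
      ((P : Set (ℝ × ℝ)) ∩ (L : Set (ℝ × ℝ))).ncard ≤
        ((P : Set (ℝ × ℝ)) ∩ (L0 : Set (ℝ × ℝ))).ncard := by
    intro L hL
    have h1 : ((P : Set (ℝ × ℝ)) ∩ (L : Set (ℝ × ℝ))).ncard ≤ sSup S :=
      le_csSup hSbdd ⟨L, hL, rfl⟩
    exact h1.trans hL0.ge
  refine ⟨L0, hL0d, ?_⟩
  have e : α / (2 * K) = α / K / 2 := by
    rw [div_div, mul_comm]
  rw [e]
  set γ : ℝ := α / K with hγ
  refine hNum (P.card : ℝ) _ γ ?_ ?_ hγ0 hγ1 ?_
  · have : 1 ≤ P.card := by omega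
    exact_mod_cast this
  · have h := hmax L2 hL2d
    exact_mod_cast hL2.trans h
  intro L ρ hL hρ h4
  have h4' : (4 * L) ^ ρ ≤ V.card := by
    have h5 : (((4 * L) ^ ρ : ℕ) : ℝ) ≤ (V.card : ℝ) := by
      rw [Nat.cast_pow]
      exact h4.trans hVcard
    exact_mod_cast h5
  obtain ⟨v, hv, hvj⟩ := hAP V (2 ^ 23 / γ ^ 20) L ρ hVne hKV hρ hL h4'
  obtain ⟨p, _, T, hTV, hTl, hT⟩ := hLine V (2 ^ 23 / γ ^ 20) L v hVne hKV hv hvj
  obtain ⟨L1, hL1d, hL1⟩ := hBack P (a i) p v T (hTV.trans hV) hTl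
  have h6 : (T.card : ℝ) ≤ (((P : Set (ℝ × ℝ)) ∩ (L0 : Set (ℝ × ℝ))).ncard : ℝ) := by
    exact_mod_cast hL1.trans (hmax L1 hL1d)
  exact hT.trans (mul_le_mul_of_nonneg_left h6 (by positivity))

/-- the exponent -/
theorem Main_exp (γ : ℝ) (h0 : 0 < γ) (h1 : γ ≤ 1) :
    1 + 8 * Real.logb 2 (2 ^ 23 / γ ^ 20) ≤ 185 * Real.logb 2 (2 / γ) ∧
      1 ≤ Real.logb 2 (2 / γ) := by
  have e1 : Real.logb 2 (2 ^ 23 / γ ^ 20) = 23 - 20 * Real.logb 2 γ := by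
    rw [Real.logb_div (by positivity) (by positivity), Real.logb_pow, Real.logb_pow,
      Real.logb_self_eq_one (by norm_num)]
    norm_num
  have e2 : Real.logb 2 (2 / γ) = 1 - Real.logb 2 γ := by
    rw [Real.logb_div (by norm_num) h0.ne', Real.logb_self_eq_one (by norm_num)]
  have h2 : Real.logb 2 γ ≤ 0 := Real.logb_nonpos (by norm_num) h0.le h1
  rw [e1, e2]
  constructor
  · nlinarith
  · linarith

/-- Part (2): the sharp exponent. -/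
theorem Main_two (hPair : S_MPair) (hSmall : S_Small2) (hBack : S_MBack) (hFin : S_Fin)
    (K : ℕ) (α : ℝ) (hα : 0 < α) : ∃ n0 : ℕ, ∀ (P : Finset (ℝ × ℝ))
    (a b c : Fin K → ℝ × ℝ → ℝ), n0 ≤ P.card →
    α * (P.card : ℝ) ^ 2 ≤ ((massLines K P a b c).ncard : ℝ) →
    ∃ L : AffineSubspace ℝ (ℝ × ℝ), Module.finrank ℝ L.direction = 1 ∧
      (P.card : ℝ) ^ (1 / (200 * Real.logb 2 (2 * K / α))) ≤
        (((P : Set (ℝ × ℝ)) ∩ (L : Set (ℝ × ℝ))).ncard : ℝ) := by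
  classical
  by_cases hgood : 1 ≤ K ∧ α / K ≤ 1
  swap
  · refine ⟨1, fun P a b c hn hl => ?_⟩
    have hPne : P.Nonempty := Finset.card_pos.1 (by omega)
    obtain ⟨_, h2, h3, _⟩ := Main_V hPair hSmall K P a b c α hPne hα hl
    exact absurd ⟨h3, h2⟩ hgood
  obtain ⟨hK, hγ1⟩ := hgood
  have hK0 : (0 : ℝ) < K := by exact_mod_cast hK
  have hγ0 : 0 < α / K := div_pos hα hK0
  have e : 2 * K / α = 2 / (α / K) := by field_simp
  rw [e]
  set γ : ℝ := α / K with hγ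
  set K' : ℝ := 2 ^ 23 / γ ^ 20 with hK'
  have hK'1 : 1 ≤ K' := by
    rw [hK', le_div_iff₀ (by positivity), one_mul]
    exact (pow_le_one₀ hγ0.le hγ1).trans (by norm_num)
  obtain ⟨hx1, hx2⟩ := Main_exp γ hγ0 hγ1
  set l : ℝ := Real.logb 2 (2 / γ) with hl
  have hlog : 0 ≤ Real.logb 2 K' := Real.logb_nonneg (by norm_num) hK'1
  obtain ⟨C0, hC0, hF⟩ := hFin K' hK'1
  -- the exponents
  set θ : ℝ := 1 / (1 + 8 * Real.logb 2 K') with hθ
  have hθ0 : 0 < θ := by positivity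
  have hθ1 : 1 / (185 * l) ≤ θ := by
    rw [hθ]
    exact one_div_le_one_div_of_le (by positivity) hx1
  set δ : ℝ := 1 / (185 * l) - 1 / (200 * l) with hδ
  have hδ0 : 0 < δ := by
    rw [hδ, sub_pos]
    exact one_div_lt_one_div_of_lt (by positivity) (by nlinarith)
  -- n0
  set B : ℝ := C0 / (γ ^ 2 / 4) ^ θ with hB
  have hB0 : 0 < B := by positivity
  obtain ⟨n0, hn0⟩ := exists_nat_gt (B ^ (1 / δ))
  refine ⟨max n0 1, fun P a b c hn hlines => ?_⟩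
  have hPne : P.Nonempty := Finset.card_pos.1 (by have := (le_max_right n0 1).trans hn; omega)
  obtain ⟨_, _, _, i, V, hV, hVne, hVcard, hKV⟩ := Main_V hPair hSmall K P a b c α hPne hα hlines
  obtain ⟨p, v, T, hTV, hTl, hT⟩ := hF V hVne hKV
  obtain ⟨L1, hL1d, hL1⟩ := hBack P (a i) p v T (hTV.trans hV) hTl
  refine ⟨L1, hL1d, ?_⟩
  have hL1' : (T.card : ℝ) ≤ (((P : Set (ℝ × ℝ)) ∩ (L1 : Set (ℝ × ℝ))).ncard : ℝ) := by
    exact_mod_cast hL1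
  refine le_trans ?_ hL1'
  have hn1 : (1 : ℝ) ≤ P.card := by exact_mod_cast hPne.card_pos
  have hnpos : (0 : ℝ) < P.card := by linarith
  have hnB : B ^ (1 / δ) ≤ P.card := by
    have h1 : n0 ≤ P.card := (le_max_left n0 1).trans hn
    exact hn0.le.trans (by exact_mod_cast h1)
  have h1 : B ≤ (P.card : ℝ) ^ δ := by
    have h2 := Real.rpow_le_rpow (by positivity) hnB hδ0.le
    rwa [← Real.rpow_mul hB0.le, one_div_mul_cancel hδ0.ne', Real.rpow_one] at h2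
  have h3 : (γ ^ 2 / 4 * (P.card : ℝ)) ^ θ ≤ C0 * T.card :=
    (Real.rpow_le_rpow (by positivity) hVcard hθ0.le).trans hT
  rw [Real.mul_rpow (by positivity) hnpos.le] at h3
  have h4 : (P.card : ℝ) ^ (1 / (200 * l)) * (P.card : ℝ) ^ δ ≤ (P.card : ℝ) ^ θ := by
    rw [← Real.rpow_add hnpos]
    refine Real.rpow_le_rpow_of_exponent_le hn1 ?_
    rw [hδ]
    linarith
  have h5 : (P.card : ℝ) ^ (1 / (200 * l)) * B ≤ (P.card : ℝ) ^ θ :=
    (mul_le_mul_of_nonneg_left h1 (by positivity)).trans h4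
  have hg : 0 < (γ ^ 2 / 4) ^ θ := by positivity
  have h6 : (γ ^ 2 / 4) ^ θ * ((P.card : ℝ) ^ (1 / (200 * l)) * B) ≤ C0 * T.card :=
    (mul_le_mul_of_nonneg_left h5 hg.le).trans h3
  have h7 : (γ ^ 2 / 4) ^ θ * ((P.card : ℝ) ^ (1 / (200 * l)) * B) =
      C0 * (P.card : ℝ) ^ (1 / (200 * l)) := by
    rw [hB]
    field_simp
  rw [h7] at h6
  exact le_of_mul_le_mul_left h6 hC0

end Pool.Agent.MAS
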