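import Pool.Agent.Lib.MP_95b053_co.MAS.Spec

set_option autoImplicit false

namespace Pool.Agent.MAS

open Finset

theorem rPrim : S_Prim := by
  intro d u hu
  have hne : (Finset.univ : Finset (Fin d)).Nonempty := by
    by_contra h
    apply hu
    funext i
    exact absurd ⟨i, Finset.mem_univ i⟩ h
  obtain ⟨v, hv, hg⟩ := Finset.extract_gcd (s := (Finset.univ : Finset (Fin d))) u hne
  have huv : u = (Finset.univ.gcd u) • v := by
    funext i
    have := hv i (Finset.mem_univ i)
    simpa [Pi.smul_apply, smul_eq_mul] using this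
  have hg0 : Finset.univ.gcd u ≠ 0 := by
    intro h0
    apply hu
    funext i
    rw [huv]
    simp [h0]
  have hgn : 0 ≤ Finset.univ.gcd u :=
    Int.nonneg_of_normalize_eq_self Finset.normalize_gcd
  refine ⟨Finset.univ.gcd u, v, by omega, huv, ?_, ?_⟩
  · intro h0
    apply hu
    rw [huv, h0]
    simp
  · intro k w hk
    have hdvd : k ∣ Finset.univ.gcd v := by
      refine Finset.dvd_gcd ?_
      intro i _
      refine ⟨w i, ?_⟩
      rw [hk]
      simp [Pi.smul_apply, smul_eq_mul]
    rw [hg] at hdvd
    exact Int.isUnit_iff.mp (isUnit_of_dvd_one hdvd)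

end Pool.Agent.MAS
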