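import Pool.Agent.Lib.MP_95b053_co.MAS.Spec

/-!
# MP_95b053_co, project MAS, module Prog: the progression in `2V - 2V`
-/

set_option autoImplicit false

namespace Pool.Agent.MAS

open Finset
open scoped Pointwise

private lemma Prog_zero {d : ℕ} {p : (Fin d → ℤ) → ℝ} (hp : Nrm d p) : p 0 = 0 := by
  have := hp.2.1 0 0
  simpa using this

private lemma Prog_neg {d : ℕ} {p : (Fin d → ℤ) → ℝ} (hp : Nrm d p) (x : Fin d → ℤ) : p (-x) = p x := by
  have := hp.2.1 (-1) x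
  simpa using this

private lemma Prog_nonneg {d : ℕ} {p : (Fin d → ℤ) → ℝ} (hp : Nrm d p) (x : Fin d → ℤ) : 0 ≤ p x := by
  have h1 := hp.1 x (-x)
  rw [add_neg_cancel, Prog_zero hp, Prog_neg hp] at h1
  linarith

private lemma Prog_pos {d : ℕ} {p : (Fin d → ℤ) → ℝ} (hp : Nrm d p) {x : Fin d → ℤ} (hx : x ≠ 0) : 0 < p x := by
  refine lt_of_le_of_ne (Prog_nonneg hp x) fun h => ?_
  have hinj : Function.Injective fun k : ℤ => k • x := by
    intro k k' hk
    by_contra hne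
    have h1 : (k - k') • x = 0 := by
      rw [sub_smul]
      exact sub_eq_zero.2 hk
    rcases smul_eq_zero.1 h1 with h2 | h2
    · exact hne (sub_eq_zero.1 h2)
    · exact hx h2
  have hfin := hp.2.2 0
  have hinf : (Set.range fun k : ℤ => k • x).Infinite := Set.infinite_range_of_injective hinj
  refine hinf (hfin.subset ?_)
  rintro _ ⟨k, rfl⟩
  show p (k • x) ≤ 0
  rw [hp.2.1, ← h, mul_zero]

private lemma Prog_sum {d : ℕ} {p : (Fin d → ℤ) → ℝ} (hp : Nrm d p) {n : ℕ} (b : Fin n → (Fin d → ℤ))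
    (j : Fin n → ℤ) (s : Finset (Fin n)) : p (∑ i ∈ s, j i • b i) ≤ ∑ i ∈ s, |(j i : ℝ)| * p (b i) := by
  classical
  induction s using Finset.induction_on with
  | empty => simp [Prog_zero hp]
  | insert a s ha ih =>
    rw [sum_insert ha, sum_insert ha]
    refine (hp.1 _ _).trans ?_
    rw [hp.2.1]
    linarith

/-- local additivity: single multiples -/
private lemma Prog_single {d : ℕ} {p : (Fin d → ℤ) → ℝ} (hp : Nrm d p) {A : Type} [AddCommGroup A]
    (g : (Fin d → ℤ) → A)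
    (hg : ∀ z z', p z ≤ 1 → p z' ≤ 1 → p (z + z') ≤ 1 → g (z + z') = g z + g z')
    (b : Fin d → ℤ) (M : ℕ) (hM : (M : ℝ) * p b ≤ 1) (k : ℤ) (hk : |k| ≤ M) :
    g (k • b) = k • (if 1 ≤ M then g b else 0) := by
  have h0 : g 0 = 0 := by
    have h := hg 0 0 (by rw [Prog_zero hp]; norm_num) (by rw [Prog_zero hp]; norm_num)
      (by rw [add_zero, Prog_zero hp]; norm_num)
    rw [add_zero] at h
    exact left_eq_add.1 h
  have hneg : ∀ z, p z ≤ 1 → g (-z) = - g z := by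
    intro z hz
    have h := hg z (-z) hz (by rw [Prog_neg hp]; exact hz)
      (by rw [add_neg_cancel, Prog_zero hp]; norm_num)
    rw [add_neg_cancel, h0] at h
    exact (neg_eq_of_add_eq_zero_right h.symm).symm
  have hb := Prog_nonneg hp b
  rcases Nat.eq_zero_or_pos M with hM0 | hM0
  · subst hM0
    have hk0 : k = 0 := by
      have : |k| ≤ 0 := by exact_mod_cast hk
      exact abs_nonpos_iff.1 this
    subst hk0
    simp [h0]
  · have hM1 : 1 ≤ M := hM0
    rw [if_pos hM1]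
    have hnat : ∀ n : ℕ, n ≤ M → p ((n : ℤ) • b) ≤ 1 := by
      intro n hn
      rw [hp.2.1]
      have h1 : |(((n : ℕ) : ℤ) : ℝ)| = (n : ℝ) := by simp
      rw [h1]
      have h2 : (n : ℝ) ≤ M := by exact_mod_cast hn
      nlinarith
    have hb1 : p b ≤ 1 := by
      have := hnat 1 hM0
      simpa using this
    have key : ∀ n : ℕ, n ≤ M → g ((n : ℤ) • b) = (n : ℤ) • g b := by
      intro n
      induction n with
      | zero => intro _; simpa using h0
      | succ n ih =>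
        intro hn
        have h1 := ih (by omega)
        have h2 : ((n + 1 : ℕ) : ℤ) • b = (n : ℤ) • b + b := by
          rw [Nat.cast_succ, add_smul, one_smul]
        have h3 : ((n + 1 : ℕ) : ℤ) • g b = (n : ℤ) • g b + g b := by
          rw [Nat.cast_succ, add_smul, one_smul]
        have h4 := hnat (n + 1) hn
        rw [h2] at h4
        rw [h2, h3, hg _ _ (hnat n (by omega)) hb1 h4, h1]
    obtain ⟨n, rfl | rfl⟩ := Int.eq_nat_or_neg k
    · have hn : n ≤ M := by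
        have : ((n : ℕ) : ℤ) ≤ M := by simpa using hk
        exact_mod_cast this
      exact key n hn
    · have hn : n ≤ M := by
        have : ((n : ℕ) : ℤ) ≤ M := by simpa using hk
        exact_mod_cast this
      rw [neg_smul, neg_smul, hneg _ (hnat n hn), key n hn]

/-- local additivity: linear combinations -/
private lemma Prog_comb {d : ℕ} {p : (Fin d → ℤ) → ℝ} (hp : Nrm d p) {A : Type} [AddCommGroup A]
    (g : (Fin d → ℤ) → A)
    (hg : ∀ z z', p z ≤ 1 → p z' ≤ 1 → p (z + z') ≤ 1 → g (z + z') = g z + g z')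
    {n : ℕ} (b : Fin n → (Fin d → ℤ)) (M : Fin n → ℕ) (hM : ∑ i, (M i : ℝ) * p (b i) ≤ 1)
    (j : Fin n → ℤ) (hj : ∀ i, |j i| ≤ M i) :
    p (∑ i, j i • b i) ≤ 1 ∧
      g (∑ i, j i • b i) = ∑ i, j i • (if 1 ≤ M i then g (b i) else 0) := by
  classical
  have hpart : ∀ s : Finset (Fin n), p (∑ i ∈ s, j i • b i) ≤ 1 := by
    intro s
    refine (Prog_sum hp b j s).trans (le_trans ?_ hM)
    refine le_trans (sum_le_sum (g := fun i => (M i : ℝ) * p (b i)) fun i _ => ?_)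
      (sum_le_sum_of_subset_of_nonneg (subset_univ s) fun i _ _ => ?_)
    · refine mul_le_mul_of_nonneg_right ?_ (Prog_nonneg hp _)
      have := hj i
      exact_mod_cast this
    · exact mul_nonneg (Nat.cast_nonneg _) (Prog_nonneg hp _)
  refine ⟨hpart univ, ?_⟩
  have hone : ∀ i, (M i : ℝ) * p (b i) ≤ 1 := by
    intro i
    refine le_trans ?_ hM
    exact single_le_sum (f := fun i => (M i : ℝ) * p (b i))
      (fun i _ => mul_nonneg (Nat.cast_nonneg _) (Prog_nonneg hp _)) (mem_univ i)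
  have key : ∀ s : Finset (Fin n),
      g (∑ i ∈ s, j i • b i) = ∑ i ∈ s, j i • (if 1 ≤ M i then g (b i) else 0) := by
    intro s
    induction s using Finset.induction_on with
    | empty =>
      have := Prog_single hp g hg 0 0 (by simp) 0 (by simp)
      simpa using this
    | insert a s ha ih =>
      have h1 := hpart (insert a s)
      rw [sum_insert ha] at h1
      have h2 : p (j a • b a) ≤ 1 := by
        have := hpart {a}
        simpa using this
      rw [sum_insert ha, sum_insert ha, hg _ _ h2 (hpart s) h1, ih,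
        Prog_single hp g hg (b a) (M a) (hone a) (j a) (hj a)]
  exact key univ

/-- number of integers in an interval -/
private lemma Prog_Icc (a t : ℝ) (ht : 0 ≤ t) : ((Finset.Icc ⌈a - t⌉ ⌊a + t⌋).card : ℝ) ≤ 2 * t + 1 := by
  rw [Int.card_Icc]
  have h1 := Int.floor_le (a + t)
  have h2 := Int.le_ceil (a - t)
  rcases le_or_gt 0 (⌊a + t⌋ + 1 - ⌈a - t⌉) with h | h
  · have h3 : (((⌊a + t⌋ + 1 - ⌈a - t⌉).toNat : ℕ) : ℝ) = ((⌊a + t⌋ + 1 - ⌈a - t⌉ : ℤ) : ℝ) := by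
      exact_mod_cast Int.toNat_of_nonneg h
    rw [h3]
    push_cast
    linarith
  · rw [Int.toNat_of_nonpos h.le]
    simp only [Nat.cast_zero]
    linarith

/-- a fibre of `Y` is small -/
private lemma Prog_fib (N : ℕ) (τ : ℝ) (hτ : 0 ≤ τ) (hτN : τ < N) (Z : Finset ℤ)
    (hZ : ∀ T ∈ Z, |(T : ℝ)| ≤ N)
    (hk : ∀ T ∈ Z, ∀ T' ∈ Z, ∃ k : ℤ, |(T : ℝ) - T' - N * k| ≤ τ) : (Z.card : ℝ) ≤ 5 * (2 * τ + 1) := by
  classical
  rcases Z.eq_empty_or_nonempty with h | ⟨T0, hT0⟩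
  · subst h
    simp only [card_empty, Nat.cast_zero]
    linarith
  have hN : (0 : ℝ) < N := lt_of_le_of_lt hτ hτN
  have hsub : Z ⊆ (Finset.Icc (-2 : ℤ) 2).biUnion
      (fun k => Finset.Icc ⌈((T0 : ℝ) + N * k) - τ⌉ ⌊((T0 : ℝ) + N * k) + τ⌋) := by
    intro T hT
    obtain ⟨k, hk1⟩ := hk T hT T0 hT0
    have hT1 := abs_le.1 (hZ T hT)
    have hT2 := abs_le.1 (hZ T0 hT0)
    have hk2 := abs_le.1 hk1
    have hk3 : (k : ℝ) < 3 := by
      by_contra hc
      push Not at hc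
      nlinarith
    have hk4 : (-3 : ℝ) < k := by
      by_contra hc
      push Not at hc
      nlinarith
    have hk5 : k < 3 := by exact_mod_cast hk3
    have hk6 : -3 < k := by exact_mod_cast hk4
    rw [mem_biUnion]
    refine ⟨k, mem_Icc.2 ⟨by omega, by omega⟩, mem_Icc.2 ⟨Int.ceil_le.2 ?_, Int.le_floor.2 ?_⟩⟩
    · linarith
    · linarith
  have h1 : (Z.card : ℝ) ≤ ∑ k ∈ Finset.Icc (-2 : ℤ) 2,
      ((Finset.Icc ⌈((T0 : ℝ) + N * k) - τ⌉ ⌊((T0 : ℝ) + N * k) + τ⌋).card : ℝ) := by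
    exact_mod_cast (card_le_card hsub).trans card_biUnion_le
  refine h1.trans ?_
  refine (sum_le_sum (g := fun _ : ℤ => 2 * τ + 1) fun (k : ℤ) _ =>
    Prog_Icc ((T0 : ℝ) + N * (k : ℝ)) τ hτ).trans ?_
  rw [sum_const, nsmul_eq_mul]
  have : (Finset.Icc (-2 : ℤ) 2).card = 5 := by decide
  rw [this]
  norm_num

/-- the box -/
private noncomputable def Prog_box {n : ℕ} (M : Fin n → ℕ) : Finset (Fin n → ℤ) :=
  Fintype.piFinset fun i => Finset.Icc (-(M i : ℤ)) (M i)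

private lemma Prog_mem_box {n : ℕ} (M : Fin n → ℕ) (j : Fin n → ℤ) :
    j ∈ Prog_box M ↔ ∀ i, |j i| ≤ M i := by
  rw [Prog_box, Fintype.mem_piFinset]
  refine forall_congr' fun i => ?_
  rw [mem_Icc, abs_le]

private lemma Prog_card_box {n : ℕ} (M : Fin n → ℕ) :
    ((Prog_box M).card : ℝ) = ∏ i, (2 * (M i : ℝ) + 1) := by
  rw [Prog_box, Fintype.card_piFinset]
  push_cast
  refine prod_congr rfl fun i _ => ?_
  rw [Int.card_Icc]
  have : ((M i : ℤ) + 1 - -(M i : ℤ)).toNat = 2 * M i + 1 := by omega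
  rw [this]
  push_cast
  ring

theorem rProg (h1 : S_Basis) (h2 : S_Loc) (h3 : S_Box) : S_Prog := by
  classical
  intro K
  set E : ℕ := ⌈5408 * K ^ 24⌉₊ + 1 with hE
  have hE1 : (1 : ℝ) ≤ E := by rw [hE]; push_cast; linarith [Nat.cast_nonneg (α := ℝ) ⌈5408 * K ^ 24⌉₊]
  refine ⟨E, (2 * E : ℝ) ^ E * 2 ^ (E ^ 2) * 4 ^ E, by positivity, ?_⟩
  intro V hV hK
  have hVpos : (0 : ℝ) < V.card := by exact_mod_cast hV.card_pos
  have hK1 : 1 ≤ K := by
    have h4 : (V.card : ℝ) ≤ (V - V).card := by exact_mod_cast card_le_card_sub_self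
    have h5 : (V.card : ℝ) ≤ K * V.card := h4.trans hK
    by_contra hc
    push Not at hc
    nlinarith
  obtain ⟨N, D, r, η, Y, hN, hD, hη, hηV, hηN, hYm, hYa, hYi⟩ := h2 V K hV hK
  obtain ⟨p, hp, hpz, hcnt⟩ := h3 N D r hN
  obtain ⟨b, hb, hB⟩ := h1 (D + 1) p hp
  have hDE : D + 1 ≤ E := by
    have h4 : (D : ℝ) ≤ ⌈5408 * K ^ 24⌉₊ := hD.trans (Nat.le_ceil _)
    have h5 : D ≤ ⌈5408 * K ^ 24⌉₊ := by exact_mod_cast h4
    omega
  have hNr : (0 : ℝ) < N := by exact_mod_cast hN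
  have hbpos : ∀ i, 0 < p (b i) := fun i => Prog_pos hp (hb.ne_zero i)
  -- the sides of the box
  set u : Fin (D + 1) → ℝ := fun i => 1 / (((D : ℝ) + 1) * p (b i)) with hu
  have hD1 : (0 : ℝ) < (D : ℝ) + 1 := by positivity
  have hupos : ∀ i, 0 < u i := fun i => by
    rw [hu]
    exact div_pos one_pos (mul_pos hD1 (hbpos i))
  set M : Fin (D + 1) → ℕ := fun i => ⌊u i⌋₊ with hM
  have hMsum : ∑ i, (M i : ℝ) * p (b i) ≤ 1 := by
    have h4 : ∀ i ∈ (univ : Finset (Fin (D + 1))), (M i : ℝ) * p (b i) ≤ 1 / ((D : ℝ) + 1) := by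
      intro i _
      have h5 : (M i : ℝ) ≤ u i := Nat.floor_le (hupos i).le
      have h6 : u i * p (b i) = 1 / ((D : ℝ) + 1) := by
        rw [hu]
        have := (hbpos i).ne'
        field_simp
      calc (M i : ℝ) * p (b i) ≤ u i * p (b i) := mul_le_mul_of_nonneg_right h5 (hbpos i).le
        _ = _ := h6
    refine (sum_le_sum h4).trans ?_
    rw [sum_const, card_univ, Fintype.card_fin, nsmul_eq_mul]
    push_cast
    rw [mul_one_div, div_self hD1.ne']
  -- the map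
  set g : (Fin (D + 1) → ℤ) → ℝ × ℝ × ℝ := fun z => Y (z 0) with hg
  have hBohr : ∀ z, p z ≤ 1 → Bohr N r (z 0) := by
    intro z hz i
    exact ⟨z i.succ, (hpz z hz).2 i⟩
  have hgadd : ∀ z z', p z ≤ 1 → p z' ≤ 1 → p (z + z') ≤ 1 → g (z + z') = g z + g z' := by
    intro z z' hz hz' hzz
    have h4 := hBohr (z + z') hzz
    rw [Pi.add_apply] at h4
    show Y ((z + z') 0) = Y (z 0) + Y (z' 0)
    rw [Pi.add_apply]
    exact hYa _ _ (hBohr z hz) (hBohr z' hz') h4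
  have hcomb : ∀ j : Fin (D + 1) → ℤ, (∀ i, |j i| ≤ M i) → p (∑ i, j i • b i) ≤ 1 ∧
      Y ((∑ i, j i • b i) 0) = ∑ i, j i • (if 1 ≤ M i then Y (b i 0) else 0) := by
    intro j hj
    exact Prog_comb hp g hgadd b M hMsum j hj
  refine ⟨D + 1, fun i => if 1 ≤ M i then Y (b i 0) else 0, M, hDE, ?_, ?_⟩
  · intro j hj
    obtain ⟨h4, h5⟩ := hcomb j hj
    rw [← h5]
    exact hYm _ (hBohr _ h4)
  -- counting
  set f0 : (Fin (D + 1) → ℤ) → ℤ := fun j => (∑ i, j i • b i) 0 with hf0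
  have hinj : Set.InjOn f0 (Prog_box M) := by
    intro j hj j' hj' hjj
    have hj1 := (hcomb j ((Prog_mem_box M j).1 hj)).1
    have hj2 := (hcomb j' ((Prog_mem_box M j').1 hj')).1
    have hz : (∑ i, j i • b i) = ∑ i, j' i • b i := by
      funext i
      refine Fin.cases ?_ (fun i => ?_) i
      · exact hjj
      · have h4 := (hpz _ hj1).2 i
        have h5 := (hpz _ hj2).2 i
        have h6 : ((∑ i, j i • b i) 0 : ℤ) = (∑ i, j' i • b i) 0 := hjj
        rw [h6] at h4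
        have h7 := abs_le.1 h4
        have h8 := abs_le.1 h5
        have h9 : (((∑ i, j i • b i) i.succ : ℤ) : ℝ) - ((∑ i, j' i • b i) i.succ : ℤ) < 1 := by
          linarith [h7.1, h7.2, h8.1, h8.2]
        have h10 : (-1 : ℝ) < (((∑ i, j i • b i) i.succ : ℤ) : ℝ) - ((∑ i, j' i • b i) i.succ : ℤ) := by
          linarith [h7.1, h7.2, h8.1, h8.2]
        have h11 : (∑ i, j i • b i) i.succ - (∑ i, j' i • b i) i.succ < 1 := by exact_mod_cast h9
        have h12 : -1 < (∑ i, j i • b i) i.succ - (∑ i, j' i • b i) i.succ := by exact_mod_cast h10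
        omega
    have h4 : ∑ i, (j i - j' i) • b i = 0 := by
      simp only [sub_smul, sum_sub_distrib]
      exact sub_eq_zero.2 hz
    have h5 := Fintype.linearIndependent_iff.1 hb (fun i => j i - j' i) h4
    funext i
    exact sub_eq_zero.1 (h5 i)
  set Z : Finset ℤ := (Prog_box M).image f0 with hZ
  have hZcard : Z.card = (Prog_box M).card := card_image_of_injOn hinj
  have hZp : ∀ T ∈ Z, ∃ z, p z ≤ 1 ∧ z 0 = T := by
    intro T hT
    obtain ⟨j, hj, rfl⟩ := mem_image.1 hT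
    exact ⟨_, (hcomb j ((Prog_mem_box M j).1 hj)).1, rfl⟩
  have hZN : ∀ T ∈ Z, |(T : ℝ)| ≤ N := by
    intro T hT
    obtain ⟨z, hz, rfl⟩ := hZp T hT
    exact (hpz z hz).1
  have hZB : ∀ T ∈ Z, Bohr N r T := by
    intro T hT
    obtain ⟨z, hz, rfl⟩ := hZp T hT
    exact hBohr z hz
  set W : Finset (ℝ × ℝ × ℝ) := Z.image Y with hW
  have hWset : {y | ∃ j : Fin (D + 1) → ℤ, (∀ i, |j i| ≤ M i) ∧
      y = ∑ i, j i • (if 1 ≤ M i then Y (b i 0) else 0)} = (W : Set (ℝ × ℝ × ℝ)) := by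
    ext y
    constructor
    · rintro ⟨j, hj, rfl⟩
      rw [mem_coe, hW, mem_image]
      refine ⟨f0 j, mem_image_of_mem _ ((Prog_mem_box M j).2 hj), ?_⟩
      exact (hcomb j hj).2
    · intro hy
      rw [mem_coe, hW, mem_image] at hy
      obtain ⟨T, hT, rfl⟩ := hy
      obtain ⟨j, hj, rfl⟩ := mem_image.1 hT
      exact ⟨j, (Prog_mem_box M j).1 hj, (hcomb j ((Prog_mem_box M j).1 hj)).2⟩
  rw [hWset, Set.ncard_coe_finset]
  -- numbers
  have hK12 : 1 ≤ K ^ 12 := one_le_pow₀ hK1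
  have hV1 : (1 : ℝ) ≤ V.card := by exact_mod_cast hV.card_pos
  have hη4 : η ≤ 1 / 4 := by
    have h4 : 4 ≤ 4 * K ^ 12 * V.card := by nlinarith
    have h5 : η * 4 ≤ η * (4 * K ^ 12 * V.card) := mul_le_mul_of_nonneg_left h4 hη.le
    rw [hηV] at h5
    linarith
  have hN4 : η * N ≤ N / 4 := by nlinarith
  have hN5 : (4000 : ℝ) ≤ N := by linarith
  set τ : ℝ := η * N / 3 + 4 with hτ
  have hτ0 : 0 ≤ τ := by rw [hτ]; positivity
  have hτN : τ < N := by rw [hτ]; linarith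
  have hfib : ∀ y ∈ Z.image Y, #{T ∈ Z | Y T = y} ≤ ⌊4 * (η * N)⌋₊ := by
    intro y _
    refine Nat.le_floor ?_
    refine (Prog_fib N τ hτ0 hτN _ (fun T hT => hZN T (mem_filter.1 hT).1) ?_).trans ?_
    · intro T hT T' hT'
      have h4 := mem_filter.1 hT
      have h5 := mem_filter.1 hT'
      exact hYi T T' (hZB T h4.1) (hZB T' h5.1) (h4.2.trans h5.2.symm)
    · rw [hτ]
      linarith
  have hcard : ((Prog_box M).card : ℝ) ≤ 4 * (η * N) * W.card := by
    have h4 := card_le_mul_card_image Z _ hfib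
    rw [← hZcard]
    have h5 : (Z.card : ℝ) ≤ (⌊4 * (η * N)⌋₊ : ℝ) * W.card := by exact_mod_cast h4
    refine h5.trans (mul_le_mul_of_nonneg_right (Nat.floor_le (by positivity)) (Nat.cast_nonneg _))
  -- the product
  have hprod : ∏ i, (1 + 1 / p (b i)) ≤ (2 * ((D : ℝ) + 1)) ^ (D + 1) * ∏ i, (2 * (M i : ℝ) + 1) := by
    have h4 : (2 * ((D : ℝ) + 1)) ^ (D + 1) = ∏ _i : Fin (D + 1), (2 * ((D : ℝ) + 1)) := by
      rw [prod_const, card_univ, Fintype.card_fin]
    rw [h4, ← prod_mul_distrib]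
    refine prod_le_prod (fun i _ => by have := hbpos i; positivity) fun i _ => ?_
    have h5 : u i < M i + 1 := Nat.lt_floor_add_one (u i)
    have h6 : 1 / p (b i) = ((D : ℝ) + 1) * u i := by
      rw [hu]
      have := (hbpos i).ne'
      field_simp
    have h7 : (0 : ℝ) ≤ M i := Nat.cast_nonneg _
    have h8 : (0 : ℝ) ≤ D := Nat.cast_nonneg _
    rw [h6]
    have h9 : u i + 1 ≤ 2 * (2 * (M i : ℝ) + 1) := by linarith
    have h10 : 1 ≤ (D : ℝ) + 1 := by linarith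
    calc 1 + ((D : ℝ) + 1) * u i ≤ ((D : ℝ) + 1) * (u i + 1) := by linarith
      _ ≤ ((D : ℝ) + 1) * (2 * (2 * (M i : ℝ) + 1)) := mul_le_mul_of_nonneg_left h9 hD1.le
      _ = _ := by ring
  have hB1 := hB 1 zero_le_one
  set C1 : ℝ := 4 ^ D * (2 ^ ((D + 1) ^ 2) * (2 * ((D : ℝ) + 1)) ^ (D + 1)) with hC1
  have hC1pos : 0 < C1 := by rw [hC1]; positivity
  have hmain : (N : ℝ) ≤ C1 * (4 * (η * N) * W.card) := by
    calc (N : ℝ) ≤ 4 ^ D * ({z | p z ≤ 1}.ncard : ℝ) := hcnt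
      _ ≤ 4 ^ D * (2 ^ ((D + 1) ^ 2) * ∏ i, (1 + 1 / p (b i))) := by
          exact mul_le_mul_of_nonneg_left hB1 (by positivity)
      _ ≤ 4 ^ D * (2 ^ ((D + 1) ^ 2) *
            ((2 * ((D : ℝ) + 1)) ^ (D + 1) * ∏ i, (2 * (M i : ℝ) + 1))) := by
          refine mul_le_mul_of_nonneg_left (mul_le_mul_of_nonneg_left hprod (by positivity)) (by positivity)
      _ = C1 * ((Prog_box M).card : ℝ) := by rw [Prog_card_box, hC1]; ring
      _ ≤ C1 * (4 * (η * N) * W.card) := mul_le_mul_of_nonneg_left hcard hC1pos.le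
  have hone : 1 ≤ C1 * (4 * η * W.card) := by
    have h4 : (N : ℝ) * 1 ≤ N * (C1 * (4 * η * W.card)) := by
      calc (N : ℝ) * 1 = N := mul_one _
        _ ≤ C1 * (4 * (η * N) * W.card) := hmain
        _ = N * (C1 * (4 * η * W.card)) := by ring
    exact le_of_mul_le_mul_left h4 hNr
  have hfin : (V.card : ℝ) ≤ C1 * W.card := by
    calc (V.card : ℝ) ≤ K ^ 12 * V.card := le_mul_of_one_le_left hVpos.le hK12
      _ = (K ^ 12 * V.card) * 1 := (mul_one _).symm
      _ ≤ (K ^ 12 * V.card) * (C1 * (4 * η * W.card)) :=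
          mul_le_mul_of_nonneg_left hone (by positivity)
      _ = (η * (4 * K ^ 12 * V.card)) * (C1 * W.card) := by ring
      _ = C1 * W.card := by rw [hηV, one_mul]
  refine hfin.trans (mul_le_mul_of_nonneg_right ?_ (Nat.cast_nonneg _))
  have hDEr : (D : ℝ) + 1 ≤ E := by exact_mod_cast hDE
  have e1 : (4 : ℝ) ^ D ≤ 4 ^ E := pow_le_pow_right₀ (by norm_num) (by omega)
  have e2 : (2 : ℝ) ^ ((D + 1) ^ 2) ≤ 2 ^ (E ^ 2) :=
    pow_le_pow_right₀ (by norm_num) (Nat.pow_le_pow_left hDE 2)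
  have e3 : (2 * ((D : ℝ) + 1)) ^ (D + 1) ≤ (2 * E : ℝ) ^ E := by
    calc (2 * ((D : ℝ) + 1)) ^ (D + 1) ≤ (2 * E : ℝ) ^ (D + 1) :=
          pow_le_pow_left₀ (by positivity) (by linarith) _
      _ ≤ (2 * E : ℝ) ^ E := pow_le_pow_right₀ (by linarith) hDE
  rw [hC1]
  calc (4 : ℝ) ^ D * (2 ^ ((D + 1) ^ 2) * (2 * ((D : ℝ) + 1)) ^ (D + 1))
      ≤ 4 ^ E * (2 ^ (E ^ 2) * (2 * E : ℝ) ^ E) := by
        refine mul_le_mul e1 (mul_le_mul e2 e3 (by positivity) (by positivity)) (by positivity) (by positivity)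
    _ = _ := by ring

end Pool.Agent.MAS
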