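import Pool.Agent.Lib.MP_95b053_co.MAS.Spec

set_option autoImplicit false

/-!
# MP_95b053_co, project MAS, module QNorm: the quotient norm (helper97)
-/

namespace Pool.Agent.MAS

open Finset

private theorem QNorm_zero (d : ℕ) (p : (Fin d → ℤ) → ℝ) (hp : Nrm d p) : p 0 = 0 := by
  have h := hp.2.1 0 0
  rw [smul_zero, Int.cast_zero, abs_zero, zero_mul] at h
  exact h

private theorem QNorm_neg (d : ℕ) (p : (Fin d → ℤ) → ℝ) (hp : Nrm d p) (x : Fin d → ℤ) : p (-x) = p x := by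
  have h := hp.2.1 (-1) x
  rw [neg_smul, one_smul, Int.cast_neg, Int.cast_one, abs_neg, abs_one, one_mul] at h
  exact h

private theorem QNorm_nonneg (d : ℕ) (p : (Fin d → ℤ) → ℝ) (hp : Nrm d p) (x : Fin d → ℤ) : 0 ≤ p x := by
  have h := hp.1 x (-x)
  rw [add_neg_cancel, QNorm_zero d p hp, QNorm_neg d p hp] at h
  linarith

/-- the set whose infimum is the quotient norm -/
private def QNorm_S (d : ℕ) (p : (Fin (d + 1) → ℤ) → ℝ) (π : (Fin (d + 1) → ℤ) →+ (Fin d → ℤ))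
    (y : Fin d → ℤ) : Set ℝ :=
  {t | ∃ (k : ℕ) (x : Fin (d + 1) → ℤ), 1 ≤ k ∧ π x = (k : ℤ) • y ∧ t = p x / k}

theorem rQNorm : S_QNorm := by
  intro d p v π hp hsur hker
  have hp1 := hp.1
  have hp2 := hp.2.1
  have hp3 := hp.2.2
  have hnn := QNorm_nonneg (d + 1) p hp
  set p' : (Fin d → ℤ) → ℝ := fun y => sInf (QNorm_S d p π y) with hp'
  have hbdd : ∀ y, BddBelow (QNorm_S d p π y) := by
    intro y
    refine ⟨0, ?_⟩
    rintro t ⟨k, x, -, -, rfl⟩
    exact div_nonneg (hnn x) (Nat.cast_nonneg k)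
  have hne : ∀ y, (QNorm_S d p π y).Nonempty := by
    intro y
    obtain ⟨x, hx⟩ := hsur y
    exact ⟨p x / (1 : ℕ), 1, x, le_refl 1, by rw [hx, Nat.cast_one, one_smul], rfl⟩
  have hle : ∀ (k : ℕ) (x : Fin (d + 1) → ℤ) (y : Fin d → ℤ), 1 ≤ k → π x = (k : ℤ) • y →
      p' y ≤ p x / k := fun k x y hk hx => csInf_le (hbdd y) ⟨k, x, hk, hx, rfl⟩
  have hex : ∀ (y : Fin d → ℤ) (ε : ℝ), 0 < ε → ∃ (k : ℕ) (x : Fin (d + 1) → ℤ), 1 ≤ k ∧
      π x = (k : ℤ) • y ∧ p x / k < p' y + ε := by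
    intro y ε hε
    obtain ⟨t, ⟨k, x, hk, hx, rfl⟩, ht⟩ := exists_lt_of_csInf_lt (hne y) (lt_add_of_pos_right (p' y) hε)
    exact ⟨k, x, hk, hx, ht⟩
  have hnn' : ∀ y, 0 ≤ p' y := by
    intro y
    apply le_csInf (hne y)
    rintro t ⟨k, x, -, -, rfl⟩
    exact div_nonneg (hnn x) (Nat.cast_nonneg k)
  have hle1 : ∀ x, p' (π x) ≤ p x := by
    intro x
    have h := hle 1 x (π x) (le_refl 1) (by rw [Nat.cast_one, one_smul])
    rw [Nat.cast_one, div_one] at h
    exact h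
  have hadd : ∀ y y', p' (y + y') ≤ p' y + p' y' := by
    intro y y'
    apply le_of_forall_pos_le_add
    intro ε hε
    obtain ⟨k, x, hk, hx, h1⟩ := hex y (ε / 2) (half_pos hε)
    obtain ⟨k', x', hk', hx', h2⟩ := hex y' (ε / 2) (half_pos hε)
    have hk0 : (0 : ℝ) < k := by exact_mod_cast hk
    have hk0' : (0 : ℝ) < k' := by exact_mod_cast hk'
    have hπ : π (((k' : ℤ)) • x + ((k : ℤ)) • x') = ((k * k' : ℕ) : ℤ) • (y + y') := by
      rw [map_add, map_zsmul, map_zsmul, hx, hx', smul_smul, smul_smul, smul_add]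
      push_cast
      rw [mul_comm (k' : ℤ) (k : ℤ)]
    have h3 := hle (k * k') _ _ (Nat.mul_pos hk hk') hπ
    have h4 : p (((k' : ℤ)) • x + ((k : ℤ)) • x') ≤ k' * p x + k * p x' := by
      refine le_trans (hp1 _ _) ?_
      rw [hp2, hp2]
      simp only [Int.cast_natCast, Nat.abs_cast]
      exact le_refl _
    have h5 : p (((k' : ℤ)) • x + ((k : ℤ)) • x') / ((k * k' : ℕ) : ℝ) ≤ p x / k + p x' / k' := by
      rw [div_add_div _ _ (ne_of_gt hk0) (ne_of_gt hk0')]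
      push_cast
      apply div_le_div_of_nonneg_right _ (le_of_lt (mul_pos hk0 hk0'))
      linarith
    linarith
  have hmul1 : ∀ (m : ℤ) (y : Fin d → ℤ), p' (m • y) ≤ |(m : ℝ)| * p' y := by
    intro m y
    apply le_of_forall_pos_le_add
    intro ε hε
    have hm0 : (0 : ℝ) ≤ |(m : ℝ)| := abs_nonneg _
    obtain ⟨k, x, hk, hx, h1⟩ := hex y (ε / (|(m : ℝ)| + 1)) (by positivity)
    have hπ : π (m • x) = (k : ℤ) • (m • y) := by
      rw [map_zsmul, hx, smul_smul, smul_smul, mul_comm]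
    have h3 := hle k _ _ hk hπ
    rw [hp2, mul_div_assoc] at h3
    have h4 : |(m : ℝ)| * (p x / k) ≤ |(m : ℝ)| * (p' y + ε / (|(m : ℝ)| + 1)) :=
      mul_le_mul_of_nonneg_left (le_of_lt h1) hm0
    have h5 : |(m : ℝ)| * (ε / (|(m : ℝ)| + 1)) ≤ ε := by
      rw [← mul_div_assoc, div_le_iff₀ (by linarith)]
      nlinarith
    rw [mul_add] at h4
    linarith
  have hmul : ∀ (m : ℤ) (y : Fin d → ℤ), p' (m • y) = |(m : ℝ)| * p' y := by
    intro m y
    apply le_antisymm (hmul1 m y)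
    by_cases hm : m = 0
    · rw [hm, Int.cast_zero, abs_zero, zero_mul]
      exact hnn' _
    have hmp : 1 ≤ m.natAbs := Int.natAbs_pos.2 hm
    have hmr : ((m.natAbs : ℕ) : ℝ) = |(m : ℝ)| := by
      rw [Nat.cast_natAbs, Int.cast_abs]
    have hmr0 : (0 : ℝ) < |(m : ℝ)| := by
      rw [← hmr]
      exact_mod_cast hmp
    apply le_of_forall_pos_le_add
    intro ε hε
    obtain ⟨k, x, hk, hx, h1⟩ := hex (m • y) ε hε
    have hk0 : (0 : ℝ) < k := by exact_mod_cast hk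
    have key : ∃ x' : Fin (d + 1) → ℤ, p x' = p x ∧ π x' = ((k * m.natAbs : ℕ) : ℤ) • y := by
      rcases lt_or_ge m 0 with h | h
      · refine ⟨-x, QNorm_neg (d + 1) p hp x, ?_⟩
        rw [map_neg, hx, smul_smul]
        push_cast
        rw [abs_of_neg h, mul_neg, neg_smul]
      · refine ⟨x, rfl, ?_⟩
        rw [hx, smul_smul]
        push_cast
        rw [abs_of_nonneg h]
    obtain ⟨x', hx1, hx2⟩ := key
    have h3 := hle (k * m.natAbs) x' y (Nat.mul_pos hk hmp) hx2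
    rw [hx1, Nat.cast_mul, hmr] at h3
    have h4 : |(m : ℝ)| * p' y ≤ |(m : ℝ)| * (p x / (k * |(m : ℝ)|)) :=
      mul_le_mul_of_nonneg_left h3 (le_of_lt hmr0)
    have h5 : |(m : ℝ)| * (p x / (k * |(m : ℝ)|)) = p x / k := by
      field_simp
    rw [h5] at h4
    linarith
  have hlift1 : ∀ (y : Fin d → ℤ) (ε : ℝ), 0 < ε → ∃ z, π z = y ∧ p z ≤ p' y + p v / 2 + ε := by
    intro y ε hε
    obtain ⟨k, x, hk, hx, h1⟩ := hex y ε hε
    have hk0 : (0 : ℝ) < k := by exact_mod_cast hk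
    obtain ⟨x0, hx0⟩ := hsur y
    have h0 : π (x - (k : ℤ) • x0) = 0 := by
      rw [map_sub, map_zsmul, hx, hx0, sub_self]
    obtain ⟨j, hj⟩ := (hker _).1 h0
    set q : ℤ := round ((j : ℝ) / k) with hq
    have hr : |(j : ℝ) / k - q| ≤ 1 / 2 := abs_sub_round _
    have hπv : π v = 0 := (hker v).2 ⟨1, by rw [one_smul]⟩
    refine ⟨x0 + q • v, ?_, ?_⟩
    · rw [map_add, map_zsmul, hπv, smul_zero, add_zero, hx0]
    · have e1 : (k : ℤ) • (x0 + q • v) = x + (-(j - k * q)) • v := by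
        have e2 : x = (k : ℤ) • x0 + j • v := by
          rw [← hj]
          abel
        rw [e2, smul_add, smul_smul, add_assoc, ← add_smul]
        congr 2
        ring
      have e3 : (k : ℝ) * p (x0 + q • v) = p ((k : ℤ) • (x0 + q • v)) := by
        rw [hp2]
        simp only [Int.cast_natCast, Nat.abs_cast]
      have e4 : p (x + (-(j - k * q)) • v) ≤ p x + |(j : ℝ) - k * q| * p v := by
        refine le_trans (hp1 _ _) ?_
        rw [hp2]
        push_cast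
        rw [abs_neg]
      have e5 : |(j : ℝ) - k * q| ≤ k / 2 := by
        have e6 : (j : ℝ) - k * q = k * ((j : ℝ) / k - q) := by
          field_simp
        rw [e6, abs_mul, abs_of_pos hk0]
        calc (k : ℝ) * |(j : ℝ) / k - q| ≤ k * (1 / 2) := mul_le_mul_of_nonneg_left hr (le_of_lt hk0)
          _ = k / 2 := by ring
      have e7 : (k : ℝ) * p (x0 + q • v) ≤ p x + k / 2 * p v := by
        rw [e3, e1]
        refine le_trans e4 ?_
        have := mul_le_mul_of_nonneg_right e5 (hnn v)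
        linarith
      have e8 : p x < (p' y + ε) * k := by
        rwa [div_lt_iff₀ hk0] at h1
      have e9 : (k : ℝ) * p (x0 + q • v) ≤ k * (p' y + p v / 2 + ε) := by
        have : (k : ℝ) * (p' y + p v / 2 + ε) = (p' y + ε) * k + k / 2 * p v := by ring
        rw [this]
        linarith
      exact le_of_mul_le_mul_left e9 hk0
  have hlift : ∀ y, ∃ x, π x = y ∧ p x ≤ p' y + p v / 2 := by
    intro y
    have hfin : {x | π x = y ∧ p x ≤ p' y + p v / 2 + 1}.Finite :=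
      (hp3 (p' y + p v / 2 + 1)).subset (fun x hx => hx.2)
    obtain ⟨z1, hz1, hz2⟩ := hlift1 y 1 one_pos
    obtain ⟨a, ⟨ha1, ha2⟩, ha3⟩ := Set.exists_min_image _ p hfin ⟨z1, hz1, hz2⟩
    refine ⟨a, ha1, ?_⟩
    apply le_of_forall_pos_le_add
    intro ε hε
    obtain ⟨z, hz3, hz4⟩ := hlift1 y (min ε 1) (lt_min hε one_pos)
    have h5 : p a ≤ p z := ha3 z ⟨hz3, le_trans hz4 (by linarith [min_le_right ε 1])⟩
    linarith [min_le_left ε 1]
  refine ⟨p', ⟨hadd, hmul, ?_⟩, hle1, hlift⟩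
  intro R
  apply ((hp3 (R + p v / 2)).image π).subset
  intro y hy
  obtain ⟨x, hx1, hx2⟩ := hlift y
  have hy' : p' y ≤ R := hy
  exact ⟨x, by
    show p x ≤ R + p v / 2
    linarith, hx1⟩

end Pool.Agent.MAS
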