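import Pool.Agent.Lib.MP_95b053_co.MAS.Spec

set_option autoImplicit false

namespace Pool.Agent.MAS

open Finset

private theorem Quo_tf {d : ℕ} {v x : Fin d → ℤ} (hv : Pri d v) {k j : ℤ} (hk : k ≠ 0)
    (h : k • x = j • v) : ∃ i : ℤ, x = i • v := by
  obtain ⟨g, hg⟩ : ∃ g : ℕ, g = Int.gcd k j := ⟨_, rfl⟩
  have hg0 : 0 < g := by
    rw [hg]
    exact Int.gcd_pos_of_ne_zero_left j hk
  obtain ⟨k', hk'⟩ : (g : ℤ) ∣ k := by rw [hg]; exact Int.gcd_dvd_left k j
  obtain ⟨j', hj'⟩ : (g : ℤ) ∣ j := by rw [hg]; exact Int.gcd_dvd_right k j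
  have hgz : (g : ℤ) ≠ 0 := by exact_mod_cast hg0.ne'
  have hco : IsCoprime k' j' := by
    rw [Int.isCoprime_iff_gcd_eq_one]
    have h1 : Int.gcd k j = g * Int.gcd k' j' := by
      conv_lhs => rw [hk', hj']
      rw [Int.gcd_mul_left, Int.natAbs_natCast]
    rw [← hg] at h1
    have h2 : g * Int.gcd k' j' = g * 1 := by rw [← h1, mul_one]
    exact Nat.eq_of_mul_eq_mul_left hg0 h2
  have h1 : ∀ i, k' * x i = j' * v i := by
    intro i
    have h2 := congrFun h i
    simp only [Pi.smul_apply, smul_eq_mul] at h2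
    rw [hk', hj', mul_assoc, mul_assoc] at h2
    exact mul_left_cancel₀ hgz h2
  have h3 : ∀ i, k' ∣ v i := fun i => hco.dvd_of_dvd_mul_left ⟨x i, (h1 i).symm⟩
  choose w hw using h3
  rcases hv.2 k' w (funext fun i => by rw [Pi.smul_apply, smul_eq_mul]; exact hw i) with h4 | h4
  · refine ⟨j', funext fun i => ?_⟩
    have h5 := h1 i
    rw [h4, one_mul] at h5
    rw [Pi.smul_apply, smul_eq_mul, h5]
  · refine ⟨-j', funext fun i => ?_⟩
    have h5 := h1 i
    rw [h4] at h5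
    rw [Pi.smul_apply, smul_eq_mul]
    linarith

theorem rQuo : S_Quo := by
  intro d v hv
  have hmem : ∀ x : Fin (d + 1) → ℤ, x ∈ Submodule.span ℤ {v} ↔ ∃ j : ℤ, x = j • v := by
    intro x
    rw [Submodule.mem_span_singleton]
    constructor
    · rintro ⟨j, hj⟩; exact ⟨j, hj.symm⟩
    · rintro ⟨j, hj⟩; exact ⟨j, hj.symm⟩
  have htf : Module.IsTorsionFree ℤ ((Fin (d + 1) → ℤ) ⧸ Submodule.span ℤ {v}) := by
    apply Module.IsTorsionFree.of_smul_eq_zero
    intro k y hy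
    by_cases hk : k = 0
    · exact Or.inl hk
    right
    obtain ⟨x, rfl⟩ := Submodule.Quotient.mk_surjective _ y
    rw [← Submodule.Quotient.mk_smul, Submodule.Quotient.mk_eq_zero, hmem] at hy
    obtain ⟨j, hj⟩ := hy
    rw [Submodule.Quotient.mk_eq_zero, hmem]
    exact Quo_tf hv hk hj
  have hfree : Module.Free ℤ ((Fin (d + 1) → ℤ) ⧸ Submodule.span ℤ {v}) :=
    Module.free_of_finite_type_torsion_free'
  have hr1 : Module.finrank ℤ (Submodule.span ℤ {v}) = 1 := by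
    rw [← (LinearEquiv.toSpanNonzeroSingleton ℤ (Fin (d + 1) → ℤ) v hv.1).finrank_eq]
    exact Module.finrank_self ℤ
  have hr : Module.finrank ℤ ((Fin (d + 1) → ℤ) ⧸ Submodule.span ℤ {v}) = d := by
    have h1 := Submodule.finrank_quotient_add_finrank (Submodule.span ℤ {v})
    rw [hr1, Module.finrank_fin_fun] at h1
    omega
  obtain ⟨b⟩ : Nonempty (Module.Basis (Fin d) ℤ ((Fin (d + 1) → ℤ) ⧸ Submodule.span ℤ {v})) :=
    ⟨Module.finBasisOfFinrankEq ℤ _ hr⟩
  refine ⟨(b.equivFun.toLinearMap.comp (Submodule.mkQ (Submodule.span ℤ {v}))).toAddMonoidHom,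
    ?_, ?_⟩
  · exact b.equivFun.surjective.comp (Submodule.mkQ_surjective _)
  · intro x
    rw [← hmem, ← Submodule.Quotient.mk_eq_zero]
    exact b.equivFun.map_eq_zero_iff

end Pool.Agent.MAS
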