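import Pool.Agent.Lib.MP_95b053_co.MAS.Spec

set_option autoImplicit false

/-!
Reduction by a kernel vector.
-/

namespace Pool.Agent.MAS

open Finset

private theorem Red1_zero {d : ℕ} {p : (Fin d → ℤ) → ℝ} (h : Nrm d p) : p 0 = 0 := by
  have := h.2.1 0 0
  rw [zero_smul] at this
  rw [this, Int.cast_zero, abs_zero, zero_mul]

private theorem Red1_nonneg {d : ℕ} {p : (Fin d → ℤ) → ℝ} (h : Nrm d p) (x : Fin d → ℤ) : 0 ≤ p x := by
  have h1 := h.2.1 (-1) x
  rw [neg_one_smul] at h1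
  have h2 : p (-x) = p x := by
    rw [h1]
    norm_num
  have h3 := h.1 x (-x)
  rw [add_neg_cancel, Red1_zero h, h2] at h3
  linarith only [h3]

theorem rRed1 (h1 : S_Prim) (h2 : S_Quo) (h3 : S_QNorm) (h4 : S_Gro) : S_Red1 := by
  intro G _ A d m C t p φ X hTF hC ht hDat hu
  obtain ⟨hN, hX, hcov, hcard⟩ := hDat
  obtain ⟨u, hu0, hpu, hφu⟩ := hu
  obtain ⟨g, v, hg, hgv, hPri⟩ := h1 (d + 1) u hu0
  have hgR : (1 : ℝ) ≤ g := by exact_mod_cast hg
  have hv0 : 0 ≤ p v := Red1_nonneg hN v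
  have hpv : p v ≤ 2 * t := by
    refine le_trans ?_ hpu
    rw [hgv, hN.2.1 g v, abs_of_nonneg (by linarith only [hgR])]
    nlinarith only [hgR, hv0]
  have hφv : φ v = 0 := by
    rw [hgv, map_zsmul] at hφu
    rcases hTF g (φ v) hφu with h | h
    · omega
    · exact h
  obtain ⟨π, hsurj, hker⟩ := h2 d v hPri
  obtain ⟨p', hN', hle, hlift⟩ := h3 d p v π hN hsurj hker
  have key : ∀ x x', π x = π x' → φ x = φ x' := by
    intro x x' hxx
    have e1 : π (x - x') = 0 := by rw [map_sub, hxx, sub_self]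
    obtain ⟨j, hj⟩ := (hker _).1 e1
    have e2 : φ (x - x') = 0 := by rw [hj, map_zsmul, hφv, smul_zero]
    rw [map_sub] at e2
    exact sub_eq_zero.1 e2
  let φ' : (Fin d → ℤ) →+ G := AddMonoidHom.mk' (fun y => φ (Function.surjInv hsurj y)) (by
    intro y y'
    rw [← map_add]
    apply key
    rw [map_add, Function.surjInv_eq hsurj, Function.surjInv_eq hsurj, Function.surjInv_eq hsurj])
  have hφ' : ∀ x, φ' (π x) = φ x := by
    intro x
    change φ (Function.surjInv hsurj (π x)) = φ x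
    apply key
    rw [Function.surjInv_eq hsurj]
  have h4pos : (1 : ℝ) ≤ 4 ^ ((d + 1) * m) := one_le_pow₀ (by norm_num)
  refine ⟨p', φ', hN', ?_, ?_, ?_⟩
  · exact hX.trans (le_mul_of_one_le_right hC h4pos)
  · intro a ha
    obtain ⟨x, hx, z, hz, hax⟩ := hcov a ha
    exact ⟨x, hx, π z, (hle z).trans hz, by rw [hφ', hax]⟩
  · have hsub : φ' '' {z | p' z ≤ 1} ⊆ φ '' {z | p z ≤ 2 ^ m * 1} := by
      rintro _ ⟨y, hy, rfl⟩
      obtain ⟨x, hx, hpx⟩ := hlift y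
      refine ⟨x, ?_, ?_⟩
      · have hy1 : p' y ≤ 1 := hy
        change p x ≤ 2 ^ m * 1
        linarith only [hpx, hy1, hpv, ht]
      · rw [← hx, hφ']
    have hfin : (φ '' {z | p z ≤ 2 ^ m * 1}).Finite := (hN.2.2 _).image _
    have e1 : ((φ' '' {z | p' z ≤ 1}).ncard : ℝ) ≤ ((φ '' {z | p z ≤ 2 ^ m * 1}).ncard : ℝ) := by
      exact_mod_cast Set.ncard_le_ncard hsub hfin
    have e2 := h4 G (d + 1) m p φ 1 hN zero_le_one
    have e3 : (4 : ℝ) ^ ((d + 1) * m) * ((φ '' {z | p z ≤ 1}).ncard : ℝ) ≤ 4 ^ ((d + 1) * m) * (C * A.card) :=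
      mul_le_mul_of_nonneg_left hcard (by positivity)
    calc ((φ' '' {z | p' z ≤ 1}).ncard : ℝ) ≤ 4 ^ ((d + 1) * m) * (C * A.card) := e1.trans (e2.trans e3)
      _ = C * 4 ^ ((d + 1) * m) * A.card := by ring

end Pool.Agent.MAS
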