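import Pool.Agent.Lib.MP_95b053_co.MAS.Spec

/-!
# MP_95b053_co, project MAS: reduction to a sublattice
-/

set_option autoImplicit false

namespace Pool.Agent.MAS

open Finset

private theorem Red2_neg {d : ℕ} {p : (Fin d → ℤ) → ℝ} (hp : Nrm d p) (x : Fin d → ℤ) : p (-x) = p x := by
  have h := hp.2.1 (-1) x
  simpa using h

private theorem Red2_div {d k : ℕ} {x y : Fin d → ℤ}
    (h : ∀ i, ((x i : ℤ) : ZMod k) = ((y i : ℤ) : ZMod k)) :
    ∃ w : Fin d → ℤ, x - y = (k : ℤ) • w := by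
  have h1 : ∀ i, ∃ w : ℤ, x i - y i = (k : ℤ) * w := fun i =>
    (ZMod.intCast_eq_intCast_iff_dvd_sub (y i) (x i) k).1 (h i).symm
  choose w hw using h1
  refine ⟨w, funext fun i => ?_⟩
  rw [Pi.sub_apply, hw i, Pi.smul_apply, smul_eq_mul]

theorem rRed2 (h1 : S_Ker) (h2 : S_Gro) : S_Red2 := by
  classical
  intro G _ A d k C ε p φ X l hC hk hεk hDat hl hlz
  obtain ⟨hp, hX, hcov, hcard⟩ := hDat
  obtain ⟨ι, hι, hker⟩ := h1 d l hl
  have hk0 : (0 : ℝ) < k := by exact_mod_cast hk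
  have : NeZero k := ⟨by omega⟩
  -- representatives of the residue classes
  have hrep : ∀ c : Fin (d + 1) → ZMod k, ∃ y : Fin (d + 1) → ℤ,
      ∀ z, p z ≤ 1 → (fun i => ((z i : ℤ) : ZMod k)) = c →
        p y ≤ 1 ∧ (fun i => ((y i : ℤ) : ZMod k)) = c := by
    intro c
    by_cases h : ∃ z, p z ≤ 1 ∧ (fun i => ((z i : ℤ) : ZMod k)) = c
    · obtain ⟨z, hz⟩ := h
      exact ⟨z, fun _ _ _ => hz⟩
    · exact ⟨0, fun z hz hc => absurd ⟨z, hz, hc⟩ h⟩
  choose y hy using hrep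
  refine ⟨fun x => p (ι x) / 2, φ.comp ι,
    (X ×ˢ (Finset.univ : Finset (Fin (d + 1) → ZMod k))).image fun q => q.1 + φ (y q.2), ?_, ?_, ?_, ?_⟩
  · refine ⟨fun x z => ?_, fun j x => ?_, fun R => ?_⟩
    · have := hp.1 (ι x) (ι z)
      change p (ι (x + z)) / 2 ≤ p (ι x) / 2 + p (ι z) / 2
      rw [map_add]
      linarith
    · have := hp.2.1 j (ι x)
      change p (ι (j • x)) / 2 = |(j : ℝ)| * (p (ι x) / 2)
      rw [map_zsmul, this]
      ring
    · refine ((hp.2.2 (2 * R)).preimage hι.injOn).subset fun x hx => ?_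
      have hx' : p (ι x) / 2 ≤ R := hx
      have : p (ι x) ≤ 2 * R := by linarith
      exact this
  · have h3 : (((X ×ˢ (Finset.univ : Finset (Fin (d + 1) → ZMod k))).image
        fun q => q.1 + φ (y q.2)).card : ℝ) ≤ (X.card : ℝ) * (k : ℝ) ^ (d + 1) := by
      have h4 := Finset.card_image_le (s := X ×ˢ (Finset.univ : Finset (Fin (d + 1) → ZMod k)))
        (f := fun q => q.1 + φ (y q.2))
      rw [Finset.card_product, Finset.card_univ, Fintype.card_fun, ZMod.card, Fintype.card_fin] at h4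
      exact_mod_cast h4
    refine h3.trans ?_
    have h5 : (X.card : ℝ) * (k : ℝ) ^ (d + 1) ≤ C * (k : ℝ) ^ (d + 1) :=
      mul_le_mul_of_nonneg_right hX (by positivity)
    have h6 : C * (k : ℝ) ^ (d + 1) ≤ C * ((k : ℝ) ^ (d + 1) + 4 ^ (d + 1)) :=
      mul_le_mul_of_nonneg_left (le_add_of_nonneg_right (by positivity)) hC
    exact h5.trans h6
  · intro a ha
    obtain ⟨x, hx, z, hz, rfl⟩ := hcov a ha
    obtain ⟨hy1, hy2⟩ := hy (fun i => ((z i : ℤ) : ZMod k)) z hz rfl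
    set y0 := y fun i => ((z i : ℤ) : ZMod k) with hy0
    obtain ⟨w, hw⟩ := Red2_div (k := k) (x := z) (y := y0) fun i => (congrFun hy2 i).symm
    have h3 : p (z - y0) ≤ 2 := by
      have h4 := hp.1 z (-y0)
      rw [Red2_neg hp, ← sub_eq_add_neg] at h4
      linarith
    have h4 : p w ≤ ε := by
      rw [hw, hp.2.1] at h3
      have h5 : |((k : ℤ) : ℝ)| = k := by
        rw [Int.cast_natCast]
        exact abs_of_pos hk0
      rw [h5] at h3
      have h6 : (k : ℝ) * p w ≤ k * ε := by linarith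
      exact le_of_mul_le_mul_left h6 hk0
    have h5 : l (z - y0) = 0 := by
      rw [hw, map_zsmul, hlz w h4, smul_zero]
    obtain ⟨v, hv⟩ := (hker _).1 h5
    refine ⟨x + φ y0, Finset.mem_image.2 ⟨(x, fun i => ((z i : ℤ) : ZMod k)),
      Finset.mem_product.2 ⟨hx, Finset.mem_univ _⟩, rfl⟩, v, ?_, ?_⟩
    · change p (ι v) / 2 ≤ 1
      rw [hv]
      linarith
    · rw [AddMonoidHom.comp_apply, hv, map_sub]
      abel
  · have h3 := h2 G (d + 1) 1 p φ 1 hp zero_le_one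
    have h4 : ((φ.comp ι) '' {z | p (ι z) / 2 ≤ 1}).ncard ≤ (φ '' {z | p z ≤ 2 ^ 1 * 1}).ncard := by
      refine Set.ncard_le_ncard ?_ ((hp.2.2 _).image φ)
      rintro _ ⟨z, hz, rfl⟩
      have hz' : p (ι z) / 2 ≤ 1 := hz
      refine ⟨ι z, ?_, rfl⟩
      have : p (ι z) ≤ 2 ^ 1 * 1 := by linarith
      exact this
    have h5 : (((φ.comp ι) '' {z | p (ι z) / 2 ≤ 1}).ncard : ℝ) ≤
        ((φ '' {z | p z ≤ 2 ^ 1 * 1}).ncard : ℝ) := by exact_mod_cast h4
    rw [mul_one (d + 1)] at h3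
    have h6 : (4 : ℝ) ^ (d + 1) * ((φ '' {z | p z ≤ 1}).ncard : ℝ) ≤
        4 ^ (d + 1) * (C * A.card) := mul_le_mul_of_nonneg_left hcard (by positivity)
    have h7 : (0 : ℝ) ≤ C * (k : ℝ) ^ (d + 1) * A.card := by positivity
    calc (((φ.comp ι) '' {z | p (ι z) / 2 ≤ 1}).ncard : ℝ)
        ≤ 4 ^ (d + 1) * (C * A.card) := h5.trans (h3.trans h6)
      _ ≤ C * ((k : ℝ) ^ (d + 1) + 4 ^ (d + 1)) * A.card := by nlinarith

end Pool.Agent.MAS
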