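import Pool.Agent.Lib.MP_95b053_co.MAS.Spec

/-!
MP_95b053_co, project MAS, module Ruz (helper28): a consequence of the triangle inequality of Ruzsa.
-/

set_option autoImplicit false

namespace Pool.Agent.MAS

open Finset
open scoped Pointwise

theorem rRuz : S_Ruz := by
  intro G _ _ E F σ hσ hF hle h
  have h1 := Finset.ruzsa_triangle_inequality_add_add_add E F E
  have h2 : ((E + E).card : ℝ) * F.card ≤ (E + F).card * (E + F).card := by
    have h3 : (E + E).card * F.card ≤ (E + F).card * (E + F).card := by
      have h4 : F + E = E + F := add_comm _ _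
      rw [h4] at h1
      exact h1
    exact_mod_cast h3
  have hF0 : (0 : ℝ) < F.card := by exact_mod_cast hF.card_pos
  have hle' : (F.card : ℝ) ≤ E.card := by exact_mod_cast hle
  have h5 : (σ * F.card) ^ 2 ≤ ((E + F).card : ℝ) ^ 2 := by
    have h6 : σ ^ 2 * (F.card : ℝ) ≤ (E + E).card :=
      (mul_le_mul_of_nonneg_left hle' (sq_nonneg _)).trans h
    have h7 := mul_le_mul_of_nonneg_right h6 hF0.le
    nlinarith
  exact (pow_le_pow_iff_left₀ (mul_nonneg hσ hF0.le) (Nat.cast_nonneg _) two_ne_zero).1 h5

end Pool.Agent.MAS
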