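import Pool.Agent.Lib.MP_95b053_co.H.Main

/-!
# MP_95b053_co, project MAS: sharpness (the sets of UpperBound have a constant ratio)
-/

set_option autoImplicit false

namespace Pool.Agent.MAS

open Finset Pool.Agent.H95

/-- lines with at least four points of `P`, three of them in the ratio `r = (p + 2 q)/3` -/
def richH (P : Finset (ℝ × ℝ)) : Set (AffineSubspace ℝ (ℝ × ℝ)) :=
  {L | Module.finrank ℝ L.direction = 1 ∧ 4 ≤ ((P : Set (ℝ × ℝ)) ∩ (L : Set (ℝ × ℝ))).ncard ∧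
    ∃ p ∈ P, ∃ q ∈ P, ∃ r ∈ P, p ∈ L ∧ q ∈ L ∧ r ∈ L ∧ p ≠ q ∧ p ≠ r ∧ q ≠ r ∧
      (3 : ℝ) • r = p + (2 : ℝ) • q}

theorem richH_sub {P : Finset (ℝ × ℝ)} : richH P ⊆
    {L : AffineSubspace ℝ (ℝ × ℝ) | Module.finrank ℝ L.direction = 1 ∧
      4 ≤ ((P : Set (ℝ × ℝ)) ∩ (L : Set (ℝ × ℝ))).ncard} := fun _ h => ⟨h.1, h.2.1⟩

theorem geo3 {κ : Type} [Fintype κ] [DecidableEq κ] (S : Finset (κ → ℤ)) (R : ℕ)
    (hR : ∀ u ∈ S, ∀ i, |u i| ≤ (R : ℤ)) (Fam : Finset ((κ → ℤ) × (κ → ℤ)))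
    (h1 : ∀ z ∈ Fam, z.1 ∈ S ∧ z.2 ∈ S ∧ z.1 ≠ z.2 ∧
      (∃ T ⊆ S, 4 ≤ T.card ∧ ∀ r ∈ T, Col z.1 z.2 r) ∧
      ∃ r ∈ S, r ≠ z.1 ∧ r ≠ z.2 ∧ ∀ i, 3 * r i = z.1 i + 2 * z.2 i)
    (h2 : ∀ z ∈ Fam, ∀ z' ∈ Fam, Col z.1 z.2 z'.1 → Col z.1 z.2 z'.2 → z = z')
    (n : ℕ) (hn : S.card ≤ n) :
    ∃ P : Finset (ℝ × ℝ), P.card = n ∧
      Fam.card ≤ (richH P).ncard ∧
      ∀ L : AffineSubspace ℝ (ℝ × ℝ), Module.finrank ℝ L.direction = 1 →
        ((P : Set (ℝ × ℝ)) ∩ (L : Set (ℝ × ℝ))).ncard ≤ 2 * R + 3 := by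
  classical
  obtain ⟨F, G, hF, hFG⟩ := generic κ
  set Φ : (κ → ℤ) → ℝ × ℝ := fun u => (F u, G u) with hΦ
  have hinj : Function.Injective Φ := by
    intro u v h
    have h3 : F u = F v := congrArg Prod.fst h
    have h4 : F (u - v) = 0 := by rw [map_sub, h3, sub_self]
    exact sub_eq_zero.1 (hF _ h4)
  -- collinear images come from collinear vectors
  have hcol : ∀ (L : AffineSubspace ℝ (ℝ × ℝ)), Module.finrank ℝ L.direction = 1 →
      ∀ u v w : κ → ℤ, Φ u ∈ L → Φ v ∈ L → Φ w ∈ L → Col u v w := by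
    intro L hL u v w hu hv hw
    have e := on_line L hL _ _ _ hu hv hw
    have e' : F (v - u) * G (w - u) = F (w - u) * G (v - u) := by
      simp only [map_sub]
      exact e
    intro i j
    have := hFG _ _ e' i j
    simpa using this
  -- collinear vectors have collinear images
  have hcol' : ∀ u v w : κ → ℤ, u ≠ v → Col u v w →
      Φ w ∈ affineSpan ℝ ({Φ u, Φ v} : Set (ℝ × ℝ)) := by
    intro u v w huv hc
    obtain ⟨i, hi⟩ : ∃ i, v i ≠ u i := by
      by_contra hcon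
      push Not at hcon
      exact huv (funext fun i => (hcon i).symm)
    have hi' : ((v i - u i : ℤ) : ℝ) ≠ 0 := by
      exact_mod_cast sub_ne_zero.2 hi
    have hvec : (v i - u i) • (w - u) = (w i - u i) • (v - u) := by
      funext j
      have := hc i j
      simpa [smul_eq_mul] using this
    have hFe : ((v i - u i : ℤ) : ℝ) * F (w - u) = ((w i - u i : ℤ) : ℝ) * F (v - u) := by
      have := congrArg F hvec
      rw [map_zsmul, map_zsmul, zsmul_eq_mul, zsmul_eq_mul] at this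
      exact this
    have hGe : ((v i - u i : ℤ) : ℝ) * G (w - u) = ((w i - u i : ℤ) : ℝ) * G (v - u) := by
      have := congrArg G hvec
      rw [map_zsmul, map_zsmul, zsmul_eq_mul, zsmul_eq_mul] at this
      exact this
    rw [map_sub, map_sub] at hFe hGe
    set t : ℝ := ((w i - u i : ℤ) : ℝ) / ((v i - u i : ℤ) : ℝ) with ht
    have h5 : Φ w = AffineMap.lineMap (Φ u) (Φ v) t := by
      rw [AffineMap.lineMap_apply]
      refine Prod.ext ?_ ?_
      · show F w = t * (F v - F u) + F u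
        rw [ht]
        field_simp
        linear_combination hFe
      · show G w = t * (G v - G u) + G u
        rw [ht]
        field_simp
        linear_combination hGe
    rw [h5]
    exact AffineMap.lineMap_mem_affineSpan_pair t _ _
  -- the extra points
  have hinf : ({q : ℝ × ℝ | q.2 = q.1 ^ 2} \ (S.image Φ : Finset (ℝ × ℝ))).Infinite := by
    refine Set.Infinite.sdiff ?_ (Finset.finite_toSet _)
    have h6 : (Set.range fun t : ℝ => ((t, t ^ 2) : ℝ × ℝ)) ⊆ {q : ℝ × ℝ | q.2 = q.1 ^ 2} := by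
      rintro _ ⟨t, rfl⟩
      rfl
    refine Set.Infinite.mono h6 (Set.infinite_range_of_injective ?_)
    intro s t h
    exact congrArg Prod.fst h
  obtain ⟨Q, hQ1, hQ2⟩ := hinf.exists_subset_card_eq (n - S.card)
  have hQp : ∀ q ∈ Q, q.2 = q.1 ^ 2 := fun q hq => (hQ1 hq).1
  have hdisj : Disjoint (S.image Φ) Q := by
    rw [Finset.disjoint_left]
    intro x hx hq
    exact (hQ1 hq).2 (Finset.mem_coe.2 hx)
  have hcardS : (S.image Φ).card = S.card := Finset.card_image_of_injective _ hinj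
  refine ⟨S.image Φ ∪ Q, ?_, ?_, ?_⟩
  · rw [Finset.card_union_of_disjoint hdisj, hcardS, hQ2]
    omega
  · -- rich lines
    have hmaps : ∀ z ∈ Fam, affineSpan ℝ ({Φ z.1, Φ z.2} : Set (ℝ × ℝ)) ∈
        richH (S.image Φ ∪ Q) := by
      intro z hz
      obtain ⟨hz1, hz2, hne, ⟨T, hT, hT4, hTc⟩, r0, hr0, hr1, hr2, hr3⟩ := h1 z hz
      refine ⟨line_rank _ _ fun h => hne (hinj h), ?_, ?_⟩
      swap
      · have hmemP : ∀ u ∈ S, Φ u ∈ S.image Φ ∪ Q := fun u hu =>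
          Finset.mem_union_left _ (Finset.mem_image_of_mem _ hu)
        have hv : (3 : ℤ) • r0 = z.1 + (2 : ℤ) • z.2 := by
          funext i
          have := hr3 i
          simpa [smul_eq_mul] using this
        have hF3 : 3 * F r0 = F z.1 + 2 * F z.2 := by
          have := congrArg F hv
          rw [map_add, map_zsmul, map_zsmul, zsmul_eq_mul, zsmul_eq_mul] at this
          exact_mod_cast this
        have hG3 : 3 * G r0 = G z.1 + 2 * G z.2 := by
          have := congrArg G hv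
          rw [map_add, map_zsmul, map_zsmul, zsmul_eq_mul, zsmul_eq_mul] at this
          exact_mod_cast this
        have hcc : Col z.1 z.2 r0 := by
          intro i j
          have e1 := hr3 i
          have e2 := hr3 j
          have e3 : (3 : ℤ) * ((z.2 i - z.1 i) * (r0 j - z.1 j)) =
              3 * ((r0 i - z.1 i) * (z.2 j - z.1 j)) := by
            linear_combination (z.2 i - z.1 i) * e2 - (z.2 j - z.1 j) * e1
          exact mul_left_cancel₀ (by norm_num) e3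
        refine ⟨Φ z.1, hmemP _ hz1, Φ z.2, hmemP _ hz2, Φ r0, hmemP _ hr0,
          left_mem_affineSpan_pair ℝ _ _, right_mem_affineSpan_pair ℝ _ _, hcol' _ _ _ hne hcc,
          fun h => hne (hinj h), fun h => hr1 (hinj h).symm, fun h => hr2 (hinj h).symm, ?_⟩
        exact Prod.ext hF3 hG3
      have h7 : ((T.image Φ : Finset (ℝ × ℝ)) : Set (ℝ × ℝ)) ⊆
          ((S.image Φ ∪ Q : Finset (ℝ × ℝ)) : Set (ℝ × ℝ)) ∩
            ((affineSpan ℝ ({Φ z.1, Φ z.2} : Set (ℝ × ℝ)) : AffineSubspace ℝ (ℝ × ℝ)) :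
              Set (ℝ × ℝ)) := by
        intro x hx
        obtain ⟨r, hr, rfl⟩ := Finset.mem_image.1 (Finset.mem_coe.1 hx)
        refine ⟨?_, hcol' _ _ _ hne (hTc r hr)⟩
        rw [Finset.mem_coe, Finset.mem_union]
        exact Or.inl (Finset.mem_image_of_mem _ (hT hr))
      have h8 := Set.ncard_le_ncard h7 ((Finset.finite_toSet _).subset Set.inter_subset_left)
      rw [Set.ncard_coe_finset, Finset.card_image_of_injective _ hinj] at h8
      exact hT4.trans h8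
    have hinjF : Set.InjOn (fun z : (κ → ℤ) × (κ → ℤ) =>
        affineSpan ℝ ({Φ z.1, Φ z.2} : Set (ℝ × ℝ))) (Fam : Set ((κ → ℤ) × (κ → ℤ))) := by
      intro z hz z' hz' he
      have he' : affineSpan ℝ ({Φ z.1, Φ z.2} : Set (ℝ × ℝ)) =
        affineSpan ℝ ({Φ z'.1, Φ z'.2} : Set (ℝ × ℝ)) := he
      have hr := (hmaps z hz).1
      have m1 : Φ z.1 ∈ affineSpan ℝ ({Φ z.1, Φ z.2} : Set (ℝ × ℝ)) := left_mem_affineSpan_pair ℝ _ _
      have m2 : Φ z.2 ∈ affineSpan ℝ ({Φ z.1, Φ z.2} : Set (ℝ × ℝ)) := right_mem_affineSpan_pair ℝ _ _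
      have m3 : Φ z'.1 ∈ affineSpan ℝ ({Φ z.1, Φ z.2} : Set (ℝ × ℝ)) := by
        rw [he']; exact left_mem_affineSpan_pair ℝ _ _
      have m4 : Φ z'.2 ∈ affineSpan ℝ ({Φ z.1, Φ z.2} : Set (ℝ × ℝ)) := by
        rw [he']; exact right_mem_affineSpan_pair ℝ _ _
      exact h2 z hz z' hz' (hcol _ hr _ _ _ m1 m2 m3) (hcol _ hr _ _ _ m1 m2 m4)
    rw [← Finset.card_image_of_injOn hinjF, ← Set.ncard_coe_finset]
    refine Set.ncard_le_ncard ?_ ((rich_finite _).subset richH_sub)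
    intro L hL
    obtain ⟨z, hz, rfl⟩ := Finset.mem_image.1 (Finset.mem_coe.1 hL)
    exact hmaps z hz
  · -- no line with many points
    intro L hL
    have h9 : (((S.image Φ ∪ Q : Finset (ℝ × ℝ)) : Set (ℝ × ℝ)) ∩ (L : Set (ℝ × ℝ))) =
        (((S.image Φ : Finset (ℝ × ℝ)) : Set (ℝ × ℝ)) ∩ (L : Set (ℝ × ℝ))) ∪
          ((Q : Set (ℝ × ℝ)) ∩ (L : Set (ℝ × ℝ))) := by
      rw [Finset.coe_union, Set.union_inter_distrib_right]
    have h10 := parabola L hL Q hQp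
    have h11 : (((S.image Φ : Finset (ℝ × ℝ)) : Set (ℝ × ℝ)) ∩ (L : Set (ℝ × ℝ))) =
        (((S.filter fun u => Φ u ∈ L).image Φ : Finset (ℝ × ℝ)) : Set (ℝ × ℝ)) := by
      ext x
      simp only [Set.mem_inter_iff, Finset.mem_coe, Finset.mem_image, Finset.mem_filter,
        SetLike.mem_coe]
      constructor
      · rintro ⟨⟨u, hu, rfl⟩, hx⟩
        exact ⟨u, ⟨hu, hx⟩, rfl⟩
      · rintro ⟨u, ⟨hu, hx⟩, rfl⟩
        exact ⟨⟨u, hu, rfl⟩, hx⟩
    have h12 : (S.filter fun u => Φ u ∈ L).card ≤ 2 * R + 1 := by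
      by_cases h13 : (S.filter fun u => Φ u ∈ L).card ≤ 1
      · omega
      · obtain ⟨u, v, hu, hv, huv⟩ := Finset.one_lt_card_iff.1 (not_le.1 h13)
        rw [Finset.mem_filter] at hu hv
        obtain ⟨i, hi⟩ : ∃ i, v i ≠ u i := by
          by_contra hcon
          push Not at hcon
          exact huv (funext fun i => (hcon i).symm)
        have h14 : (S.filter fun u => Φ u ∈ L).card ≤ (Finset.Icc (-(R : ℤ)) (R : ℤ)).card := by
          refine Finset.card_le_card_of_injOn (fun w => w i) ?_ ?_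
          · intro w hw
            rw [Finset.mem_coe, Finset.mem_filter] at hw
            rw [Finset.mem_coe, Finset.mem_Icc]
            exact abs_le.1 (hR w hw.1 i)
          · intro w hw w' hw' he
            rw [Finset.mem_coe, Finset.mem_filter] at hw hw'
            have c1 := hcol L hL u v w hu.2 hv.2 hw.2
            have c2 := hcol L hL u v w' hu.2 hv.2 hw'.2
            funext j
            have d1 := c1 i j
            have d2 := c2 i j
            have he' : w i = w' i := he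
            rw [he'] at d1
            have d3 : (v i - u i) * (w j - w' j) = 0 := by linear_combination d1 - d2
            rcases mul_eq_zero.1 d3 with d4 | d4
            · exact absurd (sub_eq_zero.1 d4) hi
            · exact sub_eq_zero.1 d4
        rw [Int.card_Icc] at h14
        omega
    rw [h9]
    refine (Set.ncard_union_le _ _).trans ?_
    rw [h11, Set.ncard_coe_finset, Finset.card_image_of_injective _ hinj]
    omega

theorem fam3 {k h N : ℕ} (hh : 1 ≤ h) (B B' : Finset (Fin k → ℤ × ℤ))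
    (Good : Finset ((Fin k → ℤ × ℤ) × (Fin k → ℤ × ℤ))) (hG : Good ⊆ B ×ˢ B)
    (hbig : ∀ z ∈ Good, ∀ e : Fin k → ℤ × ℤ, (∀ i, |(e i).1| ≤ 1 ∧ |(e i).2| ≤ 1) →
      z.1 + z.2 + e ∈ B' ∧ z.1 - z.2 + e ∈ B')
    (hB : ∀ p ∈ B, ∀ i, |(p i).1| ≤ (N : ℤ) ∧ |(p i).2| ≤ (N : ℤ))
    (hB' : ∀ p ∈ B', ∀ i, |(p i).1| ≤ (N : ℤ) ∧ |(p i).2| ≤ (N : ℤ))
    (n : ℕ) (hn : 2 * (B.card * (4 * h ^ 2) ^ k) + 2 * (B'.card * (2 * h ^ 2) ^ k) ≤ n) :
    ∃ P : Finset (ℝ × ℝ), P.card = n ∧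
      Good.card * (8 * h ^ 4) ^ k ≤
        (richH P).ncard ∧
      ∀ L : AffineSubspace ℝ (ℝ × ℝ), Module.finrank ℝ L.direction = 1 →
        ((P : Set (ℝ × ℝ)) ∩ (L : Set (ℝ × ℝ))).ncard ≤ 2 * (12 * h * (N + 1)) + 3 := by
  classical
  set A := pts h B (dig h) with hA
  set A' := pts h B' (dig' h) with hA'
  set S : Finset (Option (Fin k × Bool) → ℤ) :=
    (A.image (emb 3 3) ∪ A.image (emb 6 0)) ∪ (A'.image (emb 2 2) ∪ A'.image (emb 6 6)) with hS
  have hScard : S.card ≤ 2 * (B.card * (4 * h ^ 2) ^ k) + 2 * (B'.card * (2 * h ^ 2) ^ k) := by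
    have c1 : A.card ≤ B.card * (4 * h ^ 2) ^ k := by
      have := card_pts_le h B (dig h)
      rwa [card_dig] at this
    have c2 : A'.card ≤ B'.card * (2 * h ^ 2) ^ k := by
      have := card_pts_le h B' (dig' h)
      rwa [card_dig'] at this
    have d1 : (A.image (emb 3 3)).card ≤ A.card := Finset.card_image_le
    have d2 : (A.image (emb 6 0)).card ≤ A.card := Finset.card_image_le
    have d3 : (A'.image (emb 2 2)).card ≤ A'.card := Finset.card_image_le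
    have d4 : (A'.image (emb 6 6)).card ≤ A'.card := Finset.card_image_le
    have e1 := Finset.card_union_le (A.image (emb 3 3) ∪ A.image (emb 6 0))
      (A'.image (emb 2 2) ∪ A'.image (emb 6 6))
    have e2 := Finset.card_union_le (A.image (emb 3 3)) (A.image (emb 6 0))
    have e3 := Finset.card_union_le (A'.image (emb 2 2)) (A'.image (emb 6 6))
    rw [hS]
    omega
  set X : ((Fin k → ℤ × ℤ) × (Fin k → ℤ × ℤ)) × (Fin k → (ℤ × ℤ) × (ℤ × ℤ)) → (Fin k → ℤ × ℤ) :=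
    fun z => mk h z.1.1 (fun i => (z.2 i).1) with hX
  set Y : ((Fin k → ℤ × ℤ) × (Fin k → ℤ × ℤ)) × (Fin k → (ℤ × ℤ) × (ℤ × ℤ)) → (Fin k → ℤ × ℤ) :=
    fun z => mk h z.1.2 (fun i => (z.2 i).2) with hY
  set I : Finset (((Fin k → ℤ × ℤ) × (Fin k → ℤ × ℤ)) × (Fin k → (ℤ × ℤ) × (ℤ × ℤ))) :=
    Good ×ˢ Fintype.piFinset fun _ : Fin k => dig2 h with hI
  set f : ((Fin k → ℤ × ℤ) × (Fin k → ℤ × ℤ)) × (Fin k → (ℤ × ℤ) × (ℤ × ℤ)) →
      (Option (Fin k × Bool) → ℤ) × (Option (Fin k × Bool) → ℤ) :=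
    fun z => (emb 6 0 (Y z), emb 3 3 (X z)) with hf
  have hdig : ∀ w : Fin k → (ℤ × ℤ) × (ℤ × ℤ), w ∈ (Fintype.piFinset fun _ : Fin k => dig2 h) →
      (∀ i, w i ∈ dig2 h) ∧ (∀ i, (w i).1 ∈ dig h) ∧ (∀ i, (w i).2 ∈ dig h) := by
    intro w hw
    have h1 : ∀ i, w i ∈ dig2 h := Fintype.mem_piFinset.1 hw
    refine ⟨h1, fun i => ?_, fun i => ?_⟩
    · exact (Finset.mem_product.1 (Finset.mem_filter.1 (h1 i)).1).1
    · exact (Finset.mem_product.1 (Finset.mem_filter.1 (h1 i)).1).2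
  have hfinj : Set.InjOn f (I : Set _) := by
    intro z hz z' hz' he
    rw [Finset.mem_coe, hI, Finset.mem_product] at hz hz'
    obtain ⟨_, a1, a2⟩ := hdig _ hz.2
    obtain ⟨_, b1, b2⟩ := hdig _ hz'.2
    have e1 : Y z = Y z' := emb_inj (by norm_num) (congrArg Prod.fst he)
    have e2 : X z = X z' := emb_inj (by norm_num) (congrArg Prod.snd he)
    obtain ⟨c1, c2⟩ := mk_inj (u := fun i => (z.2 i).2) (u' := fun i => (z'.2 i).2) a2 b2 e1
    obtain ⟨c3, c4⟩ := mk_inj (u := fun i => (z.2 i).1) (u' := fun i => (z'.2 i).1) a1 b1 e2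
    refine Prod.ext (Prod.ext c3 c1) (funext fun i => Prod.ext ?_ ?_)
    · exact congrFun c4 i
    · exact congrFun c2 i
  have hFcard : (I.image f).card = Good.card * (8 * h ^ 4) ^ k := by
    rw [Finset.card_image_of_injOn hfinj, hI, Finset.card_product, Fintype.card_piFinset,
      Finset.prod_const, Finset.card_univ, Fintype.card_fin, card_dig2]
  have hmem : ∀ z ∈ I, X z ∈ A ∧ Y z ∈ A ∧ X z + Y z ∈ A' ∧ X z - Y z ∈ A' := by
    intro z hz
    rw [hI, Finset.mem_product] at hz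
    obtain ⟨a0, a1, a2⟩ := hdig _ hz.2
    have hg := Finset.mem_product.1 (hG hz.1)
    have hs := sum_mem hh a0 (hbig z.1 hz.1)
    exact ⟨mem_pts hg.1 a1, mem_pts hg.2 a2, hs.1, hs.2⟩
  have hbd : ∀ u ∈ S, ∀ o, |u o| ≤ ((12 * h * (N + 1) : ℕ) : ℤ) := by
    intro u hu o
    rw [hS, Finset.mem_union, Finset.mem_union, Finset.mem_union] at hu
    rcases hu with (hu | hu) | (hu | hu)
    · exact emb_bound hh (le_refl _) hB (by norm_num) (by norm_num) hu o
    · exact emb_bound hh (le_refl _) hB (by norm_num) (by norm_num) hu o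
    · exact emb_bound hh (Finset.filter_subset _ _) hB' (by norm_num) (by norm_num) hu o
    · exact emb_bound hh (Finset.filter_subset _ _) hB' (by norm_num) (by norm_num) hu o
  have hfour : ∀ z ∈ I.image f, z.1 ∈ S ∧ z.2 ∈ S ∧ z.1 ≠ z.2 ∧
      (∃ T ⊆ S, 4 ≤ T.card ∧ ∀ r ∈ T, Col z.1 z.2 r) ∧
      ∃ r ∈ S, r ≠ z.1 ∧ r ≠ z.2 ∧ ∀ i, 3 * r i = z.1 i + 2 * z.2 i := by
    intro z hz
    obtain ⟨y, hy, rfl⟩ := Finset.mem_image.1 hz
    obtain ⟨m1, m2, m3, m4⟩ := hmem y hy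
    have s1 : emb 6 0 (Y y) ∈ S := by
      rw [hS]
      exact Finset.mem_union_left _ (Finset.mem_union_right _ (Finset.mem_image_of_mem _ m2))
    have s2 : emb 3 3 (X y) ∈ S := by
      rw [hS]
      exact Finset.mem_union_left _ (Finset.mem_union_left _ (Finset.mem_image_of_mem _ m1))
    have s3 : emb 2 2 (X y + Y y) ∈ S := by
      rw [hS]
      exact Finset.mem_union_right _ (Finset.mem_union_left _ (Finset.mem_image_of_mem _ m3))
    have s4 : emb 6 6 (X y - Y y) ∈ S := by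
      rw [hS]
      exact Finset.mem_union_right _ (Finset.mem_union_right _ (Finset.mem_image_of_mem _ m4))
    have n1 : emb 6 0 (Y y) ≠ emb 3 3 (X y) := by
      intro h0; have := congrFun h0 none; simp [emb] at this
    have n2 : emb 6 0 (Y y) ≠ emb 2 2 (X y + Y y) := by
      intro h0; have := congrFun h0 none; simp [emb] at this
    have n3 : emb 6 0 (Y y) ≠ emb 6 6 (X y - Y y) := by
      intro h0; have := congrFun h0 none; simp [emb] at this
    have n4 : emb 3 3 (X y) ≠ emb 2 2 (X y + Y y) := by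
      intro h0; have := congrFun h0 none; simp [emb] at this
    have n5 : emb 3 3 (X y) ≠ emb 6 6 (X y - Y y) := by
      intro h0; have := congrFun h0 none; simp [emb] at this
    have n6 : emb 2 2 (X y + Y y) ≠ emb 6 6 (X y - Y y) := by
      intro h0; have := congrFun h0 none; simp [emb] at this
    refine ⟨s1, s2, n1, ⟨{emb 6 0 (Y y), emb 3 3 (X y), emb 2 2 (X y + Y y), emb 6 6 (X y - Y y)},
      ?_, ?_, ?_⟩, emb 2 2 (X y + Y y), s3, n2.symm, n4.symm, ?_⟩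
    rotate_right
    · rintro (_ | ⟨i, b⟩)
      · show (3 : ℤ) * 2 = 0 + 2 * 3; norm_num
      · cases b
        · show 3 * (2 * ((X y i).1 + (Y y i).1)) = 6 * (Y y i).1 + 2 * (3 * (X y i).1)
          ring
        · show 3 * (2 * ((X y i).2 + (Y y i).2)) = 6 * (Y y i).2 + 2 * (3 * (X y i).2)
          ring
    · intro r hr
      simp only [Finset.mem_insert, Finset.mem_singleton] at hr
      rcases hr with rfl | rfl | rfl | rfl
      · exact s1
      · exact s2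
      · exact s3
      · exact s4
    · rw [Finset.card_insert_of_notMem, Finset.card_insert_of_notMem, Finset.card_insert_of_notMem,
        Finset.card_singleton]
      · simp [n6]
      · simp [n4, n5]
      · simp [n1, n2, n3]
    · intro r hr
      simp only [Finset.mem_insert, Finset.mem_singleton] at hr
      rcases hr with rfl | rfl | rfl | rfl
      · intro i j; show _ = _; ring
      · intro i j; show _ = _; ring
      · refine col_of_smul 3 2 (by norm_num) ?_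
        rintro (_ | ⟨i, b⟩)
        · show (3 : ℤ) * (2 - 0) = 2 * (3 - 0); norm_num
        · cases b
          · show 3 * (2 * ((X y i).1 + (Y y i).1) - 6 * (Y y i).1) =
              2 * (3 * (X y i).1 - 6 * (Y y i).1)
            ring
          · show 3 * (2 * ((X y i).2 + (Y y i).2) - 6 * (Y y i).2) =
              2 * (3 * (X y i).2 - 6 * (Y y i).2)
            ring
      · refine col_of_smul 1 2 (by norm_num) ?_
        rintro (_ | ⟨i, b⟩)
        · show (1 : ℤ) * (6 - 0) = 2 * (3 - 0); norm_num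
        · cases b
          · show 1 * (6 * ((X y i).1 - (Y y i).1) - 6 * (Y y i).1) =
              2 * (3 * (X y i).1 - 6 * (Y y i).1)
            ring
          · show 1 * (6 * ((X y i).2 - (Y y i).2) - 6 * (Y y i).2) =
              2 * (3 * (X y i).2 - 6 * (Y y i).2)
            ring
  have hdiff : ∀ z ∈ I.image f, ∀ z' ∈ I.image f, Col z.1 z.2 z'.1 → Col z.1 z.2 z'.2 → z = z' := by
    intro z hz z' hz' c1 c2
    obtain ⟨y, hy, rfl⟩ := Finset.mem_image.1 hz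
    obtain ⟨y', hy', rfl⟩ := Finset.mem_image.1 hz'
    refine Prod.ext ?_ ?_
    · funext j
      have := c1 none j
      have e : ((3 : ℤ) - 0) * (emb 6 0 (Y y') j - emb 6 0 (Y y) j) =
          (0 - 0) * (emb 3 3 (X y) j - emb 6 0 (Y y) j) := this
      show emb 6 0 (Y y) j = emb 6 0 (Y y') j
      linarith
    · funext j
      have := c2 none j
      have e : ((3 : ℤ) - 0) * (emb 3 3 (X y') j - emb 6 0 (Y y) j) =
          (3 - 0) * (emb 3 3 (X y) j - emb 6 0 (Y y) j) := this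
      show emb 3 3 (X y) j = emb 3 3 (X y') j
      linarith
  obtain ⟨P, hP1, hP2, hP3⟩ := geo3 S (12 * h * (N + 1)) hbd (I.image f) hfour hdiff n
    (hScard.trans hn)
  exact ⟨P, hP1, hFcard ▸ hP2, hP3⟩

theorem mainK3 (ε : ℝ) (hε : 0 < ε) (hε1 : ε ≤ 1) :
    ∃ k0 : ℕ, ∀ k : ℕ, k0 ≤ k → ∃ C : ℝ, 0 ≤ C ∧ ∃ N0 : ℕ, ∀ n : ℕ, N0 ≤ n →
      ∃ P : Finset (ℝ × ℝ), P.card = n ∧
        ((2 * (1 + ε)) ^ k)⁻¹ * (n : ℝ) ^ 2 ≤
          ((richH P).ncard : ℝ) ∧
        ∀ L : AffineSubspace ℝ (ℝ × ℝ), Module.finrank ℝ L.direction = 1 →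
          ((((P : Set (ℝ × ℝ)) ∩ (L : Set (ℝ × ℝ))).ncard : ℕ) : ℝ) ≤
            C * (n : ℝ) ^ (1 / (2 * (k : ℝ))) := by
  classical
  set η : ℝ := ε / 18 with hηdef
  have hη : 0 < η := by positivity
  have hη18 : 18 * η = ε := by rw [hηdef]; ring
  set ρ : ℝ := (1 + η) * (2 + 2 * η) + η with hρdef
  have hρ2 : 2 ≤ ρ := by rw [hρdef]; nlinarith
  set τ : ℝ := (ρ * (1 + η)) / 2 with hτdef
  have hτ1 : 1 ≤ τ := by rw [hτdef]; nlinarith
  have hτ2 : τ ^ 2 ≤ 1 + ε / 2 := tau_sq hη hε1 hη18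
  -- k large
  obtain ⟨k1, hk1⟩ := pow_unbounded_of_one_lt (64 : ℝ)
    (show 1 < (1 + ε) / (1 + ε / 2) by rw [one_lt_div (by positivity)]; linarith)
  obtain ⟨k2, hk2⟩ := exists_nat_gt (2 / η ^ 2)
  refine ⟨max (max k1 k2) 1, fun k hk => ?_⟩
  have hkk1 : k1 ≤ k := le_trans (le_trans (le_max_left _ _) (le_max_left _ _)) hk
  have hkk2 : k2 ≤ k := le_trans (le_trans (le_max_right _ _) (le_max_left _ _)) hk
  have hk1' : 1 ≤ k := le_trans (le_max_right _ _) hk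
  have hkη : 2 ≤ (k : ℝ) * η ^ 2 := by
    have h1 : 2 / η ^ 2 ≤ (k : ℝ) := hk2.le.trans (by exact_mod_cast hkk2)
    rwa [div_le_iff₀ (by positivity)] at h1
  have h64 : 64 * (τ ^ 2) ^ k ≤ (1 + ε) ^ k := by
    have h1 : (64 : ℝ) ≤ ((1 + ε) / (1 + ε / 2)) ^ k :=
      hk1.le.trans (pow_le_pow_right₀ (by rw [one_le_div (by positivity)]; linarith) hkk1)
    have h2 : (τ ^ 2) ^ k ≤ (1 + ε / 2) ^ k := pow_le_pow_left₀ (by positivity) hτ2 k
    calc 64 * (τ ^ 2) ^ k ≤ ((1 + ε) / (1 + ε / 2)) ^ k * (1 + ε / 2) ^ k :=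
          mul_le_mul h1 h2 (by positivity) (by positivity)
      _ = (1 + ε) ^ k := by
          rw [← mul_pow, div_mul_cancel₀ _ (by positivity)]
  -- the radius
  obtain ⟨s, hs0, hs⟩ := growth (k := k) hk1' (ρ := ρ) (η := η)
    (s0 := max 1 ((1 + 1 / η) * (2 * k) / η)) (by linarith) hη (le_max_left _ _)
  have hs1 : 1 ≤ s := le_trans (le_max_left _ _) hs0
  have hs2 : (1 + 1 / η) * (2 * k) ≤ η * s := by
    have h1 : (1 + 1 / η) * (2 * k) / η ≤ s := le_trans (le_max_right _ _) hs0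
    rw [div_le_iff₀ hη] at h1
    linarith
  set B := ball k s with hBdef
  set B' := ball k (ρ * s) with hB'def
  set Good := (B ×ˢ B).filter fun z => |(ip z.1 z.2 : ℝ)| ≤ η * s with hGdef
  have hGood : (B.card : ℝ) ^ 2 / 2 ≤ (Good.card : ℝ) := good_pairs (by linarith) hη hkη
  have hBpos : 1 ≤ B.card := Finset.card_pos.2 ⟨_, zero_mem_ball k (by linarith)⟩
  have hBposR : (1 : ℝ) ≤ B.card := by exact_mod_cast hBpos
  set Nc : ℕ := ⌊Real.sqrt s⌋₊ + ⌊Real.sqrt (ρ * s)⌋₊ with hNc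
  set K : ℕ := 2 * (B.card * 4 ^ k) + 2 * (B'.card * 2 ^ k) with hKdef
  have hK1 : 1 ≤ K := by
    have : 0 < B.card * 4 ^ k := Nat.mul_pos hBpos (by positivity)
    omega
  -- upper bound for K
  have hKle : (K : ℝ) ≤ 4 * B.card * (4 ^ k * τ ^ k) := by
    have h1 : (B'.card : ℝ) ≤ (2 * τ) ^ k * B.card := by
      have : 2 * τ = ρ * (1 + η) := by rw [hτdef]; ring
      rw [this]; exact hs
    have h2 : (1 : ℝ) ≤ τ ^ k := one_le_pow₀ hτ1
    have h3 : (B'.card : ℝ) * 2 ^ k ≤ B.card * (4 ^ k * τ ^ k) := by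
      calc (B'.card : ℝ) * 2 ^ k ≤ ((2 * τ) ^ k * B.card) * 2 ^ k :=
            mul_le_mul_of_nonneg_right h1 (by positivity)
        _ = B.card * (4 ^ k * τ ^ k) := by
            have : (4 : ℝ) ^ k = 2 ^ k * 2 ^ k := by rw [← mul_pow]; norm_num
            rw [this, mul_pow]; ring
    have h4 : (B.card : ℝ) * 4 ^ k ≤ B.card * (4 ^ k * τ ^ k) := by
      refine mul_le_mul_of_nonneg_left ?_ (by positivity)
      have : (0 : ℝ) < 4 ^ k := by positivity
      nlinarith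
    rw [hKdef]
    push_cast
    linarith
  refine ⟨24 * (Nc + 1) + 3, by positivity, K * (8 * k) ^ (2 * k) + 1, fun n hn => ?_⟩
  obtain ⟨h, hh1, hh2⟩ := find_h K n k hK1 hk1'
  have hh8 : 8 * k ≤ h := by
    by_contra hcon
    rw [not_le] at hcon
    have h1 : (h + 1) ^ (2 * k) ≤ (8 * k) ^ (2 * k) := Nat.pow_le_pow_left (by omega) _
    have h2 : K * (h + 1) ^ (2 * k) ≤ K * (8 * k) ^ (2 * k) := Nat.mul_le_mul_left K h1
    omega
  have hh : 1 ≤ h := by omega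
  have hn' : 2 * (B.card * (4 * h ^ 2) ^ k) + 2 * (B'.card * (2 * h ^ 2) ^ k) ≤ n := by
    have h1 : K * h ^ (2 * k) = 2 * (B.card * (4 * h ^ 2) ^ k) + 2 * (B'.card * (2 * h ^ 2) ^ k) := by
      rw [hKdef, mul_pow, mul_pow, pow_mul h 2 k]
      ring
    omega
  have hbig : ∀ z ∈ Good, ∀ e : Fin k → ℤ × ℤ, (∀ i, |(e i).1| ≤ 1 ∧ |(e i).2| ≤ 1) →
      z.1 + z.2 + e ∈ B' ∧ z.1 - z.2 + e ∈ B' := by
    intro z hz e he
    rw [hGdef, Finset.mem_filter, Finset.mem_product] at hz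
    exact big_ball hη hz.1.1 hz.1.2 hz.2 he hs2
  have hBc : ∀ p ∈ B, ∀ i, |(p i).1| ≤ (Nc : ℤ) ∧ |(p i).2| ≤ (Nc : ℤ) := by
    intro p hp i
    have := ball_coord hp i
    rw [hNc]; push_cast
    constructor
    · linarith [this.1, Int.natCast_nonneg ⌊Real.sqrt (ρ * s)⌋₊]
    · linarith [this.2, Int.natCast_nonneg ⌊Real.sqrt (ρ * s)⌋₊]
  have hBc' : ∀ p ∈ B', ∀ i, |(p i).1| ≤ (Nc : ℤ) ∧ |(p i).2| ≤ (Nc : ℤ) := by
    intro p hp i
    have := ball_coord hp i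
    rw [hNc]; push_cast
    constructor
    · linarith [this.1, Int.natCast_nonneg ⌊Real.sqrt s⌋₊]
    · linarith [this.2, Int.natCast_nonneg ⌊Real.sqrt s⌋₊]
  obtain ⟨P, hP1, hP2, hP3⟩ := fam3 hh B B' Good (Finset.filter_subset _ _) hbig hBc hBc' n hn'
  refine ⟨P, hP1, ?_, ?_⟩
  · refine le_trans ?_ (show ((Good.card * (8 * h ^ 4) ^ k : ℕ) : ℝ) ≤ _ by exact_mod_cast hP2)
    push_cast
    have hhpos : (0 : ℝ) < h := by exact_mod_cast hh
    have e1 : (n : ℝ) ≤ K * ((h : ℝ) + 1) ^ (2 * k) := by exact_mod_cast hh2.le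
    have e2 : (n : ℝ) ^ 2 ≤ (K : ℝ) ^ 2 * (2 * (h : ℝ) ^ (4 * k)) := by
      calc (n : ℝ) ^ 2 ≤ (K * ((h : ℝ) + 1) ^ (2 * k)) ^ 2 :=
            pow_le_pow_left₀ (Nat.cast_nonneg _) e1 2
        _ = (K : ℝ) ^ 2 * ((h : ℝ) + 1) ^ (4 * k) := by
            rw [mul_pow, ← pow_mul]; congr 2; ring
        _ ≤ (K : ℝ) ^ 2 * (2 * (h : ℝ) ^ (4 * k)) :=
            mul_le_mul_of_nonneg_left (succ_pow_le hh hh8) (by positivity)
    have e3 : (K : ℝ) ^ 2 ≤ 16 * (B.card : ℝ) ^ 2 * (16 ^ k * (τ ^ 2) ^ k) := by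
      calc (K : ℝ) ^ 2 ≤ (4 * B.card * (4 ^ k * τ ^ k)) ^ 2 :=
            pow_le_pow_left₀ (Nat.cast_nonneg _) hKle 2
        _ = 16 * (B.card : ℝ) ^ 2 * (16 ^ k * (τ ^ 2) ^ k) := by
            have h16 : (16 : ℝ) ^ k = (4 ^ k) ^ 2 := by
              rw [← pow_mul, mul_comm, pow_mul]; norm_num
            rw [h16, ← pow_mul τ 2 k, mul_comm 2 k, pow_mul]
            ring
    have hb0 : (0 : ℝ) ≤ (B.card : ℝ) ^ 2 := by positivity
    have hh0 : (0 : ℝ) < (h : ℝ) ^ (4 * k) := by positivity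
    have e4 : (n : ℝ) ^ 2 ≤ (32 * (τ ^ 2) ^ k) * (16 ^ k * ((B.card : ℝ) ^ 2 * (h : ℝ) ^ (4 * k))) := by
      calc (n : ℝ) ^ 2 ≤ (K : ℝ) ^ 2 * (2 * (h : ℝ) ^ (4 * k)) := e2
        _ ≤ (16 * (B.card : ℝ) ^ 2 * (16 ^ k * (τ ^ 2) ^ k)) * (2 * (h : ℝ) ^ (4 * k)) :=
            mul_le_mul_of_nonneg_right e3 (by positivity)
        _ = (32 * (τ ^ 2) ^ k) * (16 ^ k * ((B.card : ℝ) ^ 2 * (h : ℝ) ^ (4 * k))) := by ring
    have e5 : (32 * (τ ^ 2) ^ k) * (16 ^ k * ((B.card : ℝ) ^ 2 * (h : ℝ) ^ (4 * k))) ≤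
        ((1 + ε) ^ k / 2) * (16 ^ k * ((B.card : ℝ) ^ 2 * (h : ℝ) ^ (4 * k))) := by
      refine mul_le_mul_of_nonneg_right ?_ (by positivity)
      linarith
    have e6 : (8 * (h : ℝ) ^ 4) ^ k = 8 ^ k * (h : ℝ) ^ (4 * k) := by
      rw [mul_pow, ← pow_mul]
    have hpow : (0 : ℝ) < (2 * (1 + ε)) ^ k := by positivity
    rw [inv_mul_le_iff₀ hpow]
    calc (n : ℝ) ^ 2 ≤ ((1 + ε) ^ k / 2) * (16 ^ k * ((B.card : ℝ) ^ 2 * (h : ℝ) ^ (4 * k))) :=
          e4.trans e5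
      _ = (2 * (1 + ε)) ^ k * ((B.card : ℝ) ^ 2 / 2 * (8 * (h : ℝ) ^ 4) ^ k) := by
          have h16 : (16 : ℝ) ^ k = 2 ^ k * 8 ^ k := by rw [← mul_pow]; norm_num
          rw [e6, h16, mul_pow]
          ring
      _ ≤ (2 * (1 + ε)) ^ k * ((Good.card : ℝ) * (8 * (h : ℝ) ^ 4) ^ k) := by
          refine mul_le_mul_of_nonneg_left ?_ hpow.le
          exact mul_le_mul_of_nonneg_right hGood (by positivity)
  · intro L hL
    have h1 := hP3 L hL
    have h2 : (((((P : Set (ℝ × ℝ)) ∩ (L : Set (ℝ × ℝ))).ncard : ℕ) : ℝ)) ≤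
        2 * (12 * h * (Nc + 1)) + 3 := by exact_mod_cast h1
    refine h2.trans ?_
    have hn1 : (1 : ℝ) ≤ n := by
      have : 1 ≤ n := by omega
      exact_mod_cast this
    have hkpos : (0 : ℝ) < 2 * (k : ℝ) := by
      have : (0 : ℝ) < k := by exact_mod_cast hk1'
      linarith
    have hx1 : (1 : ℝ) ≤ (n : ℝ) ^ (1 / (2 * (k : ℝ))) :=
      Real.one_le_rpow hn1 (by positivity)
    have hx2 : (h : ℝ) ≤ (n : ℝ) ^ (1 / (2 * (k : ℝ))) := by
      have h3 : (h : ℝ) ^ (2 * k) ≤ n := by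
        have h4 : h ^ (2 * k) ≤ n := le_trans (Nat.le_mul_of_pos_left _ hK1) hh1
        exact_mod_cast h4
      have h5 : ((h : ℝ) ^ (2 * k)) ^ (1 / (2 * (k : ℝ))) ≤ (n : ℝ) ^ (1 / (2 * (k : ℝ))) :=
        Real.rpow_le_rpow (by positivity) h3 (by positivity)
      rw [← Real.rpow_natCast, ← Real.rpow_mul (Nat.cast_nonneg _)] at h5
      have h6 : ((2 * k : ℕ) : ℝ) * (1 / (2 * (k : ℝ))) = 1 := by
        push_cast
        field_simp
      rw [h6, Real.rpow_one] at h5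
      exact h5
    have hNc0 : (0 : ℝ) ≤ Nc := Nat.cast_nonneg _
    have h7 : (h : ℝ) * (Nc + 1) ≤ (n : ℝ) ^ (1 / (2 * (k : ℝ))) * (Nc + 1) :=
      mul_le_mul_of_nonneg_right hx2 (by linarith)
    nlinarith

theorem rSharp (e : ℝ) (he : 0 < e) :
    ∃ d₀ : ℕ, ∀ d : ℕ, d₀ ≤ d → ∃ C : ℝ, ∃ N : ℕ, ∀ n : ℕ, N ≤ n →
      ∃ P : Finset (ℝ × ℝ), P.card = n ∧
        (2 : ℝ) ^ (-((1 / 2 + e) * (d : ℝ))) * (n : ℝ) ^ 2 ≤
          ((richH P).ncard : ℝ) ∧
        ∀ L : AffineSubspace ℝ (ℝ × ℝ), Module.finrank ℝ L.direction = 1 →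
          ((((P : Set (ℝ × ℝ)) ∩ (L : Set (ℝ × ℝ))).ncard : ℕ) : ℝ) ≤
            C * (n : ℝ) ^ (1 / (d : ℝ)) := by
  have hlog2 : 0 < Real.log 2 := Real.log_pos (by norm_num)
  set ε : ℝ := min (e * Real.log 2) 1 with hεdef
  have hε : 0 < ε := lt_min (by positivity) one_pos
  have hε1 : ε ≤ 1 := min_le_right _ _
  have hε2 : ε ≤ e * Real.log 2 := min_le_left _ _
  obtain ⟨k0, hk0⟩ := mainK3 ε hε hε1
  obtain ⟨m0, hm0⟩ := exists_nat_gt ((1 + e) / e)
  refine ⟨max (2 * k0 + 2) m0, fun d hd => ?_⟩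
  have hd1 : 2 * k0 + 2 ≤ d := le_trans (le_max_left _ _) hd
  have hd2 : m0 ≤ d := le_trans (le_max_right _ _) hd
  -- `k` is half of `d`, rounded up
  set k : ℕ := (d + 1) / 2 with hk
  have hk1 : k0 ≤ k := by omega
  have hk2 : d ≤ 2 * k := by omega
  have hk3 : 2 * k ≤ d + 1 := by omega
  obtain ⟨C, hC, N, hN⟩ := hk0 k hk1
  have hdpos : (0 : ℝ) < d := by
    have : 0 < d := by omega
    exact_mod_cast this
  have hkd : (d : ℝ) ≤ 2 * (k : ℝ) := by exact_mod_cast hk2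
  have hkd' : 2 * (k : ℝ) ≤ d + 1 := by exact_mod_cast hk3
  -- densities
  have hdens : (2 : ℝ) ^ (-((1 / 2 + e) * (d : ℝ))) ≤ ((2 * (1 + ε)) ^ k)⁻¹ := by
    have h1 : 2 * (1 + ε) ≤ (2 : ℝ) ^ (1 + e) := by
      rw [Real.rpow_add (by norm_num), Real.rpow_one]
      have h2 : (2 : ℝ) ^ e = Real.exp (e * Real.log 2) := by
        rw [Real.rpow_def_of_pos (by norm_num), mul_comm]
      rw [h2]
      have h3 := Real.add_one_le_exp (e * Real.log 2)
      linarith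
    have h4 : (2 * (1 + ε)) ^ k ≤ (2 : ℝ) ^ ((1 + e) * (k : ℝ)) := by
      calc (2 * (1 + ε)) ^ k ≤ ((2 : ℝ) ^ (1 + e)) ^ k := pow_le_pow_left₀ (by positivity) h1 k
        _ = (2 : ℝ) ^ ((1 + e) * (k : ℝ)) := by
            rw [← Real.rpow_natCast, ← Real.rpow_mul (by norm_num)]
    have h5 : (1 + e) * (k : ℝ) ≤ (1 / 2 + e) * (d : ℝ) := by
      have h6 : (1 + e) / e ≤ (d : ℝ) := hm0.le.trans (by exact_mod_cast hd2)
      rw [div_le_iff₀ he] at h6
      nlinarith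
    rw [Real.rpow_neg (by norm_num)]
    refine inv_anti₀ (by positivity) (h4.trans ?_)
    exact Real.rpow_le_rpow_of_exponent_le (by norm_num) h5
  refine ⟨C, max N 1, fun n hn => ?_⟩
  obtain ⟨P, hP1, hP2, hP3⟩ := hN n (le_trans (le_max_left _ _) hn)
  have hn1 : (1 : ℝ) ≤ n := by
    have : 1 ≤ n := le_trans (le_max_right _ _) hn
    exact_mod_cast this
  refine ⟨P, hP1, (mul_le_mul_of_nonneg_right hdens (by positivity)).trans hP2, fun L hL => ?_⟩
  refine (hP3 L hL).trans (mul_le_mul_of_nonneg_left ?_ hC)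
  refine Real.rpow_le_rpow_of_exponent_le hn1 ?_
  exact one_div_le_one_div_of_le hdpos hkd

end Pool.Agent.MAS
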