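import Pool.Agent.Lib.MP_95b053_co.MAS.Spec
import Pool.Agent.Lib.MP_8dbdcc_co.Bsg

/-!
# Sums `x + y ∈ C` with `x ∈ A`, `y ∈ B`: a large part of `A` has small doubling
-/

set_option autoImplicit false

namespace Pool.Agent.MAS

open Finset
open scoped Pointwise

/-- The space of the lifts. -/
abbrev E3 : Type := ℝ × ℝ × ℝ

/-- number of representations as a difference -/
noncomputable def popR (P : Finset E3) (d : E3) : ℕ := by
  classical
  exact ((P ×ˢ P).filter (fun w => w.1 - w.2 = d)).card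

theorem popR_le (P : Finset E3) (d : E3) : popR P d ≤ P.card := by
  classical
  unfold popR
  refine Finset.card_le_card_of_injOn Prod.fst ?_ ?_
  · intro w hw
    rw [Finset.mem_coe, mem_filter, mem_product] at hw
    exact hw.1.1
  · intro w hw w' hw' h
    rw [Finset.mem_coe, mem_filter] at hw hw'
    have h1 := hw.2
    have h2 := hw'.2
    have h3 : w.2 = w'.2 := by
      have e1 : w.2 = w.1 - d := by rw [← h1]; abel
      have e2 : w'.2 = w'.1 - d := by rw [← h2]; abel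
      rw [e1, e2, h]
    exact Prod.ext h h3

theorem popR_neg (P : Finset E3) (d : E3) : popR P (-d) = popR P d := by
  classical
  unfold popR
  refine Finset.card_bij (fun w _ => (w.2, w.1)) ?_ ?_ ?_
  · intro w hw
    rw [mem_filter, mem_product] at hw ⊢
    refine ⟨⟨hw.1.2, hw.1.1⟩, ?_⟩
    have := hw.2
    change w.2 - w.1 = d
    rw [← neg_sub, this, neg_neg]
  · intro w _ w' _ h
    simp only [Prod.mk.injEq] at h
    exact Prod.ext h.2 h.1
  · intro w hw
    rw [mem_filter, mem_product] at hw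
    refine ⟨(w.2, w.1), ?_, rfl⟩
    rw [mem_filter, mem_product]
    refine ⟨⟨hw.1.2, hw.1.1⟩, ?_⟩
    change w.2 - w.1 = -d
    rw [← hw.2]
    abel

/-- Popular differences. -/
theorem pop2 (A B C : Finset E3) (n α : ℝ) (hn0 : 0 < n) (hA : (A.card : ℝ) ≤ n)
    (hB : (B.card : ℝ) ≤ n) (hC : (C.card : ℝ) ≤ n) (hα : 0 < α)
    (hyp : α * n ^ 2 ≤ (((A ×ˢ B).filter fun z => z.1 + z.2 ∈ C).card : ℝ)) :
    ∃ D : Finset E3, (∀ g ∈ D, -g ∈ D) ∧ (D.card : ℝ) * α ^ 2 ≤ 2 * n ∧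
      α ^ 2 / 2 * n ^ 2 ≤ (((A ×ˢ A).filter fun z => -z.1 + z.2 ∈ D).card : ℝ) := by
  set F := (A ×ˢ B).filter (fun z : E3 × E3 => z.1 + z.2 ∈ C) with hF
  set ν : E3 → ℕ := fun x => (F.filter (fun z => z.1 + z.2 = x)).card with hν
  have hsum : F.card = ∑ x ∈ C, ν x := by
    refine Finset.card_eq_sum_card_fiberwise (f := fun z : E3 × E3 => z.1 + z.2) ?_
    intro z hz
    rw [Finset.mem_coe, hF, mem_filter] at hz
    exact hz.2
  -- Cauchy-Schwarz
  have hCS : α ^ 2 * n ^ 3 ≤ ∑ x ∈ C, (ν x : ℝ) ^ 2 := by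
    have h1 := sq_sum_le_card_mul_sum_sq (s := C) (f := fun x => (ν x : ℝ))
    have h2 : (F.card : ℝ) = ∑ x ∈ C, (ν x : ℝ) := by
      rw [hsum]
      push_cast
      rfl
    rw [← h2] at h1
    have h3 : (α * n ^ 2) ^ 2 ≤ (F.card : ℝ) ^ 2 := pow_le_pow_left₀ (by positivity) hyp 2
    have h5 : (C.card : ℝ) * ∑ x ∈ C, (ν x : ℝ) ^ 2 ≤ n * ∑ x ∈ C, (ν x : ℝ) ^ 2 :=
      mul_le_mul_of_nonneg_right hC (Finset.sum_nonneg fun x _ => sq_nonneg _)
    have h4 : n * (α ^ 2 * n ^ 3) ≤ n * ∑ x ∈ C, (ν x : ℝ) ^ 2 := by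
      calc n * (α ^ 2 * n ^ 3) = (α * n ^ 2) ^ 2 := by ring
        _ ≤ _ := h3
        _ ≤ _ := h1
        _ ≤ _ := h5
    exact le_of_mul_le_mul_left h4 hn0
  -- the quadruples
  set Q := ((A ×ˢ A) ×ˢ (B ×ˢ B)).filter
    (fun q : (E3 × E3) × (E3 × E3) => q.2.1 - q.2.2 = q.1.1 - q.1.2) with hQ
  have hQ1 : ∑ x ∈ C, ν x ^ 2 ≤ Q.card := by
    have h1 : ∀ x ∈ C, ν x ^ 2 = (((F.filter (fun z => z.1 + z.2 = x)) ×ˢ
        (F.filter (fun z => z.1 + z.2 = x)))).card := by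
      intro x _
      rw [Finset.card_product, hν, sq]
    rw [Finset.sum_congr rfl h1, ← Finset.card_biUnion]
    · refine Finset.card_le_card_of_injOn (fun q => ((q.1.1, q.2.1), (q.2.2, q.1.2))) ?_ ?_
      · intro q hq
        rw [Finset.mem_coe, mem_biUnion] at hq
        obtain ⟨x, hx, hq⟩ := hq
        rw [mem_product, mem_filter, mem_filter, hF, mem_filter, mem_filter, mem_product,
          mem_product] at hq
        obtain ⟨⟨⟨⟨h11, h12⟩, _⟩, h1x⟩, ⟨⟨h21, h22⟩, _⟩, h2x⟩ := hq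
        rw [Finset.mem_coe, hQ, mem_filter, mem_product, mem_product, mem_product]
        refine ⟨⟨⟨h11, h21⟩, ⟨h22, h12⟩⟩, ?_⟩
        change q.2.2 - q.1.2 = q.1.1 - q.2.1
        have h3 : q.1.1 + q.1.2 = q.2.1 + q.2.2 := h1x.trans h2x.symm
        rw [sub_eq_sub_iff_add_eq_add, add_comm, ← h3]
      · intro q _ q' _ h
        simp only [Prod.mk.injEq] at h
        exact Prod.ext (Prod.ext h.1.1 h.2.2) (Prod.ext h.1.2 h.2.1)
    · intro x _ y _ hxy
      rw [Function.onFun, Finset.disjoint_left]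
      intro q hq hq'
      rw [mem_product, mem_filter] at hq hq'
      exact hxy (hq.1.2.symm.trans hq'.1.2)
  have hQ2 : α ^ 2 * n ^ 3 ≤ Q.card := by
    refine hCS.trans ?_
    exact_mod_cast hQ1
  -- the popular differences
  set D := (A - A).filter (fun d => α ^ 2 / 2 * n ≤ (popR B d : ℝ)) with hD
  have hDmem : ∀ w ∈ A ×ˢ A, (w.1 - w.2 ∈ D ↔ α ^ 2 / 2 * n ≤ (popR B (w.1 - w.2) : ℝ)) := by
    intro w hw
    rw [mem_product] at hw
    rw [hD, mem_filter]
    exact ⟨fun h => h.2, fun h => ⟨Finset.sub_mem_sub hw.1 hw.2, h⟩⟩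
  have hDneg : ∀ g ∈ D, -g ∈ D := by
    intro g hg
    rw [hD, mem_filter] at hg ⊢
    refine ⟨?_, ?_⟩
    · obtain ⟨a, ha, b, hb, rfl⟩ := Finset.mem_sub.mp hg.1
      rw [neg_sub]
      exact Finset.sub_mem_sub hb ha
    · rw [popR_neg]
      exact hg.2
  set W := (A ×ˢ A).filter (fun w : E3 × E3 => w.1 - w.2 ∈ D) with hW
  have hsplit : Q.card = (Q.filter (fun q => q.1.1 - q.1.2 ∈ D)).card +
      (Q.filter (fun q => ¬ (q.1.1 - q.1.2 ∈ D))).card :=
    (Finset.card_filter_add_card_filter_not _).symm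
  have hA1 : (Q.filter (fun q => q.1.1 - q.1.2 ∈ D)).card ≤ W.card * B.card := by
    have h1 : (Q.filter (fun q => q.1.1 - q.1.2 ∈ D)).card =
        ∑ w ∈ W, ((Q.filter (fun q => q.1.1 - q.1.2 ∈ D)).filter (fun q => q.1 = w)).card := by
      refine Finset.card_eq_sum_card_fiberwise (f := Prod.fst) ?_
      intro q hq
      rw [Finset.mem_coe, mem_filter, hQ, mem_filter, mem_product] at hq
      rw [Finset.mem_coe, hW, mem_filter]
      exact ⟨hq.1.1.1, hq.2⟩
    rw [h1]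
    refine (Finset.sum_le_card_nsmul W _ B.card ?_).trans (le_of_eq (by rw [smul_eq_mul]))
    intro w _
    refine le_trans ?_ (popR_le B (w.1 - w.2))
    unfold popR
    refine Finset.card_le_card_of_injOn Prod.snd ?_ ?_
    · intro q hq
      rw [Finset.mem_coe, mem_filter, mem_filter, hQ, mem_filter, mem_product] at hq
      rw [Finset.mem_coe, mem_filter]
      obtain ⟨⟨⟨⟨_, h2⟩, h3⟩, _⟩, h5⟩ := hq
      refine ⟨h2, ?_⟩
      rw [h3, h5]
    · intro q hq q' hq' h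
      rw [Finset.mem_coe, mem_filter] at hq hq'
      exact Prod.ext (hq.2.trans hq'.2.symm) h
  have hB1 : ((Q.filter (fun q => ¬ (q.1.1 - q.1.2 ∈ D))).card : ℝ) ≤
      n ^ 2 * (α ^ 2 / 2 * n) := by
    have h1 : (Q.filter (fun q => ¬ (q.1.1 - q.1.2 ∈ D))).card =
        ∑ w ∈ A ×ˢ A,
          ((Q.filter (fun q => ¬ (q.1.1 - q.1.2 ∈ D))).filter (fun q => q.1 = w)).card := by
      refine Finset.card_eq_sum_card_fiberwise (f := Prod.fst) ?_
      intro q hq
      rw [Finset.mem_coe, mem_filter, hQ, mem_filter, mem_product] at hq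
      exact hq.1.1.1
    rw [h1]
    push_cast
    have h2 : ∀ w ∈ A ×ˢ A,
        (((Q.filter (fun q => ¬ (q.1.1 - q.1.2 ∈ D))).filter (fun q => q.1 = w)).card : ℝ) ≤
          α ^ 2 / 2 * n := by
      intro w hw
      by_cases hem : ((Q.filter (fun q => ¬ (q.1.1 - q.1.2 ∈ D))).filter (fun q => q.1 = w)).Nonempty
      · obtain ⟨q0, hq0⟩ := hem
        rw [mem_filter, mem_filter, hQ, mem_filter, mem_product] at hq0
        obtain ⟨⟨⟨⟨g1, _⟩, g2⟩, g3⟩, g4⟩ := hq0
        have g5 : (popR B (w.1 - w.2) : ℝ) < α ^ 2 / 2 * n := by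
          rw [g4, hDmem w hw, not_le] at g3
          exact g3
        refine le_trans ?_ g5.le
        have g6 : ((Q.filter (fun q => ¬ (q.1.1 - q.1.2 ∈ D))).filter (fun q => q.1 = w)).card ≤
            popR B (w.1 - w.2) := by
          unfold popR
          refine Finset.card_le_card_of_injOn Prod.snd ?_ ?_
          · intro q hq
            rw [Finset.mem_coe, mem_filter, mem_filter, hQ, mem_filter, mem_product] at hq
            obtain ⟨⟨⟨⟨_, k1⟩, k2⟩, _⟩, k4⟩ := hq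
            rw [Finset.mem_coe, mem_filter]
            refine ⟨k1, ?_⟩
            rw [k2, k4]
          · intro q hq q' hq' h
            rw [Finset.mem_coe, mem_filter] at hq hq'
            exact Prod.ext (hq.2.trans hq'.2.symm) h
        exact_mod_cast g6
      · rw [Finset.not_nonempty_iff_eq_empty] at hem
        rw [hem, Finset.card_empty]
        push_cast
        positivity
    refine (Finset.sum_le_sum h2).trans ?_
    rw [Finset.sum_const, Finset.card_product, nsmul_eq_mul]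
    push_cast
    refine mul_le_mul_of_nonneg_right ?_ (by positivity)
    rw [sq]
    exact mul_le_mul hA hA (Nat.cast_nonneg _) hn0.le
  have hWc : α ^ 2 / 2 * n ^ 2 ≤ W.card := by
    have h1 : (Q.card : ℝ) ≤ W.card * n + n ^ 2 * (α ^ 2 / 2 * n) := by
      rw [hsplit]
      push_cast
      have hA' : ((Q.filter (fun q => q.1.1 - q.1.2 ∈ D)).card : ℝ) ≤ W.card * n := by
        have h2 : ((Q.filter (fun q => q.1.1 - q.1.2 ∈ D)).card : ℝ) ≤ W.card * B.card := by
          exact_mod_cast hA1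
        exact h2.trans (mul_le_mul_of_nonneg_left hB (Nat.cast_nonneg _))
      linarith
    have h2 : (α ^ 2 / 2 * n ^ 2) * n ≤ W.card * n := by nlinarith
    exact le_of_mul_le_mul_right h2 hn0
  refine ⟨D, hDneg, ?_, ?_⟩
  · -- size of D
    have h1 : (D.card : ℝ) * (α ^ 2 / 2 * n) ≤ n ^ 2 := by
      have h2 : ∑ d ∈ D, popR B d ≤ (B ×ˢ B).card := by
        unfold popR
        rw [← Finset.card_biUnion]
        · apply Finset.card_le_card
          intro w hw
          rw [mem_biUnion] at hw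
          obtain ⟨d, _, hw⟩ := hw
          exact (mem_filter.mp hw).1
        · intro x _ y _ hxy
          rw [Function.onFun, Finset.disjoint_left]
          intro q hq hq'
          rw [mem_filter] at hq hq'
          exact hxy (hq.2.symm.trans hq'.2)
      have h3 : (D.card : ℝ) * (α ^ 2 / 2 * n) ≤ ∑ d ∈ D, (popR B d : ℝ) := by
        rw [← nsmul_eq_mul]
        refine Finset.card_nsmul_le_sum D _ _ ?_
        intro d hd
        rw [hD, mem_filter] at hd
        exact hd.2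
      refine h3.trans ?_
      have h4 : ((∑ d ∈ D, popR B d : ℕ) : ℝ) ≤ ((B ×ˢ B).card : ℝ) := by exact_mod_cast h2
      rw [Finset.card_product] at h4
      push_cast at h4
      have h5 : (B.card : ℝ) * B.card ≤ n ^ 2 := by
        rw [sq]
        exact mul_le_mul hB hB (Nat.cast_nonneg _) hn0.le
      linarith
    have h5 : (D.card * α ^ 2) * n ≤ (2 * n) * n := by nlinarith
    exact le_of_mul_le_mul_right h5 hn0
  · refine hWc.trans (le_of_eq ?_)
    congr 1
    congr 1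
    ext w
    have e : -w.1 + w.2 = -(w.1 - w.2) := by abel
    constructor
    · intro h
      have h1 := (Finset.mem_filter.mp h).1
      have h2 := (Finset.mem_filter.mp h).2
      refine Finset.mem_filter.mpr ⟨h1, ?_⟩
      rw [e]
      exact hDneg _ h2
    · intro h
      have h1 := (Finset.mem_filter.mp h).1
      have h2 := (Finset.mem_filter.mp h).2
      refine Finset.mem_filter.mpr ⟨h1, ?_⟩
      rw [e] at h2
      have := hDneg _ h2
      rwa [neg_neg] at this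

private theorem card_aux (v p δ α : ℝ) (hα : 0 < α) (hp : 0 < p) (hδ : 0 ≤ δ)
    (h1 : v * ((α ^ 2 / 2) ^ 5 * p ^ 3) ≤ 4096 * δ ^ 4) (h2 : δ * α ^ 2 ≤ 2 * p) :
    v * α ^ 18 ≤ 2 ^ 21 * p := by
  have h3 : (δ * α ^ 2) ^ 4 ≤ (2 * p) ^ 4 := pow_le_pow_left₀ (by positivity) h2 4
  have h4 : v * ((α ^ 2 / 2) ^ 5 * p ^ 3) * α ^ 8 ≤ 4096 * δ ^ 4 * α ^ 8 :=
    mul_le_mul_of_nonneg_right h1 (by positivity)
  have h5 : (v * α ^ 18) * p ^ 3 ≤ (2 ^ 21 * p) * p ^ 3 := by
    nlinarith [h3, h4]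
  exact le_of_mul_le_mul_right h5 (by positivity)

/-- Balog-Szemerédi-Gowers for sums. -/
theorem small2 (A B C : Finset E3) (n α : ℝ) (hn0 : 0 < n)
    (hA : (A.card : ℝ) ≤ n) (hB : (B.card : ℝ) ≤ n) (hC : (C.card : ℝ) ≤ n) (hα : 0 < α)
    (hyp : α * n ^ 2 ≤ (((A ×ˢ B).filter fun z => z.1 + z.2 ∈ C).card : ℝ)) :
    ∃ V ⊆ A, α ^ 2 / 4 * n ≤ V.card ∧ ((V - V).card : ℝ) * α ^ 20 ≤ 2 ^ 23 * V.card := by
  obtain ⟨D, hD1, hD2, hD3⟩ := pop2 A B C n α hn0 hA hB hC hα hyp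
  have hAne : A.Nonempty := by
    by_contra hne
    rw [Finset.not_nonempty_iff_eq_empty] at hne
    rw [hne] at hyp
    simp only [Finset.empty_product, Finset.filter_empty, Finset.card_empty, Nat.cast_zero] at hyp
    have : 0 < α * n ^ 2 := by positivity
    linarith
  have hp : (0 : ℝ) < A.card := by exact_mod_cast hAne.card_pos
  obtain ⟨ι, hι⟩ : ∃ ι : E3 ≃ Multiplicative E3, ι = Multiplicative.ofAdd :=
    ⟨_, rfl⟩
  have hinv : ∀ g : E3, (ι g)⁻¹ = ι (-g) := by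
    intro g
    rw [hι]
    rfl
  have hmul : ∀ g h : E3, ι g * ι h = ι (g + h) := by
    intro g h
    rw [hι]
    rfl
  classical
  have hD' : ∀ g ∈ D.map ι.toEmbedding, g⁻¹ ∈ D.map ι.toEmbedding := by
    intro g hg
    obtain ⟨x, hx, rfl⟩ := Finset.mem_map.1 hg
    rw [Equiv.coe_toEmbedding, hinv]
    exact Finset.mem_map.2 ⟨-x, hD1 x hx, rfl⟩
  have hE : (((A ×ˢ A).filter fun z => -z.1 + z.2 ∈ D).card : ℝ) ≤
      ((((A.map ι.toEmbedding) ×ˢ (A.map ι.toEmbedding)).filter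
        fun q => q.1⁻¹ * q.2 ∈ D.map ι.toEmbedding).card : ℝ) := by
    rw [Nat.cast_le]
    apply Finset.card_le_card_of_injOn (fun z : E3 × E3 => (ι z.1, ι z.2))
    · intro z hz
      have hz' := Finset.mem_filter.1 (Finset.mem_coe.1 hz)
      have hz1 := Finset.mem_product.1 hz'.1
      rw [Finset.mem_coe, Finset.mem_filter, Finset.mem_product]
      refine ⟨⟨Finset.mem_map.2 ⟨z.1, hz1.1, rfl⟩, Finset.mem_map.2 ⟨z.2, hz1.2, rfl⟩⟩, ?_⟩
      have h5 : (ι z.1)⁻¹ * ι z.2 = ι (-z.1 + z.2) := by rw [hinv, hmul]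
      show (ι z.1)⁻¹ * ι z.2 ∈ D.map ι.toEmbedding
      rw [h5]
      exact Finset.mem_map.2 ⟨-z.1 + z.2, hz'.2, rfl⟩
    · intro z _ w _ h
      have h5 : (ι z.1, ι z.2) = (ι w.1, ι w.2) := h
      rw [Prod.mk.injEq] at h5
      exact Prod.ext (ι.injective h5.1) (ι.injective h5.2)
  set β : ℝ := α ^ 2 / 2 * n ^ 2 / (A.card : ℝ) ^ 2 with hβ
  have hβ0 : 0 < β := by positivity
  have hβA : β * (A.card : ℝ) ^ 2 = α ^ 2 / 2 * n ^ 2 := by
    rw [hβ]
    field_simp
  have hE2 : β * (((A.map ι.toEmbedding).card : ℕ) : ℝ) ^ 2 ≤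
      ((((A.map ι.toEmbedding) ×ˢ (A.map ι.toEmbedding)).filter
        fun q => q.1⁻¹ * q.2 ∈ D.map ι.toEmbedding).card : ℝ) := by
    rw [Finset.card_map, hβA]
    exact hD3.trans hE
  obtain ⟨V', hV1, hV2, hV3⟩ := Pool.Agent.Lib.MP_8dbdcc_co.bsg (A.map ι.toEmbedding)
    (D.map ι.toEmbedding) hD' β hβ0 (hAne.map) hE2
  rw [Finset.card_map] at hV2 hV3
  rw [Finset.card_map] at hV3
  have hV2' : α ^ 2 / 4 * n ≤ V'.card := by
    refine le_trans ?_ hV2
    have h1 : β / 2 * (A.card : ℝ) = α ^ 2 / 4 * (n ^ 2 / A.card) := by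
      rw [hβ]
      field_simp
      ring
    rw [h1]
    refine mul_le_mul_of_nonneg_left ?_ (by positivity)
    rw [le_div_iff₀ hp, sq]
    exact mul_le_mul_of_nonneg_left hA hn0.le
  have hV3' : ((V'⁻¹ * V').card : ℝ) * ((α ^ 2 / 2) ^ 5 * n ^ 3) ≤ 4096 * (D.card : ℝ) ^ 4 := by
    refine le_trans ?_ hV3
    refine mul_le_mul_of_nonneg_left ?_ (Nat.cast_nonneg _)
    have h1 : β ^ 5 * (A.card : ℝ) ^ 3 = (α ^ 2 / 2) ^ 5 * (n ^ 10 / (A.card : ℝ) ^ 7) := by
      rw [hβ]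
      field_simp
    rw [h1]
    refine mul_le_mul_of_nonneg_left ?_ (by positivity)
    rw [le_div_iff₀ (by positivity)]
    calc n ^ 3 * (A.card : ℝ) ^ 7 ≤ n ^ 3 * n ^ 7 :=
          mul_le_mul_of_nonneg_left (pow_le_pow_left₀ hp.le hA 7) (by positivity)
      _ = n ^ 10 := by ring
  refine ⟨V'.map ι.symm.toEmbedding, ?_, ?_, ?_⟩
  · intro x hx
    obtain ⟨y, hy, rfl⟩ := Finset.mem_map.1 hx
    obtain ⟨z, hz, rfl⟩ := Finset.mem_map.1 (hV1 hy)
    simpa using hz
  · rw [Finset.card_map]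
    exact hV2'
  · have h6 : ((V'.map ι.symm.toEmbedding - V'.map ι.symm.toEmbedding).card : ℝ) ≤
        ((V'⁻¹ * V').card : ℝ) := by
      rw [Nat.cast_le]
      apply Finset.card_le_card_of_injOn (fun z => ι z)
      · intro z hz
        obtain ⟨a, ha, b, hb, rfl⟩ := Finset.mem_sub.1 (Finset.mem_coe.1 hz)
        obtain ⟨a', ha', rfl⟩ := Finset.mem_map.1 ha
        obtain ⟨b', hb', rfl⟩ := Finset.mem_map.1 hb
        rw [Finset.mem_coe]
        have h7 : ι (ι.symm.toEmbedding a' - ι.symm.toEmbedding b') = b'⁻¹ * a' := by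
          have h8 : b' = ι (ι.symm b') := (ι.apply_symm_apply b').symm
          have h9 : a' = ι (ι.symm a') := (ι.apply_symm_apply a').symm
          rw [Equiv.coe_toEmbedding]
          conv_rhs => rw [h8, h9, hinv, hmul]
          rw [sub_eq_neg_add]
        show ι (ι.symm.toEmbedding a' - ι.symm.toEmbedding b') ∈ V'⁻¹ * V'
        rw [h7]
        exact Finset.mul_mem_mul (Finset.inv_mem_inv hb') ha'
      · intro z _ w _ h
        exact ι.injective h
    rw [Finset.card_map]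
    have h7 : ((V'⁻¹ * V').card : ℝ) * α ^ 18 ≤ 2 ^ 21 * n :=
      card_aux _ _ (D.card : ℝ) α hα hn0 (Nat.cast_nonneg _) hV3' hD2
    have h8 : α ^ 2 * n ≤ 4 * V'.card := by nlinarith [hV2']
    calc ((V'.map ι.symm.toEmbedding - V'.map ι.symm.toEmbedding).card : ℝ) * α ^ 20
        ≤ ((V'⁻¹ * V').card : ℝ) * α ^ 20 := mul_le_mul_of_nonneg_right h6 (by positivity)
      _ = ((V'⁻¹ * V').card : ℝ) * α ^ 18 * α ^ 2 := by ring
      _ ≤ 2 ^ 21 * n * α ^ 2 := mul_le_mul_of_nonneg_right h7 (by positivity)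
      _ = 2 ^ 21 * (α ^ 2 * n) := by ring
      _ ≤ 2 ^ 21 * (4 * V'.card) := mul_le_mul_of_nonneg_left h8 (by positivity)
      _ = 2 ^ 23 * V'.card := by ring

theorem rSmall2 : S_Small2 := by
  intro A B C n α hn0 hA hB hC hα hyp
  exact small2 A B C n α hn0 hA hB hC hα hyp

end Pool.Agent.MAS
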