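import Pool.Agent.Lib.MP_95b053_co.MAS.Spec

/-!
# MP_95b053_co, project MAS: the initial structure (`S_Start`)
-/

set_option autoImplicit false

namespace Pool.Agent.MAS

open Finset
open scoped Pointwise

private theorem Start_plu (V : Finset (ℝ × ℝ × ℝ)) (K : ℝ) (hV : V.Nonempty)
    (hK : ((V - V).card : ℝ) ≤ K * V.card) (m n : ℕ) :
    ((m • V - n • V).card : ℝ) ≤ K ^ (m + n) * V.card := by
  have h1 := Finset.pluennecke_ruzsa_inequality_nsmul_sub_nsmul_sub hV V m n
  have h2 : (((m • V - n • V).card : ℚ≥0) : ℝ) ≤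
      (((((V - V).card : ℚ≥0) / (V.card : ℚ≥0)) ^ (m + n) * (V.card : ℚ≥0) : ℚ≥0) : ℝ) := by
    exact_mod_cast h1
  have hpos : (0 : ℝ) < (V.card : ℝ) := by exact_mod_cast hV.card_pos
  push_cast at h2
  have h3 : ((V - V).card : ℝ) / (V.card : ℝ) ≤ K := by
    rw [div_le_iff₀ hpos]; exact hK
  have h4 : (0 : ℝ) ≤ ((V - V).card : ℝ) / (V.card : ℝ) := by positivity
  exact h2.trans (mul_le_mul_of_nonneg_right (pow_le_pow_left₀ h4 h3 _) hpos.le)

/-- The scale of the coordinate. -/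
private noncomputable def Start_L (M : ℕ) : ℝ := if M = 0 then 1 / 2 else 2 * M

private theorem Start_L_pos (M : ℕ) : 0 < Start_L M := by
  unfold Start_L
  split
  · norm_num
  · rename_i h
    have : (0 : ℝ) < M := by exact_mod_cast Nat.pos_of_ne_zero h
    positivity

private theorem Start_L_iff (M : ℕ) (j : ℤ) : |(j : ℝ)| / Start_L M ≤ 1 ↔ |j| ≤ 2 * (M : ℤ) := by
  rw [div_le_one (Start_L_pos M)]
  unfold Start_L
  split
  · rename_i h
    subst h
    constructor
    · intro h1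
      have h2 : |(j : ℝ)| < 1 := lt_of_le_of_lt h1 (by norm_num)
      have h3 : |j| < 1 := by exact_mod_cast h2
      have h4 : j = 0 := by simpa using h3
      rw [h4]
      simp
    · intro h1
      have h2 : j = 0 := by simpa using h1
      rw [h2]
      norm_num
  · rw [← Int.cast_abs]
    constructor
    · intro h1
      exact_mod_cast h1
    · intro h1
      exact_mod_cast h1

/-- The norm. -/
private noncomputable def Start_p {d : ℕ} (M : Fin d → ℕ) (j : Fin d → ℤ) : ℝ :=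
  ‖(fun i => (j i : ℝ) / Start_L (M i) : Fin d → ℝ)‖

private theorem Start_p_iff {d : ℕ} (M : Fin d → ℕ) (j : Fin d → ℤ) :
    Start_p M j ≤ 1 ↔ ∀ i, |j i| ≤ 2 * (M i : ℤ) := by
  unfold Start_p
  rw [pi_norm_le_iff_of_nonneg zero_le_one]
  refine forall_congr' (fun i => ?_)
  rw [Real.norm_eq_abs, abs_div, abs_of_pos (Start_L_pos (M i))]
  exact Start_L_iff (M i) (j i)

private theorem Start_nrm {d : ℕ} (M : Fin d → ℕ) : Nrm d (Start_p M) := by
  refine ⟨?_, ?_, ?_⟩
  · intro x y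
    unfold Start_p
    have : (fun i => ((x + y) i : ℝ) / Start_L (M i) : Fin d → ℝ) =
        (fun i => (x i : ℝ) / Start_L (M i)) + fun i => (y i : ℝ) / Start_L (M i) := by
      funext i
      simp only [Pi.add_apply]
      push_cast
      ring
    rw [this]
    exact norm_add_le _ _
  · intro k x
    unfold Start_p
    have : (fun i => ((k • x) i : ℝ) / Start_L (M i) : Fin d → ℝ) =
        (k : ℝ) • fun i => (x i : ℝ) / Start_L (M i) := by
      funext i
      simp only [Pi.smul_apply, smul_eq_mul]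
      push_cast
      ring
    rw [this, norm_smul, Real.norm_eq_abs]
  · intro R
    refine (Set.finite_Icc (fun i => -⌈R * Start_L (M i)⌉) (fun i => ⌈R * Start_L (M i)⌉)).subset ?_
    intro z hz
    have key : ∀ i, |(z i : ℝ)| ≤ R * Start_L (M i) := by
      intro i
      have h1 := (norm_le_pi_norm (fun i => (z i : ℝ) / Start_L (M i) : Fin d → ℝ) i).trans hz
      rw [Real.norm_eq_abs, abs_div, abs_of_pos (Start_L_pos (M i)),
        div_le_iff₀ (Start_L_pos (M i))] at h1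
      exact h1
    refine ⟨fun i => ?_, fun i => ?_⟩
    · have h1 := (abs_le.1 (key i)).1
      have h2 : -((⌈R * Start_L (M i)⌉ : ℤ) : ℝ) ≤ z i := (neg_le_neg (Int.le_ceil _)).trans h1
      exact_mod_cast h2
    · have h1 := (abs_le.1 (key i)).2
      have h2 : (z i : ℝ) ≤ ((⌈R * Start_L (M i)⌉ : ℤ) : ℝ) := h1.trans (Int.le_ceil _)
      exact_mod_cast h2

/-- The homomorphism. -/
private noncomputable def Start_phi {d : ℕ} (x : Fin d → ℝ × ℝ × ℝ) : (Fin d → ℤ) →+ ℝ × ℝ × ℝ where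
  toFun j := ∑ i, j i • x i
  map_zero' := by simp
  map_add' a b := by
    simp only [Pi.add_apply, add_smul, Finset.sum_add_distrib]

private theorem Start_split (M : ℕ) (z : ℤ) (h : |z| ≤ 2 * (M : ℤ)) :
    ∃ a b : ℤ, |a| ≤ M ∧ |b| ≤ M ∧ z = a - b := by
  rw [abs_le] at h
  rcases le_total 0 z with hz | hz
  · rcases le_total z M with h1 | h1
    · exact ⟨z, 0, abs_le.2 ⟨by omega, h1⟩, by simp, by ring⟩
    · exact ⟨M, M - z, by simp, abs_le.2 ⟨by omega, by omega⟩, by ring⟩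
  · rcases le_total (-z) M with h1 | h1
    · exact ⟨z, 0, abs_le.2 ⟨by omega, by omega⟩, by simp, by ring⟩
    · exact ⟨-M, -M - z, by simp, abs_le.2 ⟨by omega, by omega⟩, by ring⟩

private theorem Start_four (V : Finset (ℝ × ℝ × ℝ)) (a b : ℝ × ℝ × ℝ) (ha : a ∈ 2 • V - 2 • V)
    (hb : b ∈ 2 • V - 2 • V) : a - b ∈ 4 • V - 4 • V := by
  obtain ⟨a1, ha1, a2, ha2, rfl⟩ := Finset.mem_sub.1 ha
  obtain ⟨b1, hb1, b2, hb2, rfl⟩ := Finset.mem_sub.1 hb
  have h4 : (4 : ℕ) • V = 2 • V + 2 • V := by rw [← add_nsmul]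
  rw [h4]
  have : a1 - a2 - (b1 - b2) = (a1 + b2) - (a2 + b1) := by abel
  rw [this]
  exact Finset.sub_mem_sub (Finset.add_mem_add ha1 hb2) (Finset.add_mem_add ha2 hb1)

theorem rStart (h1 : S_Prog) : S_Start := by
  classical
  intro K
  obtain ⟨E, C, hC, h⟩ := h1 K
  refine ⟨E, max (K ^ 5 * C) (K ^ 8), ?_⟩
  intro V hV hK
  obtain ⟨d, x, M, hd, hval, hcard⟩ := h V hV hK
  have hVpos : (0 : ℝ) < (V.card : ℝ) := by exact_mod_cast hV.card_pos
  have hK0 : 0 ≤ K := by
    by_contra hneg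
    have h2 : K * V.card < 0 := mul_neg_of_neg_of_pos (not_le.1 hneg) hVpos
    have h3 : (0 : ℝ) ≤ ((V - V).card : ℝ) := Nat.cast_nonneg _
    linarith
  -- the set of the values
  set Qs : Set (ℝ × ℝ × ℝ) := {y | ∃ j : Fin d → ℤ, (∀ i, |j i| ≤ M i) ∧ y = ∑ i, j i • x i} with hQs
  have hQsub : Qs ⊆ ((2 • V - 2 • V : Finset (ℝ × ℝ × ℝ)) : Set (ℝ × ℝ × ℝ)) := by
    rintro y ⟨j, hj, rfl⟩
    exact hval j hj
  have hQfin : Qs.Finite := (Finset.finite_toSet _).subset hQsub
  set Q : Finset (ℝ × ℝ × ℝ) := hQfin.toFinset with hQ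
  have hQcard : (Qs.ncard : ℝ) = Q.card := by
    rw [Set.ncard_eq_toFinset_card Qs hQfin]
  have hQsub' : Q ⊆ 2 • V - 2 • V := by
    intro y hy
    exact hQsub (hQfin.mem_toFinset.1 hy)
  have hQne : Q.Nonempty := by
    refine ⟨0, hQfin.mem_toFinset.2 ⟨0, fun i => by simp, by simp⟩⟩
  have hVQ : V + Q ⊆ 3 • V - 2 • V := by
    intro y hy
    obtain ⟨v, hv, q, hq, rfl⟩ := Finset.mem_add.1 hy
    obtain ⟨a, ha, b, hb, rfl⟩ := Finset.mem_sub.1 (hQsub' hq)
    have h3 : (3 : ℕ) • V = V + 2 • V := by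
      rw [show (3 : ℕ) = 1 + 2 from rfl, add_nsmul, one_nsmul]
    rw [h3]
    have : v + (a - b) = (v + a) - b := by abel
    rw [this]
    exact Finset.sub_mem_sub (Finset.add_mem_add hv ha) hb
  have hVQcard : ((V + Q).card : ℝ) ≤ (K ^ 5 * C) * Q.card := by
    calc ((V + Q).card : ℝ) ≤ ((3 • V - 2 • V).card : ℝ) := by
          exact_mod_cast Finset.card_le_card hVQ
      _ ≤ K ^ (3 + 2) * V.card := Start_plu V K hV hK 3 2
      _ ≤ K ^ 5 * (C * Q.card) := by
          rw [← hQcard]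
          exact mul_le_mul_of_nonneg_left hcard (by positivity)
      _ = (K ^ 5 * C) * Q.card := by ring
  obtain ⟨X, -, hX, hcov⟩ := Finset.ruzsa_covering_add hQne hVQcard
  refine ⟨d, Start_p M, Start_phi x, X, hd, Start_nrm M, hX.trans (le_max_left _ _), ?_, ?_⟩
  · intro a ha
    obtain ⟨y, hy, w, hw, hyw⟩ := Finset.mem_add.1 (hcov ha)
    obtain ⟨q, hq, q', hq', rfl⟩ := Finset.mem_sub.1 hw
    obtain ⟨j, hj, rfl⟩ := hQfin.mem_toFinset.1 hq
    obtain ⟨j', hj', rfl⟩ := hQfin.mem_toFinset.1 hq'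
    refine ⟨y, hy, j - j', ?_, ?_⟩
    · rw [Start_p_iff]
      intro i
      have e1 := abs_le.1 (hj i)
      have e2 := abs_le.1 (hj' i)
      rw [Pi.sub_apply, abs_le]
      constructor <;> omega
    · rw [map_sub]
      exact hyw.symm
  · have hsub : (Start_phi x '' {z | Start_p M z ≤ 1}) ⊆
        ((4 • V - 4 • V : Finset (ℝ × ℝ × ℝ)) : Set (ℝ × ℝ × ℝ)) := by
      rintro y ⟨z, hz, rfl⟩
      have hz := (Start_p_iff M z).1 hz
      choose a b ha hb hab using fun i => Start_split (M i) (z i) (hz i)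
      have e : z = a - b := funext hab
      rw [e, map_sub]
      exact Start_four V _ _ (hval a ha) (hval b hb)
    have h2 : ((Start_phi x '' {z | Start_p M z ≤ 1}).ncard) ≤ (4 • V - 4 • V).card := by
      have h3 := Set.ncard_le_ncard hsub (Finset.finite_toSet _)
      rwa [Set.ncard_coe_finset] at h3
    calc (((Start_phi x '' {z | Start_p M z ≤ 1}).ncard : ℕ) : ℝ) ≤ ((4 • V - 4 • V).card : ℝ) := by
          exact_mod_cast h2
      _ ≤ K ^ (4 + 4) * V.card := Start_plu V K hV hK 4 4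
      _ ≤ max (K ^ 5 * C) (K ^ 8) * V.card :=
          mul_le_mul_of_nonneg_right (le_max_right _ _) hVpos.le

end Pool.Agent.MAS
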